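import Mathlib

set_option autoImplicit false

/-!
# The ultrapower of the complex numbers
-/

namespace Pool.Agent.PND

open Filter

/-- The ultrapower of `ℂ` along a nonprincipal ultrafilter on `ℕ`. -/
abbrev UC : Type := (hyperfilter ℕ : Filter ℕ).Germ ℂ

/-- The class of a sequence. -/
noncomputable def up : (ℕ → ℂ) →+* UC := Germ.coeRingHom (hyperfilter ℕ : Filter ℕ)

theorem up_surj : Function.Surjective up := by
  intro x
  refine Germ.inductionOn x ?_
  intro f
  exact ⟨f, rfl⟩

theorem up_eq_iff {f g : ℕ → ℂ} : up f = up g ↔ ∀ᶠ n in (hyperfilter ℕ : Filter ℕ), f n = g n :=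
  Germ.coe_eq

theorem up_eq_zero {f : ℕ → ℂ} : up f = 0 ↔ ∀ᶠ n in (hyperfilter ℕ : Filter ℕ), f n = 0 := by
  rw [← map_zero up, up_eq_iff]
  rfl

theorem up_ne_zero {f : ℕ → ℂ} : up f ≠ 0 ↔ ∀ᶠ n in (hyperfilter ℕ : Filter ℕ), f n ≠ 0 := by
  rw [Ne, up_eq_zero]
  exact (Ultrafilter.eventually_not (f := hyperfilter ℕ)).symm

instance instAlgClosedUC : IsAlgClosed UC := by
  apply IsAlgClosed.of_exists_root
  intro p hm hirr
  have hlift : p ∈ Polynomial.lifts up := by
    rw [Polynomial.mem_lifts]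
    exact Polynomial.map_surjective up up_surj p
  obtain ⟨q, hq, hdeg, hqm⟩ := Polynomial.lifts_and_natDegree_eq_and_monic hlift hm
  have hroot : ∀ n : ℕ, ∃ z : ℂ, (q.map (Pi.evalRingHom (fun _ : ℕ => ℂ) n)).eval z = 0 := by
    intro n
    apply IsAlgClosed.exists_root
    rw [Polynomial.Monic.degree_map hqm, Polynomial.degree_eq_natDegree hqm.ne_zero, hdeg]
    have := hirr.natDegree_pos
    exact_mod_cast this.ne'
  choose z hz using hroot
  refine ⟨up z, ?_⟩
  rw [← hq, Polynomial.eval_map, Polynomial.eval₂_hom]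
  have h0 : q.eval z = 0 := by
    funext n
    have h1 := hz n
    rw [Polynomial.eval_map] at h1
    have h2 := Polynomial.eval₂_hom (Pi.evalRingHom (fun _ : ℕ => ℂ) n) z (p := q)
    have h3 : (Pi.evalRingHom (fun _ : ℕ => ℂ) n) z = z n := rfl
    rw [h3] at h2
    rw [h2] at h1
    exact h1
  rw [h0, map_zero]

section mv

variable {σ : Type*}

/-- The polynomial over `ℂ` at the index `n`. -/
noncomputable def at' (n : ℕ) : MvPolynomial σ (ℕ → ℂ) →+* MvPolynomial σ ℂ :=
  MvPolynomial.map (Pi.evalRingHom (fun _ : ℕ => ℂ) n)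

theorem coeff_at' (n : ℕ) (P : MvPolynomial σ (ℕ → ℂ)) (m : σ →₀ ℕ) :
    MvPolynomial.coeff m (at' n P) = MvPolynomial.coeff m P n := by
  rw [at', MvPolynomial.coeff_map]
  rfl

/-- A sequence of polynomials of bounded degree is one polynomial over the ring of sequences. -/
theorem lift_seq [Finite σ] (δ : ℕ) (p : ℕ → MvPolynomial σ ℂ)
    (hp : ∀ n, (p n).totalDegree ≤ δ) : ∃ P : MvPolynomial σ (ℕ → ℂ), (∀ n, at' n P = p n) ∧
      P.totalDegree ≤ δ := by
  classical
  have hfin : {m : σ →₀ ℕ | m.degree ≤ δ}.Finite := by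
    cases nonempty_fintype σ
    apply (Set.finite_Iic (Finsupp.equivFunOnFinite.symm fun _ : σ => δ)).subset
    intro m hm i
    have h1 : m i ≤ m.degree := Finsupp.le_degree i m
    exact h1.trans hm
  refine ⟨∑ m ∈ hfin.toFinset, MvPolynomial.monomial m fun n => MvPolynomial.coeff m (p n),
    ?_, ?_⟩
  · intro n
    ext m
    rw [coeff_at', MvPolynomial.coeff_sum]
    simp only [MvPolynomial.coeff_monomial]
    rw [Finset.sum_ite_eq']
    split_ifs with h
    · rfl
    · rw [Set.Finite.mem_toFinset, Set.mem_setOf_eq, not_le] at h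
      symm
      apply MvPolynomial.coeff_eq_zero_of_totalDegree_lt
      exact lt_of_le_of_lt (hp n) h
  · apply MvPolynomial.totalDegree_finsetSum_le
    intro m hm
    rw [Set.Finite.mem_toFinset, Set.mem_setOf_eq] at hm
    exact (MvPolynomial.totalDegree_monomial_le _ _).trans hm

theorem eval_at' (n : ℕ) (P : MvPolynomial σ (ℕ → ℂ)) (z : σ → ℕ → ℂ) :
    MvPolynomial.eval (fun i => z i n) (at' n P) = MvPolynomial.eval z P n := by
  rw [at', MvPolynomial.eval_map]
  have h := MvPolynomial.eval₂_comp_left (Pi.evalRingHom (fun _ : ℕ => ℂ) n)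
    (RingHom.id (ℕ → ℂ)) z P
  rw [RingHom.comp_id] at h
  exact h.symm

theorem eval_up (P : MvPolynomial σ (ℕ → ℂ)) (z : σ → ℕ → ℂ) :
    MvPolynomial.eval (fun i => up (z i)) (MvPolynomial.map up P) =
      up (fun n => MvPolynomial.eval (fun i => z i n) (at' n P)) := by
  have h1 : (fun n => MvPolynomial.eval (fun i => z i n) (at' n P)) =
      MvPolynomial.eval z P := by
    funext n
    exact eval_at' n P z
  rw [h1, MvPolynomial.eval_map]
  have h := MvPolynomial.eval₂_comp_left up (RingHom.id (ℕ → ℂ)) z P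
  rw [RingHom.comp_id] at h
  exact h.symm

theorem map_up_eq_zero (P : MvPolynomial σ (ℕ → ℂ)) :
    MvPolynomial.map up P = 0 ↔ ∀ᶠ n in (hyperfilter ℕ : Filter ℕ), at' n P = 0 := by
  constructor
  · intro h
    have h1 : ∀ m ∈ P.support, ∀ᶠ n in (hyperfilter ℕ : Filter ℕ),
        MvPolynomial.coeff m P n = 0 := by
      intro m _
      rw [← up_eq_zero, ← MvPolynomial.coeff_map, h, MvPolynomial.coeff_zero]
    have h2 := (Filter.eventually_all_finset P.support).mpr h1
    filter_upwards [h2] with n hn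
    ext m
    rw [coeff_at', MvPolynomial.coeff_zero]
    by_cases hm : m ∈ P.support
    · exact hn m hm
    · rw [MvPolynomial.notMem_support_iff.mp hm]
      rfl
  · intro h
    ext m
    rw [MvPolynomial.coeff_map, MvPolynomial.coeff_zero, up_eq_zero]
    filter_upwards [h] with n hn
    rw [← coeff_at', hn, MvPolynomial.coeff_zero]

/-- Every polynomial over the ultrapower comes from the ring of sequences. -/
theorem map_up_surj (p : MvPolynomial σ UC) :
    ∃ P : MvPolynomial σ (ℕ → ℂ), MvPolynomial.map up P = p :=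
  MvPolynomial.map_surjective up up_surj p

end mv

end Pool.Agent.PND
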