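import Mathlib
import Pool.Agent.PND.UltraF

set_option autoImplicit false

/-!
# The uniform Nullstellensatz
-/

namespace Pool.Agent.PND

open Filter

/-- A monomial of large degree is in every ideal which contains powers of the variables. -/
theorem monomial_mem {k : Type*} [Field k] {N : ℕ} (I : Ideal (MvPolynomial (Fin (N + 1)) k))
    (r : Fin (N + 1) → ℕ) (hr : ∀ i, (MvPolynomial.X i : MvPolynomial (Fin (N + 1)) k) ^ r i ∈ I)
    (α : Fin (N + 1) →₀ ℕ) (hα : ∑ i, r i ≤ α.degree) :
    MvPolynomial.monomial α (1 : k) ∈ I := by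
  obtain ⟨i, hi⟩ : ∃ i, r i ≤ α i := by
    by_contra hcon
    push Not at hcon
    have h1 : ∑ i, α i < ∑ i, r i := by
      apply Finset.sum_lt_sum (fun i _ => (hcon i).le)
      exact ⟨0, Finset.mem_univ _, hcon 0⟩
    rw [Finsupp.degree_eq_sum] at hα
    omega
  have h1 : MvPolynomial.monomial α (1 : k) =
      MvPolynomial.monomial (α - Finsupp.single i (r i)) 1 * MvPolynomial.X i ^ r i := by
    rw [MvPolynomial.X_pow_eq_monomial, MvPolynomial.monomial_mul, mul_one,
      tsub_add_cancel_of_le]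
    rw [Finsupp.single_le_iff]
    exact hi
  rw [h1]
  exact I.mul_mem_left _ (hr i)

/-- The projective Nullstellensatz: no common zero, hence powers of the variables. -/
theorem exists_pow_mem {k : Type*} [Field k] [IsAlgClosed k] {N : ℕ} {T : Type*}
    (g : T → MvPolynomial (Fin (N + 1)) k)
    (hg : ∀ z : Fin (N + 1) → k, (∀ t, MvPolynomial.eval z (g t) = 0) → z = 0)
    (i : Fin (N + 1)) :
    ∃ r : ℕ, (MvPolynomial.X i : MvPolynomial (Fin (N + 1)) k) ^ r ∈ Ideal.span (Set.range g) := by
  have h1 : (MvPolynomial.X i : MvPolynomial (Fin (N + 1)) k) ∈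
      (Ideal.span (Set.range g)).radical := by
    rw [← MvPolynomial.vanishingIdeal_zeroLocus_eq_radical (K := k), MvPolynomial.mem_vanishingIdeal_iff]
    intro z hz
    have h2 : z = 0 := by
      apply hg
      intro t
      have h3 := (MvPolynomial.mem_zeroLocus_iff).mp hz (g t) (Ideal.subset_span ⟨t, rfl⟩)
      rwa [MvPolynomial.aeval_eq_eval] at h3
    rw [h2, MvPolynomial.aeval_X, Pi.zero_apply]
  exact h1

/-- Uniform Nullstellensatz. -/
theorem unif_null (N e T : ℕ) (he : 1 ≤ e) : ∃ E : ℕ,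
    ∀ g : Fin T → MvPolynomial (Fin (N + 1)) ℂ, (∀ t, (g t).IsHomogeneous e) →
      (∀ z : Fin (N + 1) → ℂ, (∀ t, MvPolynomial.eval z (g t) = 0) → z = 0) →
      ∀ α : Fin (N + 1) →₀ ℕ, α.degree = E →
        MvPolynomial.monomial α (1 : ℂ) ∈ Ideal.span (Set.range g) := by
  have _ := he
  by_contra hcon
  push Not at hcon
  choose g hg hz α hα hmem using hcon
  have hlift : ∀ t, ∃ P : MvPolynomial (Fin (N + 1)) (ℕ → ℂ), ∀ n, at' n P = g n t := by
    intro t
    obtain ⟨P, hP, _⟩ := lift_seq e (fun n => g n t) (fun n => (hg n t).totalDegree_le)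
    exact ⟨P, hP⟩
  choose G hG using hlift
  have hno : ∀ z : Fin (N + 1) → UC,
      (∀ t, MvPolynomial.eval z (MvPolynomial.map up (G t)) = 0) → z = 0 := by
    intro z hz0
    choose w hw using fun i => up_surj (z i)
    have hzw : z = fun i => up (w i) := by
      funext i
      exact (hw i).symm
    rw [hzw] at hz0 ⊢
    have h1 : ∀ t, ∀ᶠ n in (hyperfilter ℕ : Filter ℕ),
        MvPolynomial.eval (fun i => w i n) (g n t) = 0 := by
      intro t
      have h2 := hz0 t
      rw [eval_up, up_eq_zero] at h2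
      filter_upwards [h2] with n hn
      rwa [hG] at hn
    have h3 := Filter.eventually_all.mpr h1
    have h4 : ∀ᶠ n in (hyperfilter ℕ : Filter ℕ), (fun i => w i n) = 0 := by
      filter_upwards [h3] with n hn
      exact hz n _ hn
    funext i
    rw [Pi.zero_apply, up_eq_zero]
    filter_upwards [h4] with n hn
    exact congrFun hn i
  choose r hr using fun i => exists_pow_mem (fun t => MvPolynomial.map up (G t)) hno i
  have hev : ∀ i, ∀ᶠ n in (hyperfilter ℕ : Filter ℕ),
      (MvPolynomial.X i : MvPolynomial (Fin (N + 1)) ℂ) ^ r i ∈ Ideal.span (Set.range (g n)) := by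
    intro i
    obtain ⟨c, hc⟩ := Ideal.mem_span_range_iff_exists_fun.mp (hr i)
    choose b hb using fun t => map_up_surj (c t)
    have h1 : MvPolynomial.map up (MvPolynomial.X i ^ r i - ∑ t, b t * G t) = 0 := by
      rw [map_sub, map_pow, MvPolynomial.map_X, map_sum, ← hc, sub_eq_zero]
      apply Finset.sum_congr rfl
      intro t _
      rw [map_mul, hb]
    rw [map_up_eq_zero] at h1
    filter_upwards [h1] with n hn
    rw [map_sub, map_pow, map_sum, sub_eq_zero] at hn
    have h2 : at' n (MvPolynomial.X i : MvPolynomial (Fin (N + 1)) (ℕ → ℂ)) =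
        MvPolynomial.X i := by
      rw [at', MvPolynomial.map_X]
    rw [h2] at hn
    rw [hn]
    apply Ideal.sum_mem
    intro t _
    rw [map_mul, hG]
    exact Ideal.mul_mem_left _ _ (Ideal.subset_span ⟨t, rfl⟩)
  have hall := Filter.eventually_all.mpr hev
  have hlarge : ∀ᶠ n in (hyperfilter ℕ : Filter ℕ), ∑ i, r i ≤ n :=
    Nat.hyperfilter_le_atTop (Filter.eventually_ge_atTop _)
  obtain ⟨n, hn1, hn2⟩ := (hall.and hlarge).exists
  exact hmem n (monomial_mem _ r hn1 (α n) (by rw [hα]; exact hn2))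

end Pool.Agent.PND
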