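import Pool.Agent.PND.NullExt
import Pool.Agent.PND.UnifNull

set_option autoImplicit false

/-!
# A finite set of zeros of forms of bounded degree has a bounded number of elements
-/

namespace Pool.Agent.PND

open NumberField IsDedekindDomain Pool.Agent.GPoly

namespace BezAux

/-- The component of degree `E` of a product with a form. -/
theorem comp_mul {R : Type*} [CommRing R] {σ : Type*} {e E : ℕ} (h g : MvPolynomial σ R)
    (hg : g.IsHomogeneous e) :
    ∃ h' : MvPolynomial σ R, MvPolynomial.homogeneousComponent E (h * g) = h' * g ∧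
      h'.totalDegree ≤ E - e ∧ (E < e → h' = 0) := by
  classical
  let _ : GradedAlgebra (MvPolynomial.homogeneousSubmodule σ R) := MvPolynomial.gradedAlgebra
  have hd : ∀ (P : MvPolynomial σ R) (n : ℕ), MvPolynomial.homogeneousComponent n P =
      (DirectSum.decompose (MvPolynomial.homogeneousSubmodule σ R) P n : MvPolynomial σ R) := by
    intro P n
    exact (MvPolynomial.decomposition.decompose'_apply P n).symm
  rcases Nat.lt_or_ge E e with hlt | hle
  · refine ⟨0, ?_, by simp, fun _ => rfl⟩
    rw [hd, zero_mul]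
    exact DirectSum.coe_decompose_mul_of_right_mem_of_not_le _ hg (by omega)
  · refine ⟨MvPolynomial.homogeneousComponent (E - e) h, ?_, ?_, fun h0 => absurd h0 (by omega)⟩
    · rw [hd, hd]
      exact DirectSum.coe_decompose_mul_of_right_mem_of_le _ hg hle
    · exact (MvPolynomial.homogeneousComponent_isHomogeneous _ _).totalDegree_le

/-- A polynomial which is one at `s` and zero at the other points of `S`. -/
theorem exists_interp {L : Type*} [Field L] {σ : Type*} {ι : Type*} [Fintype ι] [DecidableEq ι]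
    (y : ι → σ → L) (hy : Function.Injective y) (s : ι) :
    ∃ P : MvPolynomial σ L, ∀ t, MvPolynomial.eval (y t) P = if t = s then 1 else 0 := by
  have h1 : ∀ t : ι, ∃ Q : MvPolynomial σ L, t ≠ s →
      MvPolynomial.eval (y s) Q = 1 ∧ MvPolynomial.eval (y t) Q = 0 := by
    intro t
    by_cases hts : t = s
    · exact ⟨0, fun h => absurd hts h⟩
    obtain ⟨i, hi⟩ : ∃ i, y t i ≠ y s i := by
      by_contra hcon
      push Not at hcon
      exact hts (hy (funext hcon))
    have hi' : y s i - y t i ≠ 0 := sub_ne_zero.2 (Ne.symm hi)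
    refine ⟨MvPolynomial.C (y s i - y t i)⁻¹ * (MvPolynomial.X i - MvPolynomial.C (y t i)),
      fun _ => ⟨?_, ?_⟩⟩
    · simp [hi']
    · simp
  choose Q hQ using h1
  refine ⟨∏ t ∈ Finset.univ.erase s, Q t, fun t => ?_⟩
  rw [map_prod]
  split_ifs with hts
  · subst hts
    exact Finset.prod_eq_one fun u hu => (hQ u (Finset.ne_of_mem_erase hu)).1
  · exact Finset.prod_eq_zero (Finset.mem_erase.2 ⟨hts, Finset.mem_univ _⟩) (hQ t hts).2

/-- The bound, in affine coordinates with `ℓ = 1`. -/
theorem card_le_affine {L : Type*} [Field L] {N e E : ℕ} (he : 1 ≤ e) {T : Type*} [Fintype T]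
    (g : Option T → MvPolynomial (Fin (N + 1)) L) (hg : ∀ t, (g t).IsHomogeneous e)
    (hspan : ∀ α : Fin (N + 1) →₀ ℕ, α.degree = E →
      MvPolynomial.monomial α (1 : L) ∈ Ideal.span (Set.range g))
    {ι : Type*} [Fintype ι] (y : ι → Fin (N + 1) → L) (hy : Function.Injective y)
    (h0 : ∀ s t, MvPolynomial.eval (y s) (g (some t)) = 0)
    (h1 : ∀ s, MvPolynomial.eval (y s) (g none) = 1) : Fintype.card ι ≤ E ^ (N + 1) := by
  classical
  -- restriction
  let res : MvPolynomial (Fin (N + 1)) L →ₗ[L] (ι → L) :=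
    LinearMap.pi fun s => (MvPolynomial.aeval (y s)).toLinearMap
  have hres : ∀ P s, res P s = MvPolynomial.eval (y s) P := by
    intro P s
    change MvPolynomial.aeval (y s) P = _
    rw [MvPolynomial.aeval_eq_eval]
  let v : (Fin (N + 1) → Fin E) → (ι → L) := fun a =>
    res (MvPolynomial.monomial (Finsupp.equivFunOnFinite.symm fun i => (a i : ℕ)) 1)
  set W := Submodule.span L (Set.range v) with hW
  -- low degree
  have hlow : ∀ α : Fin (N + 1) →₀ ℕ, α.degree < E → res (MvPolynomial.monomial α 1) ∈ W := by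
    intro α hα
    refine Submodule.subset_span ⟨fun i => ⟨α i, lt_of_le_of_lt ?_ hα⟩, ?_⟩
    · exact Finsupp.le_degree i α
    · have h2 : (Finsupp.equivFunOnFinite.symm fun i => α i) = α :=
        Finsupp.equivFunOnFinite.symm_apply_apply α
      simp only [v]
      rw [h2]
  -- reduction of the monomials of degree `E`
  have hred : ∀ β : Fin (N + 1) →₀ ℕ, β.degree = E → ∃ h' : MvPolynomial (Fin (N + 1)) L,
      (∀ s, MvPolynomial.eval (y s) (MvPolynomial.monomial β 1) =
        MvPolynomial.eval (y s) h') ∧ h'.totalDegree ≤ E - e ∧ (E < e → h' = 0) := by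
    intro β hβ
    obtain ⟨c, hc⟩ := (Ideal.mem_span_range_iff_exists_fun).1 (hspan β hβ)
    have h2 : (MvPolynomial.monomial β (1 : L)) =
        ∑ t, MvPolynomial.homogeneousComponent E (c t * g t) := by
      rw [← map_sum, hc]
      exact (MvPolynomial.homogeneousComponent_eq_self
        (MvPolynomial.isHomogeneous_monomial 1 hβ)).symm
    choose h' hh' using fun t => comp_mul (E := E) (c t) (g t) (hg t)
    refine ⟨h' none, fun s => ?_, (hh' none).2⟩
    rw [h2, map_sum, Fintype.sum_option]
    rw [(hh' none).1, map_mul, h1, mul_one, add_eq_left]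
    refine Finset.sum_eq_zero fun t _ => ?_
    rw [(hh' (some t)).1, map_mul, h0, mul_zero]
  -- all monomials
  have hall : ∀ n : ℕ, ∀ α : Fin (N + 1) →₀ ℕ, α.degree = n →
      res (MvPolynomial.monomial α 1) ∈ W := by
    intro n
    induction n using Nat.strong_induction_on with
    | _ n ih =>
      intro α hα
      rcases Nat.lt_or_ge n E with hlt | hge
      · exact hlow α (by omega)
      -- split
      obtain ⟨β, hβα, hβ⟩ : ∃ β : Fin (N + 1) →₀ ℕ, β ≤ α ∧ β.degree = E := by
        exact Finsupp.exists_le_degree_eq α E (by omega)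
      obtain ⟨h', hh1, hh2, hh3⟩ := hred β hβ
      have h3 : res (MvPolynomial.monomial α 1) =
          res (h' * MvPolynomial.monomial (α - β) 1) := by
        funext s
        rw [hres, hres, map_mul, ← hh1 s, ← map_mul, MvPolynomial.monomial_mul,
          add_tsub_cancel_of_le hβα, mul_one]
      rw [h3]
      rw [MvPolynomial.as_sum h', Finset.sum_mul, map_sum]
      refine Submodule.sum_mem _ fun γ hγ => ?_
      rw [MvPolynomial.monomial_mul, mul_one]
      have h4 : γ.degree ≤ E - e := by
        have h5 := MvPolynomial.le_totalDegree hγ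
        have h6 : γ.degree = γ.sum fun _ e => e := rfl
        omega
      have h5 : ¬ E < e := by
        intro h6
        rw [hh3 h6] at hγ
        simp at hγ
      have h6 : (γ + (α - β)).degree < n := by
        have h7 : (α - β).degree + β.degree = α.degree := by
          rw [← map_add, tsub_add_cancel_of_le hβα]
        rw [map_add]
        omega
      have h7 := ih _ h6 (γ + (α - β)) rfl
      have h8 : MvPolynomial.monomial (γ + (α - β)) (MvPolynomial.coeff γ h') =
          MvPolynomial.coeff γ h' • MvPolynomial.monomial (γ + (α - β)) (1 : L) := by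
        rw [MvPolynomial.smul_monomial, smul_eq_mul, mul_one]
      rw [h8, map_smul]
      exact W.smul_mem _ h7
  have hpoly : ∀ P : MvPolynomial (Fin (N + 1)) L, res P ∈ W := by
    intro P
    rw [MvPolynomial.as_sum P, map_sum]
    refine Submodule.sum_mem _ fun γ _ => ?_
    have h8 : MvPolynomial.monomial γ (MvPolynomial.coeff γ P) =
        MvPolynomial.coeff γ P • MvPolynomial.monomial γ (1 : L) := by
      rw [MvPolynomial.smul_monomial, smul_eq_mul, mul_one]
    rw [h8, map_smul]
    exact W.smul_mem _ (hall _ γ rfl)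
  have htop : W = ⊤ := by
    rw [eq_top_iff]
    intro φ _
    choose P hP using fun s => exists_interp y hy s
    have h2 : φ = ∑ s, φ s • res (P s) := by
      funext t
      rw [Finset.sum_apply, Finset.sum_eq_single t]
      · rw [Pi.smul_apply, hres, hP, if_pos rfl, smul_eq_mul, mul_one]
      · intro b _ hbt
        rw [Pi.smul_apply, hres, hP, if_neg (Ne.symm hbt), smul_zero]
      · intro h
        exact absurd (Finset.mem_univ t) h
    rw [h2]
    exact Submodule.sum_mem _ fun s _ => W.smul_mem _ (hpoly _)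
  have hfin : Module.finrank L (ι → L) = Fintype.card ι := Module.finrank_fintype_fun_eq_card L
  rw [← hfin, ← finrank_top L (ι → L), ← htop, hW]
  refine (finrank_range_le_card (R := L) v).trans ?_
  simp

end BezAux

/-- A finite set of zeros has at most `C` elements. -/
theorem bez (N e T : ℕ) (he : 1 ≤ e) : ∃ C : ℕ, ∀ (k : Type) [Field k] [IsAlgClosed k]
    (f : k →+* ℂ) (g : Fin T → MvPolynomial (Fin (N + 1)) k), (∀ t, (g t).IsHomogeneous e) →
    (∃ n : ℕ, ∀ S : Finset (Fin (N + 1) → k),
      (∀ z ∈ S, z ≠ 0 ∧ ∀ t, MvPolynomial.eval z (g t) = 0) →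
      (∀ z ∈ S, ∀ w ∈ S, z ≠ w → ¬ Par z w) → S.card ≤ n) →
    ∀ S : Finset (Fin (N + 1) → k), (∀ z ∈ S, z ≠ 0 ∧ ∀ t, MvPolynomial.eval z (g t) = 0) →
      (∀ z ∈ S, ∀ w ∈ S, z ≠ w → ¬ Par z w) → S.card ≤ C := by
  classical
  obtain ⟨E, hE⟩ := unif_null N e (T + 1) he
  refine ⟨E ^ (N + 1), ?_⟩
  intro k _ _ f g hg hfin S hS1 hS2
  have hk : Infinite k := IsAlgClosed.instInfinite
  -- a maximal set of zeros
  obtain ⟨S0, h01, h02, h03⟩ : ∃ S0 : Finset (Fin (N + 1) → k),
      (∀ z ∈ S0, z ≠ 0 ∧ ∀ t, MvPolynomial.eval z (g t) = 0) ∧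
      (∀ z ∈ S0, ∀ w ∈ S0, z ≠ w → ¬ Par z w) ∧
      ∀ S : Finset (Fin (N + 1) → k),
        (∀ z ∈ S, z ≠ 0 ∧ ∀ t, MvPolynomial.eval z (g t) = 0) →
        (∀ z ∈ S, ∀ w ∈ S, z ≠ w → ¬ Par z w) → S.card ≤ S0.card := by
    have hspec := Nat.find_spec hfin
    have hmin := fun {m : ℕ} (hm : m < Nat.find hfin) => Nat.find_min hfin hm
    rcases Nat.eq_zero_or_pos (Nat.find hfin) with h | h
    · refine ⟨∅, by simp, by simp, fun S h1 h2 => ?_⟩
      have := hspec S h1 h2
      rw [h] at this
      simpa using this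
    · have h1 := hmin (m := Nat.find hfin - 1) (by omega)
      push Not at h1
      obtain ⟨S0, h2, h3, h4⟩ := h1
      refine ⟨S0, h2, h3, fun S h5 h6 => ?_⟩
      have := hspec S h5 h6
      omega
  -- every zero is proportional to an element of `S0`
  have hprop : ∀ z : Fin (N + 1) → k, z ≠ 0 → (∀ t, MvPolynomial.eval z (g t) = 0) →
      ∃ s ∈ S0, ∃ c : k, c ≠ 0 ∧ z = c • s := by
    intro z hz hzg
    have hex : ∃ s ∈ S0, Par z s ∨ Par s z := by
      by_contra hcon
      push Not at hcon
      have hzS : z ∉ S0 := by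
        intro hzS
        exact (hcon z hzS).1 fun i j => mul_comm _ _
      have h1 := h03 (insert z S0) (by
        intro w hw
        rcases Finset.mem_insert.1 hw with rfl | hw
        · exact ⟨hz, hzg⟩
        · exact h01 w hw) (by
        intro w hw u hu hne
        rcases Finset.mem_insert.1 hw with rfl | hw'
        · rcases Finset.mem_insert.1 hu with rfl | hu'
          · exact absurd rfl hne
          · exact (hcon u hu').1
        · rcases Finset.mem_insert.1 hu with rfl | hu'
          · exact (hcon w hw').2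
          · exact h02 w hw' u hu' hne)
      rw [Finset.card_insert_of_notMem hzS] at h1
      omega
    obtain ⟨s, hs, hzs⟩ := hex
    have hpar : ∀ i j, z i * s j = z j * s i := by
      intro i j
      rcases hzs with h | h
      · exact h i j
      · have := h j i
        linear_combination this
    obtain ⟨j, hj⟩ : ∃ j, s j ≠ 0 := by
      by_contra hcon
      push Not at hcon
      exact (h01 s hs).1 (funext hcon)
    have h2 : z = (z j / s j) • s := by
      funext i
      rw [Pi.smul_apply, smul_eq_mul]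
      field_simp
      exact hpar i j
    refine ⟨s, hs, z j / s j, ?_, h2⟩
    intro h0
    rw [h0, zero_smul] at h2
    exact hz h2
  -- a linear form
  obtain ⟨c, hc⟩ : ∃ c : Fin (N + 1) → k, ∀ s ∈ S0, ∑ i, c i * s i ≠ 0 := by
    have h1 : (∏ s ∈ S0, ∑ i, MvPolynomial.C (s i) * MvPolynomial.X i :
        MvPolynomial (Fin (N + 1)) k) ≠ 0 := by
      rw [Finset.prod_ne_zero_iff]
      intro s hs h0
      obtain ⟨j, hj⟩ : ∃ j, s j ≠ 0 := by
        by_contra hcon
        push Not at hcon
        exact (h01 s hs).1 (funext hcon)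
      have h2 := congrArg (MvPolynomial.eval (Pi.single j 1)) h0
      rw [map_sum, Finset.sum_eq_single j] at h2
      · simp at h2
        exact hj h2
      · intro i _ hij
        simp [Pi.single_eq_of_ne hij]
      · intro h
        exact absurd (Finset.mem_univ j) h
    by_contra hcon
    push Not at hcon
    apply h1
    apply MvPolynomial.funext
    intro x
    obtain ⟨s, hs, h2⟩ := hcon x
    rw [map_prod, map_zero]
    refine Finset.prod_eq_zero hs ?_
    rw [map_sum, ← h2]
    refine Finset.sum_congr rfl fun i _ => ?_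
    simp [mul_comm]
  set ℓ : (Fin (N + 1) → k) → k := fun z => ∑ i, c i * z i with hℓ
  have hℓz : ∀ z : Fin (N + 1) → k, z ≠ 0 → (∀ t, MvPolynomial.eval z (g t) = 0) → ℓ z ≠ 0 := by
    intro z hz hzg
    obtain ⟨s, hs, a, ha, rfl⟩ := hprop z hz hzg
    have h1 : ℓ (a • s) = a * ℓ s := by
      simp only [hℓ, Pi.smul_apply, smul_eq_mul, Finset.mul_sum]
      exact Finset.sum_congr rfl fun i _ => by ring
    rw [h1]
    exact mul_ne_zero ha (hc s hs)
  -- the enlarged family
  set lP : MvPolynomial (Fin (N + 1)) k := ∑ i, MvPolynomial.C (c i) * MvPolynomial.X i with hlP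
  have hlPev : ∀ z, MvPolynomial.eval z lP = ℓ z := by
    intro z
    simp [hlP, hℓ]
  have hlPh : lP.IsHomogeneous 1 := by
    refine MvPolynomial.IsHomogeneous.sum _ _ _ fun i _ => ?_
    exact MvPolynomial.isHomogeneous_C_mul_X _ _
  let g' : Option (Fin T) → MvPolynomial (Fin (N + 1)) k := fun t => t.elim (lP ^ e) g
  have hg' : ∀ t, (g' t).IsHomogeneous e := by
    intro t
    cases t with
    | none =>
      have h1 := hlPh.pow e
      rw [one_mul] at h1
      exact h1
    | some t => exact hg t
  have hnz : ∀ z : Fin (N + 1) → k, (∀ t, MvPolynomial.eval z (g' t) = 0) → z = 0 := by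
    intro z hz
    by_contra hne
    have h1 := hℓz z hne fun t => hz (some t)
    have h2 := hz none
    change MvPolynomial.eval z (lP ^ e) = 0 at h2
    rw [map_pow, hlPev] at h2
    exact h1 (eq_zero_of_pow_eq_zero h2)
  -- over `ℂ`
  have hnzC : ∀ z : Fin (N + 1) → ℂ,
      (∀ t, MvPolynomial.eval z (MvPolynomial.map f (g' t)) = 0) → z = 0 :=
    fun z hz => noZero_ext f g' hnz z hz
  have hspan : ∀ α : Fin (N + 1) →₀ ℕ, α.degree = E →
      MvPolynomial.monomial α (1 : ℂ) ∈
        Ideal.span (Set.range fun t => MvPolynomial.map f (g' t)) := by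
    intro α hα
    let φ : Fin (T + 1) ≃ Option (Fin T) := finSuccEquiv T
    have h1 := hE (fun t => MvPolynomial.map f (g' (φ t))) (fun t => (hg' _).map f)
      (fun z hz => hnzC z fun t => by simpa using hz (φ.symm t)) α hα
    have h2 : Set.range (fun t => MvPolynomial.map f (g' (φ t))) =
        Set.range fun t => MvPolynomial.map f (g' t) := by
      ext x
      constructor
      · rintro ⟨t, rfl⟩
        exact ⟨φ t, rfl⟩
      · rintro ⟨t, rfl⟩
        exact ⟨φ.symm t, by simp⟩
    rwa [h2] at h1
  -- the points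
  have hev : ∀ (P : MvPolynomial (Fin (N + 1)) k) (n : ℕ), P.IsHomogeneous n →
      ∀ (a : k) (z : Fin (N + 1) → k), MvPolynomial.eval (a • z) P =
        a ^ n * MvPolynomial.eval z P := by
    intro P n hP a z
    rw [MvPolynomial.eval_eq', MvPolynomial.eval_eq', Finset.mul_sum]
    refine Finset.sum_congr rfl fun d hd => ?_
    have h1 : d.degree = n := by
      have h2 := hP (MvPolynomial.mem_support_iff.1 hd)
      rw [← h2, Finsupp.degree_eq_weight_one]
      rfl
    have h2 : ∏ i, (a • z) i ^ d i = a ^ n * ∏ i, z i ^ d i := by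
      simp only [Pi.smul_apply, smul_eq_mul, mul_pow, Finset.prod_mul_distrib]
      rw [Finset.prod_pow_eq_pow_sum, ← h1, Finsupp.degree_eq_sum]
    rw [h2]
    ring
  let y : S → Fin (N + 1) → ℂ := fun s i => f ((ℓ s.1)⁻¹ * s.1 i)
  have hy : Function.Injective y := by
    intro s t hst
    by_contra hne
    have hne' : s.1 ≠ t.1 := fun h => hne (Subtype.ext h)
    apply hS2 s.1 s.2 t.1 t.2 hne'
    have hs := hℓz s.1 (hS1 s.1 s.2).1 (hS1 s.1 s.2).2
    have ht := hℓz t.1 (hS1 t.1 t.2).1 (hS1 t.1 t.2).2
    have h1 : ∀ i, (ℓ s.1)⁻¹ * s.1 i = (ℓ t.1)⁻¹ * t.1 i := fun i =>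
      f.injective (congrFun hst i)
    intro i j
    have h2 := h1 i
    have h3 := h1 j
    field_simp at h2 h3
    have h4 : ℓ s.1 * (s.1 i * t.1 j) = ℓ s.1 * (s.1 j * t.1 i) := by
      linear_combination (-s.1 i) * h3 + (s.1 j) * h2
    exact mul_left_cancel₀ hs h4
  have hyev : ∀ (s : S) (P : MvPolynomial (Fin (N + 1)) k),
      MvPolynomial.eval (y s) (MvPolynomial.map f P) =
        f (MvPolynomial.eval ((ℓ s.1)⁻¹ • s.1) P) := by
    intro s P
    rw [MvPolynomial.eval_map]
    have h1 : y s = fun i => f (((ℓ s.1)⁻¹ • s.1) i) := rfl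
    rw [h1]
    exact (MvPolynomial.eval₂_comp_left f (RingHom.id k) _ P).symm
  have h1 := BezAux.card_le_affine (L := ℂ) he (fun t => MvPolynomial.map f (g' t))
    (fun t => (hg' t).map f) hspan y hy (by
      intro s t
      rw [hyev]
      change f (MvPolynomial.eval _ (g t)) = 0
      rw [hev _ _ (hg t), (hS1 s.1 s.2).2 t, mul_zero, map_zero]) (by
      intro s
      rw [hyev]
      change f (MvPolynomial.eval _ (lP ^ e)) = 1
      have hs := hℓz s.1 (hS1 s.1 s.2).1 (hS1 s.1 s.2).2
      rw [map_pow, hev _ _ hlPh, hlPev, pow_one, inv_mul_cancel₀ hs, one_pow, map_one])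
  simpa using h1

end Pool.Agent.PND
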