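import Mathlib
import Pool.Agent.PND.UltraF

set_option autoImplicit false

/-!
# A uniform bound for the length of a chain of zero sets
-/

namespace Pool.Agent.PND

open Filter

/-- A uniform bound for the length of a strictly decreasing chain of zero sets. -/
theorem unif_chain (N : ℕ) (δ T : ℕ → ℕ) : ∃ L : ℕ,
    ∀ g : (i : ℕ) → Fin (T i) → MvPolynomial (Fin (N + 1)) ℂ,
      (∀ i t, (g i t).totalDegree ≤ δ i) →
      (∀ i (z : Fin (N + 1) → ℂ), (∀ t, MvPolynomial.eval z (g (i + 1) t) = 0) →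
        ∀ t, MvPolynomial.eval z (g i t) = 0) →
      ∃ i < L, ∀ z : Fin (N + 1) → ℂ, (∀ t, MvPolynomial.eval z (g i t) = 0) →
        ∀ t, MvPolynomial.eval z (g (i + 1) t) = 0 := by
  by_contra hcon
  push Not at hcon
  choose g hdeg hdesc hex using hcon
  have hex' : ∀ n i : ℕ, ∃ z : Fin (N + 1) → ℂ, i < n →
      (∀ t, MvPolynomial.eval z (g n i t) = 0) ∧
        ∃ t, MvPolynomial.eval z (g n (i + 1) t) ≠ 0 := by
    intro n i
    by_cases h : i < n
    · obtain ⟨z, hz⟩ := hex n i h
      exact ⟨z, fun _ => hz⟩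
    · exact ⟨0, fun h' => absurd h' h⟩
  choose z hz using hex'
  have hlift : ∀ i t, ∃ P : MvPolynomial (Fin (N + 1)) (ℕ → ℂ), ∀ n, at' n P = g n i t := by
    intro i t
    obtain ⟨P, hP, _⟩ := lift_seq (δ i) (fun n => g n i t) (fun n => hdeg n i t)
    exact ⟨P, hP⟩
  choose P hP using hlift
  have hev : ∀ i j t, MvPolynomial.eval (fun s => up (fun n => z n i s))
      (MvPolynomial.map up (P j t)) = up (fun n => MvPolynomial.eval (z n i) (g n j t)) := by
    intro i j t
    rw [eval_up]
    congr 1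
    funext n
    rw [hP]
  have hlarge : ∀ i : ℕ, ∀ᶠ n in (hyperfilter ℕ : Filter ℕ), i < n := by
    intro i
    have h1 : ∀ᶠ n in (cofinite : Filter ℕ), i < n := by
      rw [Nat.cofinite_eq_atTop]
      exact eventually_gt_atTop i
    exact h1.filter_mono hyperfilter_le_cofinite
  -- the zero sets are decreasing
  have hdown : ∀ n j i : ℕ, j ≤ i → ∀ w : Fin (N + 1) → ℂ,
      (∀ t, MvPolynomial.eval w (g n i t) = 0) → ∀ t, MvPolynomial.eval w (g n j t) = 0 := by
    intro n j i hji
    induction i, hji using Nat.le_induction with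
    | base => exact fun w h => h
    | succ i _ ih => exact fun w h => ih w (hdesc n i w h)
  have hzero : ∀ i j : ℕ, j ≤ i → ∀ t, MvPolynomial.eval (fun s => up (fun n => z n i s))
      (MvPolynomial.map up (P j t)) = 0 := by
    intro i j hji t
    rw [hev, up_eq_zero]
    filter_upwards [hlarge i] with n hn
    exact hdown n j i hji _ (hz n i hn).1 t
  have hne : ∀ i : ℕ, ∃ t, MvPolynomial.eval (fun s => up (fun n => z n i s))
      (MvPolynomial.map up (P (i + 1) t)) ≠ 0 := by
    intro i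
    by_contra h0
    push Not at h0
    have h1 : ∀ t, ∀ᶠ n in (hyperfilter ℕ : Filter ℕ),
        MvPolynomial.eval (z n i) (g n (i + 1) t) = 0 := by
      intro t
      rw [← up_eq_zero, ← hev]
      exact h0 t
    obtain ⟨n, hn1, hn2⟩ := ((eventually_all.mpr h1).and (hlarge i)).exists
    obtain ⟨t, ht⟩ := (hz n i hn2).2
    exact ht (hn1 t)
  -- the ideals
  let I : ℕ →o Ideal (MvPolynomial (Fin (N + 1)) UC) :=
    { toFun := fun i => Ideal.span {p | ∃ j, j ≤ i ∧ ∃ t, p = MvPolynomial.map up (P j t)}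
      monotone' := by
        intro i i' hii
        refine Ideal.span_mono ?_
        rintro p ⟨j, hj, t, rfl⟩
        exact ⟨j, hj.trans hii, t, rfl⟩ }
  obtain ⟨i, hi⟩ := monotone_stabilizes_iff_noetherian.mpr
    (inferInstance : IsNoetherianRing (MvPolynomial (Fin (N + 1)) UC)) I
  obtain ⟨t, ht⟩ := hne i
  apply ht
  have h1 : MvPolynomial.map up (P (i + 1) t) ∈ I (i + 1) :=
    Ideal.subset_span ⟨i + 1, le_rfl, t, rfl⟩
  rw [← hi (i + 1) (Nat.le_succ i)] at h1
  have h2 : I i ≤ RingHom.ker (MvPolynomial.eval (fun s => up (fun n => z n i s))) := by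
    refine Ideal.span_le.mpr ?_
    rintro p ⟨j, hj, t', rfl⟩
    exact hzero i j hj t'
  exact h2 h1

end Pool.Agent.PND
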