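import Pool.Agent.PND.Basic
import Pool.Agent.PND.UnifChain
import Pool.Agent.PND.Bez

set_option autoImplicit false

/-!
# A set stable under `Φ` on a hypersurface: few elements, or an infinite invariant algebraic set
-/

namespace Pool.Agent.PND

open NumberField IsDedekindDomain Pool.Agent.GPoly

namespace Dich

/-- a space of forms of degree `e` is spanned by `(e + 1) ^ (N + 1)` of its members -/
theorem exists_span {K : Type} [Field K] {N : ℕ} (e : ℕ)
    (I : Submodule K (MvPolynomial (Fin (N + 1)) K)) (hI : ∀ P ∈ I, P.IsHomogeneous e) :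
    ∃ g : Fin ((e + 1) ^ (N + 1)) → MvPolynomial (Fin (N + 1)) K,
      (∀ t, g t ∈ I) ∧ I ≤ Submodule.span K (Set.range g) := by
  classical
  let ψ : I →ₗ[K] ((Fin (N + 1) → Fin (e + 1)) → K) :=
    { toFun := fun P a => MvPolynomial.coeff (Finsupp.equivFunOnFinite.symm fun j => (a j : ℕ)) P.1
      map_add' := fun P Q => by
        funext a
        simp
      map_smul' := fun c P => by
        funext a
        simp }
  have hψ : Function.Injective ψ := by
    rw [← LinearMap.ker_eq_bot, LinearMap.ker_eq_bot']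
    rintro ⟨P, hP⟩ h
    have hz : P = 0 := by
      ext α
      rw [MvPolynomial.coeff_zero]
      by_contra hα
      have h1 : α.degree = e := by
        have h2 := hI P hP hα
        rw [← h2, Finsupp.degree_eq_weight_one]
        rfl
      have h3 : ∀ j, α j < e + 1 := by
        intro j
        have h4 : α j ≤ α.degree := Finsupp.le_degree j α
        omega
      have h5 := congrFun h (fun j => ⟨α j, h3 j⟩)
      apply hα
      have h6 : (Finsupp.equivFunOnFinite.symm fun j =>
          (((fun j => ⟨α j, h3 j⟩ : Fin (N + 1) → Fin (e + 1)) j : ℕ))) = α := by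
        ext j
        rfl
      have h7 : MvPolynomial.coeff (Finsupp.equivFunOnFinite.symm fun j =>
          (((fun j => ⟨α j, h3 j⟩ : Fin (N + 1) → Fin (e + 1)) j : ℕ))) P = 0 := h5
      rw [h6] at h7
      exact h7
    exact Subtype.ext hz
  have : Module.Finite K I := Module.Finite.of_injective ψ hψ
  have hfr : Module.finrank K I ≤ (e + 1) ^ (N + 1) := by
    have h := LinearMap.finrank_le_finrank_of_injective hψ
    rw [Module.finrank_fintype_fun_eq_card, Fintype.card_fun, Fintype.card_fin,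
      Fintype.card_fin] at h
    exact h
  let b := Module.finBasis K I
  refine ⟨fun t => if h : (t : ℕ) < Module.finrank K I then (b ⟨t, h⟩).1 else 0, ?_, ?_⟩
  · intro t
    dsimp only
    split_ifs with h
    · exact (b ⟨t, h⟩).2
    · exact I.zero_mem
  · intro P hP
    have h1 := b.sum_repr ⟨P, hP⟩
    have h2 : P = ∑ i, (b.repr ⟨P, hP⟩) i • (b i).1 := by
      have h3 := congrArg (fun y : I => (y : MvPolynomial (Fin (N + 1)) K)) h1
      simp only [Submodule.coe_sum, Submodule.coe_smul] at h3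
      exact h3.symm
    rw [h2]
    refine Submodule.sum_mem _ fun i _ => Submodule.smul_mem _ _ (Submodule.subset_span ?_)
    refine ⟨⟨i, i.2.trans_le hfr⟩, ?_⟩
    dsimp only
    rw [dif_pos i.2]

/-- forms of degree `e` vanishing on `S` -/
def van {K : Type} [Field K] {N : ℕ} (S : Set (Fin (N + 1) → K)) (e : ℕ) :
    Submodule K (MvPolynomial (Fin (N + 1)) K) where
  carrier := {P | P.IsHomogeneous e ∧ ∀ x ∈ S, MvPolynomial.eval x P = 0}
  add_mem' := fun {a b} ha hb => ⟨ha.1.add hb.1, fun x hx => by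
    rw [map_add, ha.2 x hx, hb.2 x hx, add_zero]⟩
  zero_mem' := ⟨MvPolynomial.isHomogeneous_zero _ _ _, fun x _ => map_zero _⟩
  smul_mem' := fun c {a} ha => ⟨(MvPolynomial.homogeneousSubmodule _ _ e).smul_mem c ha.1,
    fun x hx => by rw [MvPolynomial.smul_eval, ha.2 x hx, mul_zero]⟩

theorem mem_van {K : Type} [Field K] {N : ℕ} {S : Set (Fin (N + 1) → K)} {e : ℕ}
    {P : MvPolynomial (Fin (N + 1)) K} :
    P ∈ van S e ↔ P.IsHomogeneous e ∧ ∀ x ∈ S, MvPolynomial.eval x P = 0 := Iff.rfl

/-- a zero of generators is a zero of everything in their span, over any extension -/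
theorem zero_of_span {K k : Type} [Field K] [Field k] {N T : ℕ} (f : K →+* k)
    (g : Fin T → MvPolynomial (Fin (N + 1)) K) (z : Fin (N + 1) → k)
    (hz : ∀ t, MvPolynomial.eval z (MvPolynomial.map f (g t)) = 0)
    (P : MvPolynomial (Fin (N + 1)) K) (hP : P ∈ Submodule.span K (Set.range g)) :
    MvPolynomial.eval z (MvPolynomial.map f P) = 0 := by
  induction hP using Submodule.span_induction with
  | mem x hx =>
    obtain ⟨t, rfl⟩ := hx
    exact hz t
  | zero => simp
  | add x y _ _ hx hy => rw [map_add, map_add, hx, hy, add_zero]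
  | smul a x _ hx => rw [MvPolynomial.smul_eq_C_mul, map_mul, map_mul, hx, mul_zero]

/-- `P ∘ Φ` -/
noncomputable def comp {K : Type} [Field K] {N : ℕ} (F : Fin (N + 1) → MvPolynomial (Fin (N + 1)) K)
    (P : MvPolynomial (Fin (N + 1)) K) : MvPolynomial (Fin (N + 1)) K := MvPolynomial.bind₁ F P

theorem eval_comp {K k : Type} [Field K] [Field k] {N : ℕ} (f : K →+* k)
    (F : Fin (N + 1) → MvPolynomial (Fin (N + 1)) K)
    (P : MvPolynomial (Fin (N + 1)) K) (z : Fin (N + 1) → k) :
    MvPolynomial.eval z (MvPolynomial.map f (comp F P)) =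
      MvPolynomial.eval (phi (mp f F) z) (MvPolynomial.map f P) := by
  rw [comp, MvPolynomial.map_bind₁]
  have h := MvPolynomial.eval₂Hom_bind₁ (RingHom.id k) z (fun i => MvPolynomial.map f (F i))
    (MvPolynomial.map f P)
  rw [MvPolynomial.coe_eval₂Hom, MvPolynomial.coe_eval₂Hom, MvPolynomial.eval₂_id,
    MvPolynomial.eval₂_id] at h
  rw [h]
  congr 2

theorem aeval_eq {K : Type} [Field K] {N : ℕ} (z : Fin (N + 1) → AlgebraicClosure K)
    (P : MvPolynomial (Fin (N + 1)) K) : MvPolynomial.aeval z P =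
      MvPolynomial.eval z (MvPolynomial.map (algebraMap K (AlgebraicClosure K)) P) := by
  rw [MvPolynomial.aeval_def, MvPolynomial.eval_map]

theorem eval_map_map {K k k' : Type} [Field K] [Field k] [Field k'] {N : ℕ} (f : K →+* k)
    (f' : k →+* k') (z : Fin (N + 1) → k) (P : MvPolynomial (Fin (N + 1)) K) :
    MvPolynomial.eval (fun j => f' (z j)) (MvPolynomial.map (f'.comp f) P) =
      f' (MvPolynomial.eval z (MvPolynomial.map f P)) := by
  rw [MvPolynomial.eval_map, MvPolynomial.eval_map, MvPolynomial.hom_eval₂]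

end Dich

open Dich

/-- A set stable under `Φ` on a hypersurface of degree `n₀` has at most `C` elements or lies in an
infinite proper algebraic set `Z` with `Φ(Z) ⊆ Z`, cut out by forms of degree at most `C`. -/
theorem dich (N d n₀ : ℕ) (hd : 1 ≤ d) (hn₀ : 1 ≤ n₀) : ∃ C : ℕ,
    ∀ (K : Type) [Field K] [NumberField K] (F : Fin (N + 1) → MvPolynomial (Fin (N + 1)) K),
    (∀ i, (F i).IsHomogeneous d) → ∀ S : Set (Fin (N + 1) → K), (∀ x ∈ S, x ≠ 0) →
    (∀ x ∈ S, phi F x ∈ S) →
    (∃ Q : MvPolynomial (Fin (N + 1)) K, Q ≠ 0 ∧ Q.IsHomogeneous n₀ ∧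
      ∀ x ∈ S, MvPolynomial.eval x Q = 0) →
    (∀ T : Finset (Fin (N + 1) → K), (∀ x ∈ T, x ∈ S) →
      (∀ x ∈ T, ∀ y ∈ T, x ≠ y → ¬ Par x y) → T.card ≤ C) ∨
    ∃ (e : ℕ) (W : Set (MvPolynomial (Fin (N + 1)) K)), e ≤ C ∧ (∀ P ∈ W, P.IsHomogeneous e) ∧
      (∃ P ∈ W, P ≠ 0) ∧ (∀ P ∈ W, ∀ x ∈ S, MvPolynomial.eval x P = 0) ∧
      (∀ z : Fin (N + 1) → AlgebraicClosure K, (∀ P ∈ W, MvPolynomial.aeval z P = 0) →
        ∀ P ∈ W, MvPolynomial.aeval
          (phi (mp (algebraMap K (AlgebraicClosure K)) F) z) P = 0) ∧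
      ∀ n : ℕ, ∃ T : Finset (Fin (N + 1) → AlgebraicClosure K), T.card = n ∧
        (∀ z ∈ T, z ≠ 0 ∧ ∀ P ∈ W, MvPolynomial.aeval z P = 0) ∧
        ∀ z ∈ T, ∀ w ∈ T, z ≠ w → ¬ Par z w := by
  classical
  obtain ⟨L, hL⟩ := unif_chain N (fun i => n₀ * d ^ i) (fun i => (n₀ * d ^ i + 1) ^ (N + 1))
  have hpos : ∀ i, 1 ≤ n₀ * d ^ i := fun i => Nat.mul_pos hn₀ (pow_pos hd i)
  choose C hC using fun i => bez N (n₀ * d ^ i) ((n₀ * d ^ i + 1) ^ (N + 1)) (hpos i)
  refine ⟨∑ i ∈ Finset.range L, (C i + n₀ * d ^ i), ?_⟩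
  intro K _ _ F hF S hS0 hSF ⟨Q, hQ0, hQh, hQS⟩
  -- the spaces of forms and their generators
  choose g hg1 hg2 using fun i => exists_span (n₀ * d ^ i) (van S (n₀ * d ^ i)) fun P hP => hP.1
  -- an embedding of the algebraic closure
  let τ : AlgebraicClosure K →+* ℂ :=
    letI : Algebra K ℂ := (Classical.arbitrary (K →+* ℂ)).toAlgebra
    (IsAlgClosed.lift (M := ℂ) (R := K) (S := AlgebraicClosure K)).toRingHom
  let σ : K →+* ℂ := τ.comp (algebraMap K (AlgebraicClosure K))
  have hcomp : ∀ (z : Fin (N + 1) → AlgebraicClosure K) (P : MvPolynomial (Fin (N + 1)) K),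
      MvPolynomial.eval (fun j => τ (z j)) (MvPolynomial.map σ P) = 0 ↔
        MvPolynomial.aeval z P = 0 := by
    intro z P
    rw [aeval_eq, eval_map_map (algebraMap K (AlgebraicClosure K)) τ z P]
    exact map_eq_zero τ
  obtain ⟨i, hi, hi2⟩ := hL (fun i t => MvPolynomial.map σ (g i t)) (by
      intro i t
      exact ((hg1 i t).1.map σ).totalDegree_le) (by
      intro i z hz t
      have h1 : (g i t) ^ d ∈ van S (n₀ * d ^ (i + 1)) := by
        refine ⟨?_, fun x hx => ?_⟩
        · rw [pow_succ, ← mul_assoc]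
          exact (hg1 i t).1.pow d
        · rw [map_pow, (hg1 i t).2 x hx, zero_pow (by omega)]
      have h2 := zero_of_span σ (g (i + 1)) z hz _ (hg2 (i + 1) h1)
      rw [map_pow, map_pow] at h2
      exact pow_eq_zero_iff (by omega) |>.mp h2)
  have hsum : ∀ a, a ≤ C i + n₀ * d ^ i →
      a ≤ ∑ i ∈ Finset.range L, (C i + n₀ * d ^ i) := fun a ha =>
    ha.trans (Finset.single_le_sum (f := fun i => C i + n₀ * d ^ i) (fun _ _ => Nat.zero_le _)
      (Finset.mem_range.mpr hi))
  have hgz : ∀ z : Fin (N + 1) → AlgebraicClosure K,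
      (∀ t, MvPolynomial.eval z (MvPolynomial.map (algebraMap K (AlgebraicClosure K)) (g i t)) = 0) ↔
        ∀ P ∈ van S (n₀ * d ^ i), MvPolynomial.aeval z P = 0 := by
    intro z
    constructor
    · intro h P hP
      rw [aeval_eq]
      exact zero_of_span _ (g i) z h P (hg2 i hP)
    · intro h t
      rw [← aeval_eq]
      exact h _ (hg1 i t)
  by_cases hfin : ∃ n : ℕ, ∀ S' : Finset (Fin (N + 1) → AlgebraicClosure K),
      (∀ z ∈ S', z ≠ 0 ∧ ∀ t, MvPolynomial.eval z
        (MvPolynomial.map (algebraMap K (AlgebraicClosure K)) (g i t)) = 0) →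
      (∀ z ∈ S', ∀ w ∈ S', z ≠ w → ¬ Par z w) → S'.card ≤ n
  · left
    intro T hT hT2
    have hinj : Function.Injective
        (fun (x : Fin (N + 1) → K) (j : Fin (N + 1)) => algebraMap K (AlgebraicClosure K) (x j)) := by
      intro x y h
      funext j
      exact (algebraMap K (AlgebraicClosure K)).injective (congrFun h j)
    have h1 := hC i (AlgebraicClosure K) τ
      (fun t => MvPolynomial.map (algebraMap K (AlgebraicClosure K)) (g i t))
      (fun t => (hg1 i t).1.map _) hfin
      (T.image fun (x : Fin (N + 1) → K) (j : Fin (N + 1)) =>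
        algebraMap K (AlgebraicClosure K) (x j)) (by
        intro z hz
        obtain ⟨x, hx, rfl⟩ := Finset.mem_image.mp hz
        refine ⟨?_, fun t => ?_⟩
        · intro h
          apply hS0 x (hT x hx)
          funext j
          have h2 := congrFun h j
          exact (map_eq_zero (algebraMap K (AlgebraicClosure K))).mp h2
        · have h2 := eval_map_map (RingHom.id K) (algebraMap K (AlgebraicClosure K)) x (g i t)
          rw [RingHom.comp_id] at h2
          rw [h2, MvPolynomial.map_id, (hg1 i t).2 x (hT x hx), map_zero]) (by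
        intro z hz w hw hzw hp
        obtain ⟨x, hx, rfl⟩ := Finset.mem_image.mp hz
        obtain ⟨y, hy, rfl⟩ := Finset.mem_image.mp hw
        refine hT2 x hx y hy (fun h => hzw (by rw [h])) fun a b => ?_
        have h2 := hp a b
        simp only [← map_mul] at h2
        exact (algebraMap K (AlgebraicClosure K)).injective h2)
    rw [Finset.card_image_of_injective _ hinj] at h1
    exact hsum _ (by omega)
  · right
    refine ⟨n₀ * d ^ i, van S (n₀ * d ^ i), hsum _ (by omega), fun P hP => hP.1, ?_,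
      fun P hP => hP.2, ?_, ?_⟩
    · refine ⟨Q ^ d ^ i, ⟨hQh.pow _, fun x hx => ?_⟩, pow_ne_zero _ hQ0⟩
      rw [map_pow, hQS x hx, zero_pow (pow_pos hd i).ne']
    · intro z hz P hP
      have h1 : comp F P ∈ van S (n₀ * d ^ (i + 1)) := by
        refine ⟨?_, fun x hx => ?_⟩
        · rw [pow_succ, ← mul_assoc]
          exact bind₁_homog hP.1 F hF
        · have h2 := eval_comp (RingHom.id K) F P x
          rw [MvPolynomial.map_id, MvPolynomial.map_id] at h2
          rw [h2]
          have h3 : phi (mp (RingHom.id K) F) x = phi F x := by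
            funext j
            simp only [phi, mp, MvPolynomial.map_id]
          rw [h3]
          exact hP.2 _ (hSF x hx)
      have h2 := hi2 (fun j => τ (z j)) (fun t => (hcomp z (g i t)).mpr (hz _ (hg1 i t)))
      have h3 := zero_of_span σ (g (i + 1)) _ h2 _ (hg2 (i + 1) h1)
      have h4 := (hcomp z (comp F P)).mp h3
      rw [aeval_eq, eval_comp, ← aeval_eq] at h4
      exact h4
    · intro n
      push Not at hfin
      obtain ⟨S', h1, h2, h3⟩ := hfin n
      obtain ⟨T, hTS, hTn⟩ := Finset.exists_subset_card_eq h3.le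
      refine ⟨T, hTn, fun z hz => ⟨(h1 z (hTS hz)).1, (hgz z).mp (h1 z (hTS hz)).2⟩, ?_⟩
      intro z hz w hw hzw
      exact h2 z (hTS hz) w (hTS hw) hzw

end Pool.Agent.PND
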