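import Pool.Agent.PND.MainI
import Pool.Agent.PND.Dich

set_option autoImplicit false

/-!
# Theorem P_N
-/

namespace Pool.Agent.PND

open NumberField IsDedekindDomain Pool.Agent.GPoly

theorem par_smul {R : Type*} [CommRing R] {N : ℕ} (c : R) (x : Fin (N + 1) → R) :
    Par (c • x) x := by
  intro i j
  simp only [Pi.smul_apply, smul_eq_mul]
  ring

/-- The image of a preperiodic point is preperiodic. -/
theorem preper_phi {K : Type} [Field K] {N d : ℕ}
    {F : Fin (N + 1) → MvPolynomial (Fin (N + 1)) K} (hF : ∀ i, (F i).IsHomogeneous d)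
    (hnz : ∀ z, phi F z = 0 → z = 0) {x : Fin (N + 1) → K} (hx : Preper F x) :
    Preper F (phi F x) := by
  obtain ⟨hx0, a, b, hab, hpar⟩ := hx
  refine ⟨phi_ne_zero hnz hx0, a, b, hab, ?_⟩
  rw [← Function.iterate_succ_apply, ← Function.iterate_succ_apply,
    Function.iterate_succ_apply', Function.iterate_succ_apply']
  obtain ⟨c, -, hc⟩ := HtPre.exists_smul (iter_ne_zero hnz hx0 a) (iter_ne_zero hnz hx0 b) hpar
  rw [hc, phi_smul hF]
  intro i j
  simp only [Pi.smul_apply, smul_eq_mul]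
  ring

/-- **Theorem P_N.** -/
theorem main (D N d k : ℕ) (hN : 1 ≤ N) (hd : 2 ≤ d) : ∃ C : ℕ,
    ∀ (K : Type) [Field K] [NumberField K], Module.finrank ℚ K ≤ D →
    ∀ F : Fin (N + 1) → MvPolynomial (Fin (N + 1)) (𝓞 K), (∀ i, (F i).IsHomogeneous d) →
    (∀ z : Fin (N + 1) → AlgebraicClosure K,
      phi (mp (algebraMap (𝓞 K) (AlgebraicClosure K)) F) z = 0 → z = 0) →
    ∀ J : Ideal (𝓞 K), Squarefree J → J ≠ ⊤ →
    (∀ v : HeightOneSpectrum (𝓞 K), v.asIdeal ∣ J → Defective d k F v) →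
    Height.mulHeight (cof d (mp (algebraMap (𝓞 K) K) F)) ≤ (Ideal.absNorm J : ℝ) ^ k →
    (∀ T : Finset (Fin (N + 1) → K), (∀ x ∈ T, Preper (mp (algebraMap (𝓞 K) K) F) x) →
      (∀ x ∈ T, ∀ y ∈ T, x ≠ y → ¬ Par x y) → T.card ≤ C) ∨
    ∃ (e : ℕ) (W : Set (MvPolynomial (Fin (N + 1)) K)), e ≤ C ∧ (∀ P ∈ W, P.IsHomogeneous e) ∧
      (∃ P ∈ W, P ≠ 0) ∧
      (∀ P ∈ W, ∀ x, Preper (mp (algebraMap (𝓞 K) K) F) x → MvPolynomial.eval x P = 0) ∧
      (∀ z : Fin (N + 1) → AlgebraicClosure K, (∀ P ∈ W, MvPolynomial.aeval z P = 0) →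
        ∀ P ∈ W, MvPolynomial.aeval
          (phi (mp (algebraMap (𝓞 K) (AlgebraicClosure K)) F) z) P = 0) ∧
      ∀ n : ℕ, ∃ T : Finset (Fin (N + 1) → AlgebraicClosure K), T.card = n ∧
        (∀ z ∈ T, z ≠ 0 ∧ ∀ P ∈ W, MvPolynomial.aeval z P = 0) ∧
        ∀ z ∈ T, ∀ w ∈ T, z ≠ w → ¬ Par z w := by
  obtain ⟨n₀, hn₀, hI⟩ := main_I D N d k hN hd
  obtain ⟨C, hC⟩ := dich N d n₀ (by omega) hn₀
  refine ⟨C, ?_⟩
  intro K _ _ hDK F hF hbar J hJ hJtop hdef hH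
  set FK := mp (algebraMap (𝓞 K) K) F with hFK
  have hFKd : ∀ i, (FK i).IsHomogeneous d := mp_homog _ hF
  have hmpbar : mp (algebraMap K (AlgebraicClosure K)) FK =
      mp (algebraMap (𝓞 K) (AlgebraicClosure K)) F := by
    funext i
    simp only [hFK, mp, MvPolynomial.map_map]
    rw [← IsScalarTower.algebraMap_eq]
  have hnz : ∀ z, phi FK z = 0 → z = 0 := by
    intro z hz
    have h1 := phi_map (algebraMap K (AlgebraicClosure K)) FK z
    have h2 : (fun i => algebraMap K (AlgebraicClosure K) (z i)) = 0 := by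
      apply hbar
      rw [← hmpbar, ← h1, hz]
      funext i
      simp
    funext i
    have h3 := congrFun h2 i
    simpa using h3
  obtain ⟨Q, hQ0, hQh, hQ⟩ := hI K hDK F hF hbar J hJ hJtop hdef hH
  have h := hC K FK hFKd {x | Preper FK x} (fun x hx => hx.1)
    (fun x hx => preper_phi hFKd hnz hx) ⟨Q, hQ0, hQh, fun x hx => hQ x hx⟩
  rw [hmpbar] at h
  exact h

end Pool.Agent.PND
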