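import Pool.Agent.PND.Defs

set_option autoImplicit false

/-!
# Basic properties of `phi`, `PP`, `nv`
-/

namespace Pool.Agent.PND

open NumberField IsDedekindDomain Pool.Agent.GPoly

section
variable {R S : Type*} [CommRing R] [CommRing S] {N : ℕ}

theorem phi_map (f : R →+* S) (F : Fin (N + 1) → MvPolynomial (Fin (N + 1)) R)
    (x : Fin (N + 1) → R) : (fun i => f (phi F x i)) = phi (mp f F) (fun i => f (x i)) := by
  funext i
  simp only [phi, mp, MvPolynomial.eval_map]
  rw [← MvPolynomial.eval₂_id, MvPolynomial.eval₂_comp_left]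
  simp only [RingHom.comp_id]
  rfl

theorem iter_map (f : R →+* S) (F : Fin (N + 1) → MvPolynomial (Fin (N + 1)) R)
    (x : Fin (N + 1) → R) (k : ℕ) :
    (fun i => f ((phi F)^[k] x i)) = (phi (mp f F))^[k] (fun i => f (x i)) := by
  induction k generalizing x with
  | zero => rfl
  | succ k ih => rw [Function.iterate_succ_apply, Function.iterate_succ_apply, ih, phi_map]

theorem eval_smul_homog {n : ℕ} {P : MvPolynomial (Fin (N + 1)) R} (hP : P.IsHomogeneous n)
    (c : R) (x : Fin (N + 1) → R) :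
    MvPolynomial.eval (c • x) P = c ^ n * MvPolynomial.eval x P := by
  rw [MvPolynomial.eval_eq, MvPolynomial.eval_eq, Finset.mul_sum]
  refine Finset.sum_congr rfl fun α hα => ?_
  have h1 : ∑ i, α i = n := by
    have h2 := hP (MvPolynomial.mem_support_iff.mp hα)
    rw [← h2, Finsupp.weight_apply, Finsupp.sum_fintype _ _ (by simp)]
    simp
  simp only [Pi.smul_apply, smul_eq_mul, mul_pow, Finset.prod_mul_distrib]
  rw [Finset.prod_pow_eq_pow_sum]
  have h3 : ∑ i ∈ α.support, α i = n := by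
    rw [← h1]
    exact Finset.sum_subset (Finset.subset_univ _) fun i _ hi => by simpa using hi
  rw [h3]
  ring

theorem phi_smul {d : ℕ} {F : Fin (N + 1) → MvPolynomial (Fin (N + 1)) R}
    (hF : ∀ i, (F i).IsHomogeneous d) (c : R) (x : Fin (N + 1) → R) :
    phi F (c • x) = c ^ d • phi F x := by
  funext i
  simp only [phi, Pi.smul_apply, smul_eq_mul]
  exact eval_smul_homog (hF i) c x

theorem iter_smul {d : ℕ} {F : Fin (N + 1) → MvPolynomial (Fin (N + 1)) R}
    (hF : ∀ i, (F i).IsHomogeneous d) (c : R) (x : Fin (N + 1) → R) (k : ℕ) :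
    (phi F)^[k] (c • x) = c ^ d ^ k • (phi F)^[k] x := by
  induction k generalizing x c with
  | zero => simp
  | succ k ih =>
    rw [Function.iterate_succ_apply, Function.iterate_succ_apply, phi_smul hF, ih, ← pow_mul]
    congr 2
    ring

theorem eval_itP (F : Fin (N + 1) → MvPolynomial (Fin (N + 1)) R) (x : Fin (N + 1) → R) (k : ℕ)
    (i : Fin (N + 1)) : MvPolynomial.eval x (itP F k i) = (phi F)^[k] x i := by
  induction k generalizing i with
  | zero => simp [itP]
  | succ k ih =>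
    rw [itP, Function.iterate_succ_apply', phi, ← MvPolynomial.coe_aeval_eq_eval,
      MvPolynomial.coe_aeval_eq_eval]
    have h := MvPolynomial.eval₂Hom_bind₁ (RingHom.id R) x (itP F k) (F i)
    rw [MvPolynomial.coe_eval₂Hom, MvPolynomial.coe_eval₂Hom, MvPolynomial.eval₂_id,
      MvPolynomial.eval₂_id] at h
    rw [h]
    congr 2
    funext j
    rw [MvPolynomial.eval₂_id]
    exact ih j

theorem eval_PP {l : ℕ} (F : Fin (N + 1) → MvPolynomial (Fin (N + 1)) R)
    (a : Fin l → Fin (N + 1) → ℕ) (x : Fin (N + 1) → R) :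
    MvPolynomial.eval x (PP F a) = ∏ k : Fin l, ∏ i, ((phi F)^[(k : ℕ)] x i) ^ a k i := by
  rw [PP, map_prod]
  refine Finset.prod_congr rfl fun k _ => ?_
  rw [map_prod]
  refine Finset.prod_congr rfl fun i _ => ?_
  rw [map_pow, eval_itP]

/-- Substituting forms of degree `e` in a form of degree `d`. -/
theorem bind₁_homog {d e : ℕ} {P : MvPolynomial (Fin (N + 1)) R} (hP : P.IsHomogeneous d)
    (G : Fin (N + 1) → MvPolynomial (Fin (N + 1)) R) (hG : ∀ i, (G i).IsHomogeneous e) :
    (MvPolynomial.bind₁ G P).IsHomogeneous (d * e) := by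
  have h := MvPolynomial.IsHomogeneous.aeval hP G hG
  rwa [mul_comm] at h

theorem itP_homog {d : ℕ} {F : Fin (N + 1) → MvPolynomial (Fin (N + 1)) R}
    (hF : ∀ i, (F i).IsHomogeneous d) (k : ℕ) (i : Fin (N + 1)) :
    (itP F k i).IsHomogeneous (d ^ k) := by
  induction k generalizing i with
  | zero => simpa [itP] using MvPolynomial.isHomogeneous_X R i
  | succ k ih =>
    rw [itP, pow_succ']
    exact bind₁_homog (hF i) _ ih

theorem PP_homog {d B n l : ℕ} {F : Fin (N + 1) → MvPolynomial (Fin (N + 1)) R}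
    (hF : ∀ i, (F i).IsHomogeneous d) (a : Fin l → Fin (N + 1) → ℕ) (ha : Adm d B n a) :
    (PP F a).IsHomogeneous n := by
  rw [← ha.2, PP]
  refine MvPolynomial.IsHomogeneous.prod _ _ _ fun k _ => ?_
  rw [Finset.sum_mul]
  refine MvPolynomial.IsHomogeneous.prod _ _ _ fun i _ => ?_
  rw [mul_comm]
  exact (itP_homog hF k i).pow _

theorem map_itP (f : R →+* S) (F : Fin (N + 1) → MvPolynomial (Fin (N + 1)) R) (k : ℕ)
    (i : Fin (N + 1)) : MvPolynomial.map f (itP F k i) = itP (mp f F) k i := by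
  induction k generalizing i with
  | zero => simp [itP]
  | succ k ih =>
    rw [itP, itP, MvPolynomial.map_bind₁]
    congr 2
    funext j
    exact ih j

theorem map_PP {l : ℕ} (f : R →+* S) (F : Fin (N + 1) → MvPolynomial (Fin (N + 1)) R)
    (a : Fin l → Fin (N + 1) → ℕ) : MvPolynomial.map f (PP F a) = PP (mp f F) a := by
  simp only [PP, map_prod, map_pow, map_itP]

theorem mp_homog {d : ℕ} (f : R →+* S) {F : Fin (N + 1) → MvPolynomial (Fin (N + 1)) R}
    (hF : ∀ i, (F i).IsHomogeneous d) (i : Fin (N + 1)) : (mp f F i).IsHomogeneous d :=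
  (hF i).map f

end

section
variable {L : Type*} [Field L] {N : ℕ} (abv : AbsoluteValue L ℝ)

theorem nv_nonneg (x : Fin (N + 1) → L) : 0 ≤ nv abv x :=
  Real.iSup_nonneg fun _ => abv.nonneg _

theorem le_nv (x : Fin (N + 1) → L) (i : Fin (N + 1)) : abv (x i) ≤ nv abv x :=
  Finite.le_ciSup (fun i => abv (x i)) i

theorem nv_le {x : Fin (N + 1) → L} {c : ℝ} (h : ∀ i, abv (x i) ≤ c) : nv abv x ≤ c :=
  ciSup_le h

theorem exists_nv (x : Fin (N + 1) → L) : ∃ i, abv (x i) = nv abv x :=
  exists_eq_ciSup_of_finite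

theorem nv_pos {x : Fin (N + 1) → L} (hx : x ≠ 0) : 0 < nv abv x := by
  obtain ⟨i, hi⟩ := Function.ne_iff.mp hx
  exact (abv.pos hi).trans_le (le_nv abv x i)

theorem nv_smul (c : L) (x : Fin (N + 1) → L) : nv abv (c • x) = abv c * nv abv x := by
  simp only [nv, Pi.smul_apply, smul_eq_mul, map_mul]
  exact (Real.mul_iSup_of_nonneg (abv.nonneg c) _).symm

theorem phi_ne_zero {F : Fin (N + 1) → MvPolynomial (Fin (N + 1)) L}
    (hnz : ∀ z, phi F z = 0 → z = 0) {x : Fin (N + 1) → L} (hx : x ≠ 0) : phi F x ≠ 0 :=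
  fun h => hx (hnz x h)

theorem iter_ne_zero {F : Fin (N + 1) → MvPolynomial (Fin (N + 1)) L}
    (hnz : ∀ z, phi F z = 0 → z = 0) {x : Fin (N + 1) → L} (hx : x ≠ 0) (k : ℕ) :
    (phi F)^[k] x ≠ 0 := by
  induction k with
  | zero => exact hx
  | succ k ih =>
    rw [Function.iterate_succ_apply']
    exact phi_ne_zero hnz ih

theorem sum_le_of_na (hna : IsNonarchimedean abv) {ι : Type*} (s : Finset ι) (f : ι → L) (B : ℝ)
    (hB : 0 ≤ B) (h : ∀ i ∈ s, abv (f i) ≤ B) : abv (∑ i ∈ s, f i) ≤ B := by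
  refine Finset.sum_induction f (fun x => abv x ≤ B) (fun a b ha hb => ?_) ?_ h
  · exact (hna a b).trans (max_le ha hb)
  · simpa using hB

/-- The upper bound for a form with coefficients of size at most one. -/
theorem abv_eval_le (hna : IsNonarchimedean abv) {n : ℕ} {P : MvPolynomial (Fin (N + 1)) L}
    (hP : P.IsHomogeneous n) (hc : ∀ α, abv (MvPolynomial.coeff α P) ≤ 1)
    (x : Fin (N + 1) → L) : abv (MvPolynomial.eval x P) ≤ nv abv x ^ n := by
  rw [MvPolynomial.eval_eq]
  refine sum_le_of_na abv hna _ _ _ (pow_nonneg (nv_nonneg abv x) n) fun α hα => ?_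
  have h1 : ∑ i ∈ α.support, α i = n := by
    have h2 := hP (MvPolynomial.mem_support_iff.mp hα)
    rw [← h2, Finsupp.weight_apply, Finsupp.sum]
    simp
  rw [map_mul, map_prod]
  have h3 : ∏ i ∈ α.support, abv (x i ^ α i) ≤ nv abv x ^ n := by
    rw [← h1, ← Finset.prod_pow_eq_pow_sum]
    refine Finset.prod_le_prod (fun i _ => abv.nonneg _) fun i _ => ?_
    rw [map_pow]
    exact pow_le_pow_left₀ (abv.nonneg _) (le_nv abv x i) _
  calc abv (MvPolynomial.coeff α P) * ∏ i ∈ α.support, abv (x i ^ α i)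
      ≤ 1 * nv abv x ^ n := mul_le_mul (hc α) h3 (Finset.prod_nonneg fun i _ => abv.nonneg _)
        zero_le_one
    _ = nv abv x ^ n := one_mul _

/-- The upper bound, for coefficients of size at most one. -/
theorem nv_phi_le (hna : IsNonarchimedean abv) {d : ℕ}
    {F : Fin (N + 1) → MvPolynomial (Fin (N + 1)) L} (hF : ∀ i, (F i).IsHomogeneous d)
    (hc : ∀ i α, abv (MvPolynomial.coeff α (F i)) ≤ 1) (x : Fin (N + 1) → L) :
    nv abv (phi F x) ≤ nv abv x ^ d :=
  nv_le abv fun i => abv_eval_le abv hna (hF i) (hc i) x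

theorem nv_iter_le (hna : IsNonarchimedean abv) {d : ℕ}
    {F : Fin (N + 1) → MvPolynomial (Fin (N + 1)) L} (hF : ∀ i, (F i).IsHomogeneous d)
    (hc : ∀ i α, abv (MvPolynomial.coeff α (F i)) ≤ 1) (x : Fin (N + 1) → L) (k : ℕ) :
    nv abv ((phi F)^[k] x) ≤ nv abv x ^ d ^ k := by
  induction k with
  | zero => simp
  | succ k ih =>
    rw [Function.iterate_succ_apply']
    refine (nv_phi_le abv hna hF hc _).trans ?_
    calc nv abv ((phi F)^[k] x) ^ d ≤ (nv abv x ^ d ^ k) ^ d :=
          pow_le_pow_left₀ (nv_nonneg abv _) ih d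
      _ = nv abv x ^ d ^ (k + 1) := by rw [← pow_mul, pow_succ]

end

end Pool.Agent.PND
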