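import Pool.Agent.PND.Basic

set_option autoImplicit false

/-!
# A basis among the products and points with nonzero determinant
-/

namespace Pool.Agent.PND

open NumberField IsDedekindDomain Pool.Agent.GPoly

section

variable {K : Type} [Field K] {N n : ℕ}

/-- the exponent with given last coordinates and total degree `n` -/
noncomputable def expo (n : ℕ) (β : Fin N → Fin (n + 1)) : Fin (N + 1) →₀ ℕ :=
  Finsupp.equivFunOnFinite.symm (Fin.cons (n - ∑ i, (β i : ℕ)) fun i => (β i : ℕ))

theorem exists_expo (α : Fin (N + 1) →₀ ℕ) (hα : α.degree = n) : ∃ β, α = expo n β := by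
  have h1 : α 0 + ∑ i : Fin N, α i.succ = n := by
    rw [← hα, Finsupp.degree_eq_sum, Fin.sum_univ_succ]
  have h2 : ∀ i : Fin N, α i.succ < n + 1 := fun i => by
    have : α i.succ ≤ ∑ i : Fin N, α i.succ :=
      Finset.single_le_sum (f := fun i : Fin N => α i.succ) (fun _ _ => Nat.zero_le _)
        (Finset.mem_univ i)
    omega
  refine ⟨fun i => ⟨α i.succ, h2 i⟩, ?_⟩
  ext i
  refine Fin.cases ?_ (fun i => ?_) i
  · simp only [expo, Finsupp.equivFunOnFinite_symm_apply_apply, Fin.cons_zero]
    omega
  · simp only [expo, Finsupp.equivFunOnFinite_symm_apply_apply, Fin.cons_succ]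

theorem degree_of_homog {R : Type*} [CommRing R] {Q : MvPolynomial (Fin (N + 1)) R}
    (hQ : Q.IsHomogeneous n) {α : Fin (N + 1) →₀ ℕ} (h : MvPolynomial.coeff α Q ≠ 0) :
    α.degree = n := by
  have h2 := hQ h
  rw [← h2, Finsupp.weight_apply, Finsupp.degree_eq_sum, Finsupp.sum_fintype _ _ (by simp)]
  simp

/-- the coefficients as a linear map -/
noncomputable def coefMap (K : Type) [Field K] (N n : ℕ) :
    MvPolynomial (Fin (N + 1)) K →ₗ[K] ((Fin N → Fin (n + 1)) → K) where
  toFun Q β := MvPolynomial.coeff (expo n β) Q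
  map_add' _ _ := rfl
  map_smul' _ _ := rfl

theorem coefMap_inj {Q : MvPolynomial (Fin (N + 1)) K} (hQ : Q.IsHomogeneous n)
    (h : coefMap K N n Q = 0) : Q = 0 := by
  ext α
  rw [MvPolynomial.coeff_zero]
  by_contra h1
  obtain ⟨β, rfl⟩ := exists_expo α (degree_of_homog hQ h1)
  exact h1 (congrFun h β)

theorem linInd_card_le {κ : Type} [Fintype κ] {v : κ → MvPolynomial (Fin (N + 1)) K}
    (hv : LinearIndependent K v) (hh : ∀ i, (v i).IsHomogeneous n) :
    Fintype.card κ ≤ (n + 1) ^ N := by
  have h1 : LinearIndependent K (coefMap K N n ∘ v) := by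
    rw [Fintype.linearIndependent_iff] at hv ⊢
    intro g hg
    apply hv g
    apply coefMap_inj (n := n)
    · exact MvPolynomial.IsHomogeneous.sum _ _ _ fun i _ => by
        rw [MvPolynomial.smul_eq_C_mul]
        have := (MvPolynomial.isHomogeneous_C (Fin (N + 1)) (g i)).mul (hh i)
        rwa [zero_add] at this
    · rw [map_sum, ← hg]
      refine Finset.sum_congr rfl fun i _ => ?_
      rw [map_smul]
      rfl
  have h2 := h1.fintype_card_le_finrank
  rw [Module.finrank_fintype_fun_eq_card] at h2
  simpa using h2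

end

/-- A basis among the `P_a` and points with nonzero determinant. -/
theorem exists_det {K : Type} [Field K] {N n : ℕ} {ι : Type} (P : ι → MvPolynomial (Fin (N + 1)) K)
    (hP : ∀ a, (P a).IsHomogeneous n)
    (hspan : ∀ Q : MvPolynomial (Fin (N + 1)) K, Q.IsHomogeneous n →
      Q ∈ Submodule.span K (Set.range P))
    (S : Set (Fin (N + 1) → K))
    (hS : ∀ Q : MvPolynomial (Fin (N + 1)) K, Q.IsHomogeneous n →
      (∀ x ∈ S, MvPolynomial.eval x Q = 0) → Q = 0) :
    ∃ (R : ℕ) (a : Fin R → ι) (x : Fin R → Fin (N + 1) → K), R ≤ (n + 1) ^ N ∧ (∀ i, x i ∈ S) ∧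
      (Matrix.of fun i j => MvPolynomial.eval (x j) (P (a i))).det ≠ 0 ∧
      ∀ (Ω : Type) [Field Ω] (f : K →+* Ω) (Q : MvPolynomial (Fin (N + 1)) Ω),
        Q.IsHomogeneous n → ∃ c : Fin R → Ω, Q = ∑ i, c i • MvPolynomial.map f (P (a i)) := by
  classical
  obtain ⟨κ, a0, ha0, hsp, hli⟩ := exists_linearIndependent' K P
  -- `κ` is finite
  have hfin : Finite κ := by
    by_contra hinf
    rw [not_finite_iff_infinite] at hinf
    obtain ⟨s, hs⟩ := Infinite.exists_subset_card_eq κ ((n + 1) ^ N + 1)
    have h1 : LinearIndependent K (fun i : s => P (a0 i)) :=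
      hli.comp (fun i : s => (i : κ)) Subtype.val_injective
    have h2 := linInd_card_le h1 fun i => hP _
    rw [Fintype.card_coe, hs] at h2
    omega
  have := Fintype.ofFinite κ
  set R := Fintype.card κ with hR
  let e : Fin R ≃ κ := (Fintype.equivFin κ).symm
  set a : Fin R → ι := fun i => a0 (e i) with ha
  have hli' : LinearIndependent K (fun i => P (a i)) := hli.comp e e.injective
  have hsp' : Submodule.span K (Set.range fun i => P (a i)) = Submodule.span K (Set.range P) := by
    rw [← hsp]
    congr 1
    ext Q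
    simp only [Set.mem_range, Function.comp]
    constructor
    · rintro ⟨i, rfl⟩
      exact ⟨e i, rfl⟩
    · rintro ⟨i, rfl⟩
      exact ⟨e.symm i, by rw [ha]; simp⟩
  -- the columns span
  have hcol : Submodule.span K (Set.range fun x : S => fun i : Fin R =>
      MvPolynomial.eval (x : Fin (N + 1) → K) (P (a i))) = ⊤ := by
    by_contra hne
    obtain ⟨φ, hφ0, hφ⟩ := Submodule.exists_le_ker_of_lt_top _ (lt_top_iff_ne_top.2 hne)
    have hφ1 : ∀ w : Fin R → K, φ w = ∑ i, w i * φ (Pi.single i 1) := fun w => by
      conv_lhs => rw [← Finset.univ_sum_single w]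
      rw [map_sum]
      refine Finset.sum_congr rfl fun i _ => ?_
      have : (Pi.single i (w i) : Fin R → K) = w i • Pi.single i 1 := by
        rw [← Pi.single_smul]
        simp
      rw [this, map_smul, smul_eq_mul]
    have h0 : ∑ i, φ (Pi.single i 1) • P (a i) = 0 := by
      apply hS
      · exact MvPolynomial.IsHomogeneous.sum _ _ _ fun i _ => by
          rw [MvPolynomial.smul_eq_C_mul]
          have := (MvPolynomial.isHomogeneous_C (Fin (N + 1)) (φ (Pi.single i 1))).mul (hP (a i))
          rwa [zero_add] at this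
      · intro x hx
        have h1 := hφ (Submodule.subset_span ⟨⟨x, hx⟩, rfl⟩)
        rw [LinearMap.mem_ker, hφ1] at h1
        rw [map_sum, ← h1]
        refine Finset.sum_congr rfl fun i _ => ?_
        rw [MvPolynomial.smul_eval, mul_comm]
    have h1 := Fintype.linearIndependent_iff.1 hli' _ h0
    apply hφ0
    ext i
    simpa using h1 i
  obtain ⟨κ', b, hb, hsp2, hli2⟩ := exists_linearIndependent' K (fun x : S => fun i : Fin R =>
      MvPolynomial.eval (x : Fin (N + 1) → K) (P (a i)))
  have hfin' : Finite κ' := by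
    have := hli2.finite
    exact this
  have := Fintype.ofFinite κ'
  have hcard : Fintype.card κ' = R := by
    have h1 := finrank_span_eq_card hli2
    rw [hsp2, hcol, finrank_top, Module.finrank_fin_fun] at h1
    exact h1.symm
  let e' : Fin R ≃ κ' := (Fintype.equivFinOfCardEq hcard).symm
  refine ⟨R, a, fun j => (b (e' j) : Fin (N + 1) → K), linInd_card_le hli fun i => hP _,
    fun i => (b (e' i)).2, ?_, ?_⟩
  · have h1 : LinearIndependent K (fun j : Fin R => fun i : Fin R =>
        MvPolynomial.eval (b (e' j) : Fin (N + 1) → K) (P (a i))) := hli2.comp e' e'.injective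
    have h2 : IsUnit (Matrix.of fun i j : Fin R =>
        MvPolynomial.eval (b (e' j) : Fin (N + 1) → K) (P (a i))) := by
      rw [← Matrix.linearIndependent_cols_iff_isUnit]
      exact h1
    exact ((Matrix.isUnit_iff_isUnit_det _).1 h2).ne_zero
  · intro Ω _ f Q hQ
    have hmem : Q ∈ Submodule.span Ω (Set.range fun i => MvPolynomial.map f (P (a i))) := by
      rw [Q.as_sum]
      refine Submodule.sum_mem _ fun α hα => ?_
      have hα' : α.degree = n := degree_of_homog hQ (MvPolynomial.mem_support_iff.1 hα)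
      have h1 : MvPolynomial.monomial α (1 : K) ∈ Submodule.span K (Set.range fun i => P (a i)) := by
        rw [hsp']
        apply hspan
        exact MvPolynomial.isHomogeneous_monomial 1 hα'
      obtain ⟨c, hc⟩ := (Submodule.mem_span_range_iff_exists_fun K).1 h1
      have h2 : MvPolynomial.monomial α (1 : Ω) = ∑ i, f (c i) • MvPolynomial.map f (P (a i)) := by
        have h3 := congrArg (MvPolynomial.map f) hc
        rw [MvPolynomial.map_monomial, map_one, map_sum] at h3
        rw [← h3]
        refine Finset.sum_congr rfl fun i _ => ?_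
        rw [MvPolynomial.smul_eq_C_mul, MvPolynomial.smul_eq_C_mul, map_mul, MvPolynomial.map_C]
      have h4 : MvPolynomial.monomial α (MvPolynomial.coeff α Q) =
          MvPolynomial.coeff α Q • MvPolynomial.monomial α (1 : Ω) := by
        rw [MvPolynomial.smul_monomial, smul_eq_mul, mul_one]
      rw [h4, h2]
      refine Submodule.smul_mem _ _ (Submodule.sum_mem _ fun i _ => Submodule.smul_mem _ _ ?_)
      exact Submodule.subset_span ⟨i, rfl⟩
    obtain ⟨c, hc⟩ := (Submodule.mem_span_range_iff_exists_fun Ω).1 hmem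
    exact ⟨c, hc.symm⟩

end Pool.Agent.PND
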