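import Pool.Agent.PND.Basic
import Pool.Agent.PND.UnifNull

set_option autoImplicit false

/-!
# The lower bound for a morphism, by Cramer's rule
-/

namespace Pool.Agent.PND

open Pool.Agent.GPoly

namespace Cramer

variable {N : ℕ}

/-- the exponents of degree `n` -/
abbrev Mon (N n : ℕ) : Type := {α : Fin (N + 1) →₀ ℕ // α.degree = n}

noncomputable instance (n : ℕ) : Fintype (Mon N n) :=
  (Finsupp.finite_of_degree_eq (σ := Fin (N + 1)) n).fintype

/-- the vectors of the coefficients of the multiples of the `F j` span -/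
theorem cols_span {k : Type*} [Field k] {d E : ℕ} (F : Fin (N + 1) → MvPolynomial (Fin (N + 1)) k)
    (hF : ∀ i, (F i).IsHomogeneous d)
    (hmon : ∀ α : Fin (N + 1) →₀ ℕ, α.degree = E + d →
      MvPolynomial.monomial α (1 : k) ∈ Ideal.span (Set.range F)) :
    Submodule.span k (Set.range fun (p : Mon N E × Fin (N + 1)) (α : Mon N (E + d)) =>
      MvPolynomial.coeff α.1 (MvPolynomial.monomial p.1.1 1 * F p.2)) = ⊤ := by
  classical
  set W := Submodule.span k (Set.range fun (p : Mon N E × Fin (N + 1)) (α : Mon N (E + d)) =>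
      MvPolynomial.coeff α.1 (MvPolynomial.monomial p.1.1 1 * F p.2)) with hW
  have key : ∀ P ∈ Ideal.span (Set.range F), ∀ G : MvPolynomial (Fin (N + 1)) k,
      (fun α : Mon N (E + d) => MvPolynomial.coeff α.1 (G * P)) ∈ W := by
    intro P hP
    induction hP using Submodule.span_induction with
    | mem P hP =>
      obtain ⟨j, rfl⟩ := hP
      intro G
      induction G using MvPolynomial.induction_on' with
      | monomial b a =>
        by_cases hb : b.degree = E
        · have h1 : (fun α : Mon N (E + d) =>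
              MvPolynomial.coeff α.1 (MvPolynomial.monomial b a * F j)) =
              a • fun α : Mon N (E + d) =>
                MvPolynomial.coeff α.1 (MvPolynomial.monomial b 1 * F j) := by
            funext α
            rw [Pi.smul_apply, ← MvPolynomial.coeff_smul, ← smul_mul_assoc,
              MvPolynomial.smul_monomial, smul_eq_mul, mul_one]
          rw [h1]
          exact W.smul_mem _ (Submodule.subset_span ⟨(⟨b, hb⟩, j), rfl⟩)
        · have h1 : (fun α : Mon N (E + d) =>
              MvPolynomial.coeff α.1 (MvPolynomial.monomial b a * F j)) = 0 := by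
            funext α
            have h2 : (MvPolynomial.monomial b a * F j).IsHomogeneous (b.degree + d) :=
              (MvPolynomial.isHomogeneous_monomial _ rfl).mul (hF j)
            refine h2.coeff_eq_zero ?_
            rw [α.2]
            omega
          rw [h1]
          exact W.zero_mem
      | add p q hp hq =>
        have h1 : (fun α : Mon N (E + d) => MvPolynomial.coeff α.1 ((p + q) * F j)) =
            (fun α : Mon N (E + d) => MvPolynomial.coeff α.1 (p * F j)) +
              fun α : Mon N (E + d) => MvPolynomial.coeff α.1 (q * F j) := by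
          funext α
          rw [add_mul, MvPolynomial.coeff_add]
          rfl
        rw [h1]
        exact W.add_mem hp hq
    | zero =>
      intro G
      simp only [mul_zero, MvPolynomial.coeff_zero]
      exact W.zero_mem
    | add p q _ _ hp hq =>
      intro G
      have h1 : (fun α : Mon N (E + d) => MvPolynomial.coeff α.1 (G * (p + q))) =
          (fun α : Mon N (E + d) => MvPolynomial.coeff α.1 (G * p)) +
            fun α : Mon N (E + d) => MvPolynomial.coeff α.1 (G * q) := by
        funext α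
        rw [mul_add, MvPolynomial.coeff_add]
        rfl
      rw [h1]
      exact W.add_mem (hp G) (hq G)
    | smul a p _ hp =>
      intro G
      have h1 := hp (G * a)
      simpa only [smul_eq_mul, mul_assoc] using h1
  rw [eq_top_iff]
  intro v _
  rw [pi_eq_sum_univ v]
  refine W.sum_mem fun α _ => W.smul_mem _ ?_
  have h1 := key _ (hmon α.1 α.2) 1
  have h2 : (fun α' : Mon N (E + d) =>
      MvPolynomial.coeff α'.1 (1 * MvPolynomial.monomial α.1 (1 : k))) =
      fun j => if α = j then 1 else 0 := by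
    funext α'
    rw [one_mul, MvPolynomial.coeff_monomial]
    simp only [Subtype.ext_iff]
  rwa [h2] at h1

/-- a square submatrix with nonzero determinant -/
theorem exists_cols {k ι κ : Type*} [Field k] [Fintype ι] [DecidableEq ι] (v : κ → ι → k)
    (h : Submodule.span k (Set.range v) = ⊤) :
    ∃ c : ι → κ, (Matrix.of fun i j => v (c j) i).det ≠ 0 := by
  obtain ⟨κ', a, -, hsp, hli⟩ := exists_linearIndependent' k v
  let b : Module.Basis κ' k (ι → k) := Module.Basis.mk hli (by rw [hsp, h])
  let e : κ' ≃ ι := b.indexEquiv (Pi.basisFun k ι)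
  refine ⟨fun j => a (e.symm j), ?_⟩
  have h1 : LinearIndependent k (Matrix.of fun i j => v (a (e.symm j)) i).col := by
    have h2 : (Matrix.of fun i j => v (a (e.symm j)) i).col = (v ∘ a) ∘ e.symm := rfl
    rw [h2]
    exact hli.comp _ e.symm.injective
  rw [Matrix.linearIndependent_cols_iff_isUnit, Matrix.isUnit_iff_isUnit_det] at h1
  exact h1.ne_zero

/-- Cramer's rule -/
theorem monomial_eq {k : Type*} [Field k] {d E : ℕ}
    (F : Fin (N + 1) → MvPolynomial (Fin (N + 1)) k) (hF : ∀ i, (F i).IsHomogeneous d)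
    [DecidableEq (Mon N (E + d))] (c : Mon N (E + d) → Mon N E × Fin (N + 1))
    (γ : Mon N (E + d)) :
    MvPolynomial.monomial γ.1 (Matrix.of fun α β : Mon N (E + d) => MvPolynomial.coeff α.1
      (MvPolynomial.monomial (c β).1.1 1 * F (c β).2)).det =
    ∑ β, MvPolynomial.C ((Matrix.of fun α β : Mon N (E + d) => MvPolynomial.coeff α.1
      (MvPolynomial.monomial (c β).1.1 1 * F (c β).2)).adjugate β γ) *
        (MvPolynomial.monomial (c β).1.1 1 * F (c β).2) := by
  classical
  set A : Matrix (Mon N (E + d)) (Mon N (E + d)) k := Matrix.of fun α β : Mon N (E + d) =>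
    MvPolynomial.coeff α.1 (MvPolynomial.monomial (c β).1.1 1 * F (c β).2) with hA
  ext α
  rw [MvPolynomial.coeff_sum, MvPolynomial.coeff_monomial]
  simp only [MvPolynomial.coeff_C_mul]
  by_cases hα : α.degree = E + d
  · have h1 := congrFun (congrFun (Matrix.mul_adjugate A) ⟨α, hα⟩) γ
    rw [Matrix.mul_apply, Matrix.smul_apply, Matrix.one_apply] at h1
    have h2 : ∑ β, A.adjugate β γ * MvPolynomial.coeff α (MvPolynomial.monomial (c β).1.1 1 *
        F (c β).2) = ∑ β, A ⟨α, hα⟩ β * A.adjugate β γ := by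
      refine Finset.sum_congr rfl fun β _ => ?_
      rw [mul_comm]
      rfl
    rw [h2, h1]
    by_cases h3 : γ.1 = α
    · subst h3
      simp
    · rw [if_neg h3, if_neg (fun h => h3 (by rw [← h])), smul_zero]
  · have h1 : γ.1 ≠ α := fun h => hα (by rw [← h]; exact γ.2)
    rw [if_neg h1, Finset.sum_eq_zero]
    intro β _
    have h2 : (MvPolynomial.monomial (c β).1.1 (1 : k) * F (c β).2).IsHomogeneous (E + d) := by
      have := (MvPolynomial.isHomogeneous_monomial (1 : k) (c β).1.2).mul (hF (c β).2)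
      exact this
    rw [h2.coeff_eq_zero hα, mul_zero]

section

variable {K : Type*} [Field K] (abv : AbsoluteValue K ℝ)

theorem abv_sign {ι : Type*} [Fintype ι] [DecidableEq ι] (σ : Equiv.Perm ι) :
    abv ((Equiv.Perm.sign σ : ℤ) : K) = 1 := by
  rcases Int.units_eq_one_or (Equiv.Perm.sign σ) with h | h <;> rw [h] <;> simp

theorem abv_term_le {ι : Type*} [Fintype ι] [DecidableEq ι] (M : Matrix ι ι K) (r : ι → ℝ)
    (h : ∀ i j, abv (M i j) ≤ r i) (σ : Equiv.Perm ι) :
    abv (((Equiv.Perm.sign σ : ℤ) : K) * ∏ i, M (σ i) i) ≤ ∏ i, r i := by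
  rw [map_mul, abv_sign, one_mul, map_prod, ← Equiv.prod_comp σ r]
  exact Finset.prod_le_prod (fun i _ => abv.nonneg _) fun i _ => h _ _

theorem det_le_na (hna : IsNonarchimedean abv) {ι : Type*} [Fintype ι] [DecidableEq ι]
    (M : Matrix ι ι K) (r : ι → ℝ) (h : ∀ i j, abv (M i j) ≤ r i) :
    abv M.det ≤ ∏ i, r i := by
  rw [Matrix.det_apply']
  have h0 : 0 ≤ ∏ i, r i := (abv.nonneg _).trans (abv_term_le abv M r h 1)
  exact sum_le_of_na abv hna _ _ _ h0 fun σ _ => abv_term_le abv M r h σ

theorem det_le_arch {ι : Type*} [Fintype ι] [DecidableEq ι]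
    (M : Matrix ι ι K) (r : ι → ℝ) (h : ∀ i j, abv (M i j) ≤ r i) :
    abv M.det ≤ (Fintype.card ι).factorial * ∏ i, r i := by
  rw [Matrix.det_apply']
  refine (abv.sum_le _ _).trans ?_
  refine (Finset.sum_le_sum fun σ _ => abv_term_le abv M r h σ).trans (le_of_eq ?_)
  rw [Finset.sum_const, Finset.card_univ, Fintype.card_perm, nsmul_eq_mul]

theorem adj_row {ι : Type*} [Fintype ι] [DecidableEq ι] (M : Matrix ι ι K) (C : ℝ)
    (h : ∀ i j, abv (M i j) ≤ C) (a b i j : ι) :
    abv ((M.updateRow b (Pi.single a 1)) i j) ≤ Function.update (fun _ => C) b 1 i := by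
  rcases eq_or_ne i b with rfl | hi
  · rw [Matrix.updateRow_self, Function.update_self]
    rcases eq_or_ne j a with rfl | hj
    · rw [Pi.single_eq_same, map_one]
    · rw [Pi.single_eq_of_ne hj, map_zero]
      exact zero_le_one
  · rw [Matrix.updateRow_ne hi, Function.update_of_ne hi]
    exact h i j

theorem adj_prod {ι : Type*} [Fintype ι] [DecidableEq ι] (C : ℝ) (b : ι) :
    ∏ i, Function.update (fun _ => C) b 1 i = C ^ (Fintype.card ι - 1) := by
  rw [Finset.prod_update_of_mem (Finset.mem_univ b), one_mul, Finset.prod_const,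
    ← Finset.compl_eq_univ_sdiff, Finset.card_compl, Finset.card_singleton]

theorem adj_le_na (hna : IsNonarchimedean abv) {ι : Type*} [Fintype ι] [DecidableEq ι]
    (M : Matrix ι ι K) (C : ℝ) (h : ∀ i j, abv (M i j) ≤ C) (a b : ι) :
    abv (M.adjugate a b) ≤ C ^ (Fintype.card ι - 1) := by
  rw [Matrix.adjugate_apply, ← adj_prod C b]
  exact det_le_na abv hna _ _ fun i j => adj_row abv M C h a b i j

theorem adj_le_arch {ι : Type*} [Fintype ι] [DecidableEq ι]
    (M : Matrix ι ι K) (C : ℝ) (h : ∀ i j, abv (M i j) ≤ C) (a b : ι) :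
    abv (M.adjugate a b) ≤ (Fintype.card ι).factorial * C ^ (Fintype.card ι - 1) := by
  rw [Matrix.adjugate_apply, ← adj_prod C b]
  exact det_le_arch abv _ _ fun i j => adj_row abv M C h a b i j

theorem nc_nonneg (d : ℕ) (F : Fin (N + 1) → MvPolynomial (Fin (N + 1)) K) :
    0 ≤ nc abv d F := Real.iSup_nonneg fun _ => abv.nonneg _

theorem coeff_le_nc {d : ℕ} {F : Fin (N + 1) → MvPolynomial (Fin (N + 1)) K}
    (hF : ∀ i, (F i).IsHomogeneous d) (j : Fin (N + 1)) (β : Fin (N + 1) →₀ ℕ) :
    abv (MvPolynomial.coeff β (F j)) ≤ nc abv d F := by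
  by_cases hβ : β.degree = d
  · have hlt : ∀ i, β i < d + 1 := fun i => by
      have := Finsupp.le_degree i β
      omega
    have h := Finite.le_ciSup (fun p => abv (cof d F p)) (j, fun i => ⟨β i, hlt i⟩)
    have e : cof d F (j, fun i => ⟨β i, hlt i⟩) = MvPolynomial.coeff β (F j) := by
      unfold cof
      congr 1
      ext i
      rfl
    rw [e] at h
    exact h
  · rw [(hF j).coeff_eq_zero hβ, map_zero]
    exact nc_nonneg abv d F

theorem entry_le {d : ℕ} {F : Fin (N + 1) → MvPolynomial (Fin (N + 1)) K}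
    (hF : ∀ i, (F i).IsHomogeneous d) (j : Fin (N + 1)) (α b : Fin (N + 1) →₀ ℕ) :
    abv (MvPolynomial.coeff α (MvPolynomial.monomial b 1 * F j)) ≤ nc abv d F := by
  rw [MvPolynomial.coeff_monomial_mul']
  split_ifs
  · rw [one_mul]
    exact coeff_le_nc abv hF j _
  · rw [map_zero]
    exact nc_nonneg abv d F

theorem abv_monomial_le {n : ℕ} (b : Fin (N + 1) →₀ ℕ) (hb : b.degree = n)
    (x : Fin (N + 1) → K) :
    abv (MvPolynomial.eval x (MvPolynomial.monomial b 1)) ≤ nv abv x ^ n := by
  rw [MvPolynomial.eval_monomial, one_mul, Finsupp.prod_fintype _ _ (fun i => pow_zero _),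
    map_prod, ← hb, Finsupp.degree_eq_sum, ← Finset.prod_pow_eq_pow_sum]
  refine Finset.prod_le_prod (fun i _ => abv.nonneg _) fun i _ => ?_
  rw [map_pow]
  exact pow_le_pow_left₀ (abv.nonneg _) (le_nv abv x i) _

end

end Cramer

open Cramer in
theorem exists_cramer (N d : ℕ) (hd : 1 ≤ d) : ∃ (B s : ℕ) (c : ℝ), d ≤ B ∧ 1 ≤ c ∧
    ∀ (K : Type) [Field K] (σ : K →+* ℂ) (F : Fin (N + 1) → MvPolynomial (Fin (N + 1)) K),
      (∀ i, (F i).IsHomogeneous d) → (∀ z, phi (mp σ F) z = 0 → z = 0) →
      ∃ Δ : K, Δ ≠ 0 ∧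
        (∀ abv : AbsoluteValue K ℝ, IsNonarchimedean abv → abv Δ ≤ nc abv d F ^ (s + 1) ∧
          ∀ x : Fin (N + 1) → K, abv Δ * nv abv x ^ d ≤ nc abv d F ^ s * nv abv (phi F x)) ∧
        (∀ abv : AbsoluteValue K ℝ, ∀ x : Fin (N + 1) → K,
          abv Δ * nv abv x ^ d ≤ c * nc abv d F ^ s * nv abv (phi F x)) ∧
        ∀ α : Fin (N + 1) →₀ ℕ, α.degree = B →
          MvPolynomial.monomial α (1 : K) ∈ Ideal.span (Set.range F) := by
  classical
  obtain ⟨E, hE⟩ := unif_null N d (N + 1) hd
  set S := Fintype.card (Mon N (E + d)) with hS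
  have hS1 : 1 ≤ S := Fintype.card_pos_iff.2
    ⟨⟨Finsupp.single 0 (E + d), Finsupp.degree_single _ _⟩⟩
  have hfac : (1 : ℝ) ≤ (S.factorial : ℝ) := by
    exact_mod_cast Nat.one_le_iff_ne_zero.2 (Nat.factorial_ne_zero S)
  have hSr : (1 : ℝ) ≤ S := by exact_mod_cast hS1
  refine ⟨E + d, S - 1, S * S.factorial, Nat.le_add_left d E, ?_, ?_⟩
  · nlinarith
  intro K _ σ F hF hnz
  -- the minor
  have hFσ := mp_homog σ hF
  have hmonC : ∀ α : Fin (N + 1) →₀ ℕ, α.degree = E + d →
      MvPolynomial.monomial α (1 : ℂ) ∈ Ideal.span (Set.range (mp σ F)) := by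
    intro α hα
    obtain ⟨β, hβ, hβE⟩ := Finsupp.exists_le_degree_eq α E (by omega)
    have h1 := hE (mp σ F) hFσ (fun z hz => hnz z (funext hz)) β hβE
    have h2 : MvPolynomial.monomial α (1 : ℂ) =
        MvPolynomial.monomial (α - β) 1 * MvPolynomial.monomial β 1 := by
      rw [MvPolynomial.monomial_mul, tsub_add_cancel_of_le hβ, one_mul]
    rw [h2]
    exact Ideal.mul_mem_left _ _ h1
  obtain ⟨c, hc⟩ := exists_cols _ (cols_span (mp σ F) hFσ hmonC)
  set A : Matrix (Mon N (E + d)) (Mon N (E + d)) K := Matrix.of fun α β : Mon N (E + d) =>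
    MvPolynomial.coeff α.1 (MvPolynomial.monomial (c β).1.1 1 * F (c β).2) with hA
  have hdet : A.det ≠ 0 := by
    intro h0
    apply hc
    have h1 : (Matrix.of fun α β : Mon N (E + d) => MvPolynomial.coeff α.1
        (MvPolynomial.monomial (c β).1.1 1 * mp σ F (c β).2)) = σ.mapMatrix A := by
      ext α β
      rw [RingHom.mapMatrix_apply, Matrix.map_apply, hA, Matrix.of_apply, Matrix.of_apply,
        ← MvPolynomial.coeff_map, map_mul, MvPolynomial.map_monomial, map_one σ]
      rfl
    rw [h1, ← RingHom.map_det, h0, map_zero]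
  have hmon := fun γ => monomial_eq F hF c γ
  simp only [← hA] at hmon
  have hent : ∀ (abv : AbsoluteValue K ℝ) α β, abv (A α β) ≤ nc abv d F := fun abv α β =>
    entry_le abv hF _ _ _
  -- the identity at a point
  have hev : ∀ (x : Fin (N + 1) → K) (i : Fin (N + 1)), A.det * x i ^ (E + d) =
      ∑ β, A.adjugate β ⟨Finsupp.single i (E + d), Finsupp.degree_single _ _⟩ *
        (MvPolynomial.eval x (MvPolynomial.monomial (c β).1.1 1) * phi F x (c β).2) := by
    intro x i
    have h1 := congrArg (MvPolynomial.eval x)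
      (hmon ⟨Finsupp.single i (E + d), Finsupp.degree_single _ _⟩)
    rw [MvPolynomial.eval_monomial] at h1
    simp only [map_sum, map_mul, MvPolynomial.eval_C] at h1
    refine Eq.trans ?_ h1
    congr 1
    exact (Finsupp.prod_single_index (h := fun n e => x n ^ e) (pow_zero _)).symm
  have hterm : ∀ (abv : AbsoluteValue K ℝ) (x : Fin (N + 1) → K) β,
      abv (MvPolynomial.eval x (MvPolynomial.monomial (c β).1.1 1) * phi F x (c β).2) ≤
        nv abv x ^ E * nv abv (phi F x) := by
    intro abv x β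
    rw [map_mul]
    exact mul_le_mul (abv_monomial_le abv _ (c β).1.2 x) (le_nv abv _ _) (abv.nonneg _)
      (pow_nonneg (nv_nonneg abv x) _)
  -- division by a power of the norm
  have hdiv : ∀ (abv : AbsoluteValue K ℝ) (x : Fin (N + 1) → K) (T : ℝ), 0 ≤ T →
      (∀ i, abv (A.det * x i ^ (E + d)) ≤ T * nv abv x ^ E) →
      abv A.det * nv abv x ^ d ≤ T := by
    intro abv x T hT h
    obtain ⟨i, hi⟩ := exists_nv abv x
    have h1 := h i
    rw [map_mul, map_pow, hi, pow_add] at h1
    rcases (nv_nonneg abv x).eq_or_lt with h0 | h0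
    · rw [← h0, zero_pow (by omega), mul_zero]
      exact hT
    · have h2 : (abv A.det * nv abv x ^ d) * nv abv x ^ E ≤ T * nv abv x ^ E := by
        calc (abv A.det * nv abv x ^ d) * nv abv x ^ E =
            abv A.det * (nv abv x ^ E * nv abv x ^ d) := by ring
          _ ≤ _ := h1
      exact le_of_mul_le_mul_right h2 (pow_pos h0 E)
  refine ⟨A.det, hdet, fun abv hna => ⟨?_, fun x => ?_⟩, fun abv x => ?_, fun α hα => ?_⟩
  · have h1 := det_le_na abv hna A (fun _ => nc abv d F) (hent abv)
    rw [Finset.prod_const, Finset.card_univ, ← hS] at h1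
    rwa [Nat.sub_add_cancel hS1]
  · refine hdiv abv x _ (mul_nonneg (pow_nonneg (nc_nonneg abv d F) _) (nv_nonneg abv _))
      fun i => ?_
    rw [hev x i]
    refine sum_le_of_na abv hna _ _ _ (mul_nonneg (mul_nonneg (pow_nonneg (nc_nonneg abv d F) _)
      (nv_nonneg abv _)) (pow_nonneg (nv_nonneg abv x) _)) fun β _ => ?_
    rw [map_mul]
    calc _ ≤ nc abv d F ^ (S - 1) * (nv abv x ^ E * nv abv (phi F x)) :=
          mul_le_mul (adj_le_na abv hna A _ (hent abv) _ _) (hterm abv x β) (abv.nonneg _)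
            (pow_nonneg (nc_nonneg abv d F) _)
      _ = _ := by ring
  · refine hdiv abv x _ (mul_nonneg (mul_nonneg (mul_nonneg (Nat.cast_nonneg _)
      (Nat.cast_nonneg _)) (pow_nonneg (nc_nonneg abv d F) _)) (nv_nonneg abv _)) fun i => ?_
    rw [hev x i]
    refine (abv.sum_le _ _).trans ?_
    calc _ ≤ ∑ _β : Mon N (E + d), (S.factorial * nc abv d F ^ (S - 1)) *
          (nv abv x ^ E * nv abv (phi F x)) := by
          refine Finset.sum_le_sum fun β _ => ?_
          rw [map_mul]
          exact mul_le_mul (adj_le_arch abv A _ (hent abv) _ _) (hterm abv x β) (abv.nonneg _)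
            (mul_nonneg (Nat.cast_nonneg _) (pow_nonneg (nc_nonneg abv d F) _))
      _ = _ := by
          rw [Finset.sum_const, Finset.card_univ, nsmul_eq_mul, ← hS]
          ring
  · have h1 : MvPolynomial.monomial α (1 : K) =
        MvPolynomial.C (A.det)⁻¹ * MvPolynomial.monomial α A.det := by
      rw [MvPolynomial.C_mul_monomial, inv_mul_cancel₀ hdet]
    rw [h1]
    refine Ideal.mul_mem_left _ _ ?_
    have h2 := hmon ⟨α, hα⟩
    rw [h2]
    refine Ideal.sum_mem _ fun β _ => Ideal.mul_mem_left _ _ (Ideal.mul_mem_left _ _ ?_)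
    exact Ideal.subset_span ⟨_, rfl⟩

end Pool.Agent.PND
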