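import Mathlib
import Pool.Agent.GPoly.Places
import Pool.Agent.GPoly.PlacesB

set_option autoImplicit false

/-!
# Morphisms of `P^N` with defective primes: definitions
-/

namespace Pool.Agent.PND

open NumberField IsDedekindDomain Pool.Agent.GPoly

/-- The map of vectors given by the polynomials `F_0, …, F_N`. -/
noncomputable def phi {R : Type*} [CommRing R] {N : ℕ}
    (F : Fin (N + 1) → MvPolynomial (Fin (N + 1)) R) (x : Fin (N + 1) → R) : Fin (N + 1) → R :=
  fun i => MvPolynomial.eval x (F i)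

/-- The polynomials with coefficients mapped to another ring. -/
noncomputable def mp {R S : Type*} [CommRing R] [CommRing S] {N : ℕ} (f : R →+* S)
    (F : Fin (N + 1) → MvPolynomial (Fin (N + 1)) R) :
    Fin (N + 1) → MvPolynomial (Fin (N + 1)) S :=
  fun i => MvPolynomial.map f (F i)

/-- Proportional vectors (over a domain). -/
def Par {R : Type*} [CommRing R] {N : ℕ} (x y : Fin (N + 1) → R) : Prop :=
  ∀ i j, x i * y j = x j * y i

/-- The sup norm of a vector. -/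
noncomputable def nv {L : Type*} [Field L] {N : ℕ} (abv : AbsoluteValue L ℝ)
    (x : Fin (N + 1) → L) : ℝ := ⨆ i, abv (x i)

/-- The coefficients of `F_0, …, F_N` (of degree `d`). -/
noncomputable def cof {R : Type*} [CommRing R] {N : ℕ} (d : ℕ)
    (F : Fin (N + 1) → MvPolynomial (Fin (N + 1)) R) :
    Fin (N + 1) × (Fin (N + 1) → Fin (d + 1)) → R :=
  fun p => MvPolynomial.coeff (Finsupp.equivFunOnFinite.symm fun j => (p.2 j : ℕ)) (F p.1)

/-- The sup norm of the coefficients. -/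
noncomputable def nc {L : Type*} [Field L] {N : ℕ} (abv : AbsoluteValue L ℝ) (d : ℕ)
    (F : Fin (N + 1) → MvPolynomial (Fin (N + 1)) L) : ℝ := ⨆ p, abv (cof d F p)

/-- The iterates as polynomials. -/
noncomputable def itP {R : Type*} [CommRing R] {N : ℕ}
    (F : Fin (N + 1) → MvPolynomial (Fin (N + 1)) R) :
    ℕ → Fin (N + 1) → MvPolynomial (Fin (N + 1)) R
  | 0 => MvPolynomial.X
  | k + 1 => fun i => MvPolynomial.bind₁ (itP F k) (F i)

/-- The product `∏_{k < l} ∏_i (Φ^k)_i ^ a_{k,i}`. -/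
noncomputable def PP {R : Type*} [CommRing R] {N l : ℕ}
    (F : Fin (N + 1) → MvPolynomial (Fin (N + 1)) R) (a : Fin l → Fin (N + 1) → ℕ) :
    MvPolynomial (Fin (N + 1)) R :=
  ∏ k : Fin l, ∏ i, (itP F (k : ℕ) i) ^ a k i

/-- Admissible exponents: each monomial has degree less than `B`, the product has degree `n`. -/
def Adm {N l : ℕ} (d B n : ℕ) (a : Fin l → Fin (N + 1) → ℕ) : Prop :=
  (∀ k, ∑ i, a k i < B) ∧ ∑ k : Fin l, (∑ i, a k i) * d ^ (k : ℕ) = n

/-- `x` is a nonzero vector whose class in projective space is preperiodic. -/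
def Preper {R : Type*} [CommRing R] {N : ℕ} (F : Fin (N + 1) → MvPolynomial (Fin (N + 1)) R)
    (x : Fin (N + 1) → R) : Prop :=
  x ≠ 0 ∧ ∃ a b, a < b ∧ Par ((phi F)^[a] x) ((phi F)^[b] x)

/-- The prime `v` is `k`-defective for `Φ = (F_0, …, F_N)` (of degree `d`):
(1) no vector of integers that is not zero modulo `v` is a zero of `Φ` modulo `v ^ 2`;
(2) modulo `v`, the iterate `Φ ^ k` has at most `d - 2` zeros in the projective space over the
residue field `k_v`;
(3) modulo `v`, `Φ ^ k` has a nonzero zero `(g_0, …, g_N)` over a finite extension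
`k_v[X] / (h)` of `k_v`, which is not proportional to a vector over `k_v`. -/
def Defective {K : Type} [Field K] [NumberField K] {N : ℕ} (d k : ℕ)
    (F : Fin (N + 1) → MvPolynomial (Fin (N + 1)) (𝓞 K)) (v : HeightOneSpectrum (𝓞 K)) : Prop :=
  (∀ x : Fin (N + 1) → 𝓞 K, (∃ i, x i ∉ v.asIdeal) → ∃ i, phi F x i ∉ v.asIdeal ^ 2) ∧
  (∃ Z : Finset (Fin (N + 1) → 𝓞 K ⧸ v.asIdeal), Z.card + 2 ≤ d ∧
    ∀ x : Fin (N + 1) → 𝓞 K ⧸ v.asIdeal, x ≠ 0 →
      (phi (mp (Ideal.Quotient.mk v.asIdeal) F))^[k] x = 0 → ∃ z ∈ Z, z ≠ 0 ∧ Par x z) ∧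
  ∃ (h : Polynomial (𝓞 K ⧸ v.asIdeal)) (g : Fin (N + 1) → Polynomial (𝓞 K ⧸ v.asIdeal)),
    Irreducible h ∧ (∃ i, ¬ h ∣ g i) ∧
    (∀ i, h ∣ (phi (mp (Polynomial.C.comp (Ideal.Quotient.mk v.asIdeal)) F))^[k] g i) ∧
    ∀ x : Fin (N + 1) → 𝓞 K ⧸ v.asIdeal, x ≠ 0 →
      ∃ i i', ¬ h ∣ g i * Polynomial.C (x i') - g i' * Polynomial.C (x i)

end Pool.Agent.PND
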