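import Pool.Agent.PND.Defs

set_option autoImplicit false

/-!
# Determinants with separable bounds and the exchange lemma
-/

namespace Pool.Agent.PND

open NumberField IsDedekindDomain Pool.Agent.GPoly

private theorem abv_sign_smul {L : Type*} [Field L] (abv : AbsoluteValue L ℝ) {ι : Type*}
    [Fintype ι] [DecidableEq ι] (σ : Equiv.Perm ι) (x : L) :
    abv (Equiv.Perm.sign σ • x) = abv x := by
  rcases Int.units_eq_one_or (Equiv.Perm.sign σ) with h | h
  · rw [h, one_smul]
  · rw [h, Units.neg_smul, one_smul, abv.map_neg]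

private theorem term_le {L : Type*} [Field L] (abv : AbsoluteValue L ℝ) {ι : Type*} [Fintype ι]
    [DecidableEq ι] (A : Matrix ι ι L) (r c : ι → ℝ)
    (h : ∀ i j, abv (A i j) ≤ Real.exp (r i + c j)) (σ : Equiv.Perm ι) :
    abv (Equiv.Perm.sign σ • ∏ i, A (σ i) i) ≤ Real.exp (∑ i, r i + ∑ j, c j) := by
  rw [abv_sign_smul, map_prod]
  calc ∏ i, abv (A (σ i) i) ≤ ∏ i, Real.exp (r (σ i) + c i) :=
        Finset.prod_le_prod (fun i _ => abv.nonneg _) (fun i _ => h _ _)
    _ = Real.exp (∑ i, r i + ∑ j, c j) := by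
        rw [← Real.exp_sum, Finset.sum_add_distrib, Equiv.sum_comp σ r]

theorem abv_det_le_sep {L : Type*} [Field L] (abv : AbsoluteValue L ℝ)
    (hna : IsNonarchimedean abv) {ι : Type*} [Fintype ι] [DecidableEq ι] (A : Matrix ι ι L)
    (r c : ι → ℝ) (h : ∀ i j, abv (A i j) ≤ Real.exp (r i + c j)) :
    abv A.det ≤ Real.exp (∑ i, r i + ∑ j, c j) := by
  rw [Matrix.det_apply]
  obtain ⟨σ, -, hσ⟩ := hna.finset_image_add_of_nonempty
    (fun σ : Equiv.Perm ι => Equiv.Perm.sign σ • ∏ i, A (σ i) i) Finset.univ_nonempty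
  exact hσ.trans (term_le abv A r c h σ)

theorem abv_det_le_sep_arch {L : Type*} [Field L] (abv : AbsoluteValue L ℝ) {ι : Type*}
    [Fintype ι] [DecidableEq ι] (A : Matrix ι ι L) (r c : ι → ℝ)
    (h : ∀ i j, abv (A i j) ≤ Real.exp (r i + c j)) :
    abv A.det ≤ (Fintype.card ι).factorial * Real.exp (∑ i, r i + ∑ j, c j) := by
  rw [Matrix.det_apply]
  calc abv (∑ σ : Equiv.Perm ι, Equiv.Perm.sign σ • ∏ i, A (σ i) i)
      ≤ ∑ σ : Equiv.Perm ι, abv (Equiv.Perm.sign σ • ∏ i, A (σ i) i) := abv.sum_le _ _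
    _ ≤ ∑ _σ : Equiv.Perm ι, Real.exp (∑ i, r i + ∑ j, c j) :=
        Finset.sum_le_sum fun σ _ => term_le abv A r c h σ
    _ = (Fintype.card ι).factorial * Real.exp (∑ i, r i + ∑ j, c j) := by
        rw [Finset.sum_const, Finset.card_univ, Fintype.card_perm, nsmul_eq_mul]

/-- The exchange lemma. -/
theorem exchange {L : Type*} [Field L] (abv : AbsoluteValue L ℝ) (hna : IsNonarchimedean abv)
    {A G : Type*} [Fintype A] [DecidableEq A] [Fintype G] [DecidableEq G] (X : Matrix A A L)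
    (Py : Matrix A G L) (C : Matrix G A L) (r u : A → ℝ) (y ρ : ℝ) (hr : ∀ a, 0 ≤ r a)
    (hX : ∀ a i, abv (X a i) ≤ Real.exp (r a + u i)) (hP : ∀ a g, abv (Py a g) ≤ Real.exp y)
    (hF : ∀ g i, abv ((C * X) g i) ≤ Real.exp (ρ + u i)) :
    abv X.det * abv (C * Py).det ≤
      Real.exp (∑ a, r a + ∑ i, u i + Fintype.card G * (y + ρ)) := by
  have h1 : Matrix.fromBlocks X Py (C * X) 0 =
      Matrix.fromBlocks 1 0 C 1 * Matrix.fromBlocks X Py 0 (-(C * Py)) := by
    rw [Matrix.fromBlocks_multiply]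
    simp
  have h2 : (Matrix.fromBlocks X Py (C * X) 0).det = X.det * (-(C * Py)).det := by
    rw [h1, Matrix.det_mul, Matrix.det_fromBlocks_zero₁₂, Matrix.det_fromBlocks_zero₂₁]
    simp
  have h3 : abv (-(C * Py)).det = abv (C * Py).det := by
    rw [Matrix.det_neg, abv.map_mul, abv.map_pow, abv.map_neg, abv.map_one, one_pow, one_mul]
  have h4 := abv_det_le_sep abv hna (Matrix.fromBlocks X Py (C * X) 0)
    (Sum.elim r (fun _ => ρ)) (Sum.elim u (fun _ => y)) (by
      rintro (a | g) (i | g')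
      · simpa using hX a i
      · simp only [Matrix.fromBlocks_apply₁₂, Sum.elim_inl, Sum.elim_inr]
        exact (hP a g').trans (Real.exp_le_exp.2 (by linarith [hr a]))
      · simpa using hF g i
      · simp only [Matrix.fromBlocks_apply₂₂, Matrix.zero_apply, abv.map_zero]
        exact (Real.exp_pos _).le)
  rw [h2, abv.map_mul, h3] at h4
  refine h4.trans (Real.exp_le_exp.2 ?_)
  simp only [Fintype.sum_sum_type, Sum.elim_inl, Sum.elim_inr, Finset.sum_const, Finset.card_univ,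
    nsmul_eq_mul]
  linarith

end Pool.Agent.PND
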