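import Pool.Agent.PND.Defs

set_option autoImplicit false

/-!
# The test forms and the points of a box
-/

namespace Pool.Agent.PND

open MvPolynomial

section
variable {Ω : Type*} [Field Ω] {N b : ℕ}

/-- the point of the box with index `γ` -/
private noncomputable def boxPt (i0 : Fin (N + 1)) (y : Fin (N + 1) → Ω) (ϖ : Ω) (t : Fin b → Ω)
    (γ : Fin N → Fin b) : Fin (N + 1) → Ω :=
  i0.insertNth (y i0) fun k => y (i0.succAbove k) + ϖ * t (γ k)

/-- the product of the linear forms `x_k - (y_k + ϖ t_j) x_(i0)`, `j < β_k` -/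
private noncomputable def prodF (i0 : Fin (N + 1)) (y : Fin (N + 1) → Ω) (ϖ : Ω) (t : Fin b → Ω)
    (β : Fin N → Fin b) : MvPolynomial (Fin (N + 1)) Ω :=
  ∏ k, ∏ j ∈ Finset.Iio (β k),
    (X (i0.succAbove k) - C (y (i0.succAbove k) + ϖ * t j) * X i0)

/-- the test form -/
private noncomputable def testF {q : ℕ} (n n1 : ℕ) (i0 : Fin (N + 1)) (y : Fin (N + 1) → Ω)
    (ϖ : Ω) (t : Fin b → Ω) (ℓ : Fin q → Fin (N + 1) → Ω) (β : Fin N → Fin b) :
    MvPolynomial (Fin (N + 1)) Ω :=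
  (∏ s, (∑ i, C (ℓ s i) * X i) ^ n1) * X i0 ^ (n - q * n1 - ∑ k, (β k : ℕ)) * prodF i0 y ϖ t β

private theorem prodF_homog (i0 : Fin (N + 1)) (y : Fin (N + 1) → Ω) (ϖ : Ω) (t : Fin b → Ω)
    (β : Fin N → Fin b) : (prodF i0 y ϖ t β).IsHomogeneous (∑ k, (β k : ℕ)) := by
  unfold prodF
  refine IsHomogeneous.prod _ _ _ fun k _ => ?_
  have h1 : (β k : ℕ) = ∑ j ∈ Finset.Iio (β k), 1 := by simp
  rw [h1]
  refine IsHomogeneous.prod _ _ _ fun j _ => ?_
  refine (isHomogeneous_X _ _).sub ?_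
  have h2 := (isHomogeneous_C (Fin (N + 1)) (y (i0.succAbove k) + ϖ * t j)).mul
    (isHomogeneous_X Ω i0)
  rwa [zero_add] at h2

private theorem testF_homog {n n1 q : ℕ} (hroom : q * n1 + N * (b - 1) ≤ n) (i0 : Fin (N + 1))
    (y : Fin (N + 1) → Ω) (ϖ : Ω) (t : Fin b → Ω) (ℓ : Fin q → Fin (N + 1) → Ω)
    (β : Fin N → Fin b) :
    (testF n n1 i0 y ϖ t ℓ β).IsHomogeneous n := by
  have hs : ∑ k, (β k : ℕ) ≤ N * (b - 1) := by
    calc ∑ k, (β k : ℕ) ≤ ∑ _k : Fin N, (b - 1) := Finset.sum_le_sum fun k _ => by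
          have := (β k).2
          omega
      _ = N * (b - 1) := by simp
  have h1 : (∏ s, (∑ i, C (ℓ s i) * X i) ^ n1 : MvPolynomial (Fin (N + 1)) Ω).IsHomogeneous
      (∑ _s : Fin q, n1) := by
    refine IsHomogeneous.prod _ _ _ fun s _ => ?_
    have h1 : (∑ i, C (ℓ s i) * X i : MvPolynomial (Fin (N + 1)) Ω).IsHomogeneous 1 := by
      refine IsHomogeneous.sum _ _ _ fun i _ => ?_
      have h2 := (isHomogeneous_C (Fin (N + 1)) (ℓ s i)).mul (isHomogeneous_X Ω i)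
      rwa [zero_add] at h2
    have h2 := h1.pow n1
    rwa [one_mul] at h2
  have h2 := (h1.mul ((isHomogeneous_X Ω i0).pow (n - q * n1 - ∑ k, (β k : ℕ)))).mul
    (prodF_homog i0 y ϖ t β)
  have h3 : ∑ _s : Fin q, n1 + 1 * (n - q * n1 - ∑ k, (β k : ℕ)) + ∑ k, (β k : ℕ) = n := by
    rw [Finset.sum_const, Finset.card_univ, Fintype.card_fin, smul_eq_mul]
    omega
  rw [h3] at h2
  exact h2

private theorem boxPt_self (i0 : Fin (N + 1)) (y : Fin (N + 1) → Ω) (ϖ : Ω) (t : Fin b → Ω)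
    (γ : Fin N → Fin b) : boxPt i0 y ϖ t γ i0 = y i0 := by
  simp [boxPt]

private theorem boxPt_succAbove (i0 : Fin (N + 1)) (y : Fin (N + 1) → Ω) (ϖ : Ω) (t : Fin b → Ω)
    (γ : Fin N → Fin b) (k : Fin N) :
    boxPt i0 y ϖ t γ (i0.succAbove k) = y (i0.succAbove k) + ϖ * t (γ k) := by
  simp [boxPt]

private theorem eval_prodF (i0 : Fin (N + 1)) (y : Fin (N + 1) → Ω) (hy0 : y i0 = 1) (ϖ : Ω)
    (t : Fin b → Ω) (β γ : Fin N → Fin b) :
    eval (boxPt i0 y ϖ t γ) (prodF i0 y ϖ t β) =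
      ∏ k, ∏ j ∈ Finset.Iio (β k), (ϖ * (t (γ k) - t j)) := by
  unfold prodF
  rw [map_prod]
  refine Finset.prod_congr rfl fun k _ => ?_
  rw [map_prod]
  refine Finset.prod_congr rfl fun j _ => ?_
  rw [map_sub, map_mul, eval_X, eval_X, eval_C, boxPt_self, boxPt_succAbove, hy0]
  ring

private theorem eval_prodF_zero (i0 : Fin (N + 1)) (y : Fin (N + 1) → Ω) (hy0 : y i0 = 1) (ϖ : Ω)
    (t : Fin b → Ω) (β γ : Fin N → Fin b) (h : ¬ β ≤ γ) :
    eval (boxPt i0 y ϖ t γ) (prodF i0 y ϖ t β) = 0 := by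
  rw [eval_prodF i0 y hy0]
  rw [Pi.le_def] at h
  push Not at h
  obtain ⟨k, hk⟩ := h
  refine Finset.prod_eq_zero (Finset.mem_univ k) ?_
  refine Finset.prod_eq_zero (Finset.mem_Iio.2 hk) ?_
  rw [sub_self, mul_zero]

end

/-- the sum of all coordinates over the box -/
private theorem sum_box (N b : ℕ) :
    ∑ β : Fin N → Fin b, ∑ k, ((β k : ℕ) : ℝ) = N * (b : ℝ) ^ N * (b - 1) / 2 := by
  have h1 : ∑ β : Fin N → Fin b, ∑ k, ((β k : ℕ) : ℝ) =
      ∑ β : Fin N → Fin b, ∑ k, (((Fin.rev (β k) : Fin b) : ℕ) : ℝ) := by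
    refine (Equiv.sum_comp (Equiv.piCongrRight fun _ : Fin N => Fin.revPerm)
      (fun β : Fin N → Fin b => ∑ k, ((β k : ℕ) : ℝ))).symm.trans ?_
    rfl
  have h2 : ∑ β : Fin N → Fin b, ∑ k, ((β k : ℕ) : ℝ) +
      ∑ β : Fin N → Fin b, ∑ k, (((Fin.rev (β k) : Fin b) : ℕ) : ℝ) =
      (b : ℝ) ^ N * (N * (b - 1)) := by
    rw [← Finset.sum_add_distrib]
    have h3 : ∀ β : Fin N → Fin b, ∑ k, ((β k : ℕ) : ℝ) +
        ∑ k, (((Fin.rev (β k) : Fin b) : ℕ) : ℝ) = N * ((b : ℝ) - 1) := by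
      intro β
      rw [← Finset.sum_add_distrib]
      have h4 : ∀ k : Fin N, ((β k : ℕ) : ℝ) + (((Fin.rev (β k) : Fin b) : ℕ) : ℝ) =
          (b : ℝ) - 1 := by
        intro k
        rw [Fin.val_rev, Nat.cast_sub (by have := (β k).2; omega)]
        push_cast
        ring
      rw [Finset.sum_congr rfl fun k _ => h4 k, Finset.sum_const, Finset.card_univ,
        Fintype.card_fin, nsmul_eq_mul]
    rw [Finset.sum_congr rfl fun β _ => h3 β]
    simp
  rw [← h1] at h2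
  linarith

/-- The test forms `f_β` and the points `Y_γ`. -/
theorem exists_forms {Ω : Type*} [Field Ω] (abv : AbsoluteValue Ω ℝ) (hna : IsNonarchimedean abv)
    {N b n n1 q : ℕ} (hroom : q * n1 + N * (b - 1) ≤ n) (i0 : Fin (N + 1)) (y : Fin (N + 1) → Ω)
    (hy0 : y i0 = 1) (hy : ∀ i, abv (y i) ≤ 1) (ϖ : Ω) (l : ℝ) (hl : 0 ≤ l)
    (hϖ : abv ϖ = Real.exp (-l)) (t : Fin b → Ω) (ht1 : ∀ i, abv (t i) ≤ 1)
    (ht2 : ∀ i j, i ≠ j → abv (t i - t j) = 1) (ℓ : Fin q → Fin (N + 1) → Ω)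
    (hℓ : ∀ s (z : Fin (N + 1) → Ω), (∀ i, abv (z i - y i) ≤ Real.exp (-l)) →
      abv (∑ i, ℓ s i * z i) = 1) :
    ∃ (f : (Fin N → Fin b) → MvPolynomial (Fin (N + 1)) Ω)
      (Y : (Fin N → Fin b) → Fin (N + 1) → Ω),
      (∀ β, (f β).IsHomogeneous n) ∧ (∀ γ i, abv (Y γ i - y i) ≤ Real.exp (-l)) ∧
      abv (Matrix.of fun β γ => MvPolynomial.eval (Y γ) (f β)).det =
        Real.exp (-(l * (N * (b : ℝ) ^ N * (b - 1) / 2))) ∧
      ∀ β (x : Fin (N + 1) → Ω), nv abv x = 1 →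
        abv (MvPolynomial.eval x (f β)) ≤ ∏ s, abv (∑ i, ℓ s i * x i) ^ n1 := by
  classical
  have hexp : Real.exp (-l) ≤ 1 := by
    rw [Real.exp_le_one_iff]
    linarith
  have hY : ∀ (γ : Fin N → Fin b) i, abv (boxPt i0 y ϖ t γ i - y i) ≤ Real.exp (-l) := by
    intro γ i
    rcases eq_or_ne i i0 with rfl | hi
    · rw [boxPt_self, sub_self, map_zero]
      exact (Real.exp_pos _).le
    · obtain ⟨k, rfl⟩ := Fin.exists_succAbove_eq hi
      rw [boxPt_succAbove, add_sub_cancel_left, map_mul, hϖ]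
      exact mul_le_of_le_one_right (Real.exp_pos _).le (ht1 _)
  have hev : ∀ (x : Fin (N + 1) → Ω) (β : Fin N → Fin b),
      eval x (testF n n1 i0 y ϖ t ℓ β) =
        (∏ s, (∑ i, ℓ s i * x i) ^ n1) * x i0 ^ (n - q * n1 - ∑ k, (β k : ℕ)) *
          eval x (prodF i0 y ϖ t β) := by
    intro x β
    unfold testF
    rw [map_mul, map_mul, map_prod, map_pow, eval_X]
    congr 2
    refine Finset.prod_congr rfl fun s _ => ?_
    rw [map_pow, map_sum]
    congr 1
    refine Finset.sum_congr rfl fun i _ => ?_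
    rw [map_mul, eval_C, eval_X]
  refine ⟨testF n n1 i0 y ϖ t ℓ, boxPt i0 y ϖ t, testF_homog hroom i0 y ϖ t ℓ, hY, ?_, ?_⟩
  · -- the determinant
    set M : Matrix (Fin N → Fin b) (Fin N → Fin b) Ω :=
      Matrix.of fun β γ => eval (boxPt i0 y ϖ t γ) (testF n n1 i0 y ϖ t ℓ β) with hM
    have hM0 : ∀ β γ : Fin N → Fin b, ¬ β ≤ γ → M β γ = 0 := by
      intro β γ h
      rw [hM, Matrix.of_apply, hev, eval_prodF_zero i0 y hy0 ϖ t β γ h, mul_zero]
    have hdet : M.det = ∏ β, M β β := by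
      have h1 : (M.submatrix (ofLex : Lex (Fin N → Fin b) ≃ (Fin N → Fin b)) ofLex).det =
          ∏ β : Lex (Fin N → Fin b), M (ofLex β) (ofLex β) := by
        apply Matrix.det_of_isUpperTriangular
        intro β γ hlt
        apply hM0
        intro hle
        exact absurd (Pi.toLex_monotone hle) (not_le.2 hlt)
      rw [Matrix.det_submatrix_equiv_self] at h1
      rw [h1]
      exact Equiv.prod_comp (ofLex : Lex (Fin N → Fin b) ≃ (Fin N → Fin b)) fun β => M β β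
    have hdiag : ∀ β : Fin N → Fin b, abv (M β β) = Real.exp (-(l * ∑ k, ((β k : ℕ) : ℝ))) := by
      intro β
      have h0 : ∏ s, abv ((∑ i, ℓ s i * boxPt i0 y ϖ t β i) ^ n1) = 1 := by
        refine Finset.prod_eq_one fun s _ => ?_
        rw [map_pow, hℓ s _ (hY β), one_pow]
      rw [hM, Matrix.of_apply, hev, map_mul, map_mul, map_prod, map_pow, h0,
        boxPt_self, hy0, map_one, one_pow, one_mul, one_mul, eval_prodF i0 y hy0,
        map_prod]
      have h1 : ∀ k : Fin N, abv (∏ j ∈ Finset.Iio (β k), (ϖ * (t (β k) - t j))) =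
          Real.exp (-(l * ((β k : ℕ) : ℝ))) := by
        intro k
        rw [map_prod]
        have h2 : ∀ j ∈ Finset.Iio (β k), abv (ϖ * (t (β k) - t j)) = Real.exp (-l) := by
          intro j hj
          rw [map_mul, hϖ, ht2 _ _ (ne_of_gt (Finset.mem_Iio.1 hj)), mul_one]
        rw [Finset.prod_congr rfl h2, Finset.prod_const, Fin.card_Iio, ← Real.exp_nat_mul]
        congr 1
        ring
      rw [Finset.prod_congr rfl fun k _ => h1 k, ← Real.exp_sum]
      congr 1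
      rw [Finset.sum_neg_distrib, Finset.mul_sum]
    rw [hdet, map_prod, Finset.prod_congr rfl fun β _ => hdiag β, ← Real.exp_sum]
    congr 1
    rw [Finset.sum_neg_distrib, ← Finset.mul_sum, sum_box]
  · -- the bound
    intro β x hx
    have hx1 : ∀ i, abv (x i) ≤ 1 := by
      intro i
      rw [← hx]
      exact le_ciSup (Set.finite_range fun i => abv (x i)).bddAbove i
    have hsub : ∀ a c : Ω, abv a ≤ 1 → abv c ≤ 1 → abv (a - c) ≤ 1 := by
      intro a c ha hc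
      rw [sub_eq_add_neg]
      exact (hna _ _).trans (max_le ha (by rwa [map_neg_eq_map]))
    have hpr : abv (eval x (prodF i0 y ϖ t β)) ≤ 1 := by
      unfold prodF
      rw [map_prod, map_prod]
      refine Finset.prod_le_one (fun k _ => abv.nonneg _) fun k _ => ?_
      rw [map_prod, map_prod]
      refine Finset.prod_le_one (fun j _ => abv.nonneg _) fun j _ => ?_
      rw [map_sub, map_mul, eval_X, eval_X, eval_C]
      refine hsub _ _ (hx1 _) ?_
      rw [map_mul]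
      refine mul_le_one₀ ?_ (abv.nonneg _) (hx1 _)
      refine (hna _ _).trans (max_le (hy _) ?_)
      rw [map_mul, hϖ]
      exact mul_le_one₀ hexp (abv.nonneg _) (ht1 _)
    rw [hev, map_mul, map_mul, map_prod, map_pow, mul_assoc]
    have h0 : ∏ s, abv ((∑ i, ℓ s i * x i) ^ n1) = ∏ s, abv (∑ i, ℓ s i * x i) ^ n1 :=
      Finset.prod_congr rfl fun s _ => map_pow _ _ _
    rw [h0]
    refine mul_le_of_le_one_right (Finset.prod_nonneg fun s _ => pow_nonneg (abv.nonneg _) _) ?_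
    exact mul_le_one₀ (pow_le_one₀ (abv.nonneg _) (hx1 _)) (abv.nonneg _) hpr

end Pool.Agent.PND
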