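import Pool.Agent.RDF.Link
import Pool.Agent.PND.Defs

set_option autoImplicit false

/-!
# The global inequality from the local ones
-/

namespace Pool.Agent.PND

open NumberField IsDedekindDomain Pool.Agent.GPoly

open Classical in
theorem glob {K : Type} [Field K] [NumberField K] {N R : ℕ} {ι : Type} [Fintype ι] [Nonempty ι]
    (q : Fin R → Fin (N + 1) → K) (hq : ∀ i, q i ≠ 0) (z : ι → K) (hz : z ≠ 0) (W₁ W₂ : ℝ)
    (hW₁ : 0 ≤ W₁) (δ : K) (hδ : δ ≠ 0) (Δ : K) (hΔ : Δ ≠ 0) (c : ℝ)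
    (S : Finset (HeightOneSpectrum (𝓞 K))) (E : HeightOneSpectrum (𝓞 K) → ℝ)
    (harch : ∀ σ : K →+* ℂ, Real.log ‖σ δ‖ ≤ c + ∑ i, Real.log (⨆ j, ‖σ (q i j)‖) +
      W₁ * Real.log (⨆ p, ‖σ (z p)‖) - W₂ * Real.log ‖σ Δ‖)
    (hfin : ∀ v : HeightOneSpectrum (𝓞 K), Real.log (av v δ) ≤
      ∑ i, Real.log (⨆ j, av v (q i j)) + W₁ * Real.log (⨆ p, av v (z p)) -
        W₂ * Real.log (av v Δ) - if v ∈ S then E v else 0) :
    ∑ v ∈ S, E v ≤ Module.finrank ℚ K * c + ∑ i, Height.logHeight (q i) +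
      W₁ * Height.logHeight z := by
  have hf1 : (⋃ i : Fin R, {v : HeightOneSpectrum (𝓞 K) | (⨆ j, av v (q i j)) ≠ 1}).Finite :=
    Set.finite_iUnion fun i => RDF.link_finite _ (hq i)
  have hf2 := (((hf1.union (RDF.link_finite z hz)).union (av_support_finite δ hδ)).union
    (av_support_finite Δ hΔ)).union S.finite_toSet
  set P : Finset (HeightOneSpectrum (𝓞 K)) := hf2.toFinset with hP
  have hmem : ∀ v, v ∈ P ↔ (((v ∈ (⋃ i : Fin R, {v : HeightOneSpectrum (𝓞 K) |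
      (⨆ j, av v (q i j)) ≠ 1}) ∨ (⨆ p, av v (z p)) ≠ 1) ∨ av v δ ≠ 1) ∨ av v Δ ≠ 1) ∨
      v ∈ S := by
    intro v
    rw [hP, Set.Finite.mem_toFinset]
    rfl
  have hSP : S ⊆ P := fun v hv => (hmem v).2 (Or.inr hv)
  have h1 := product_formula δ hδ P fun v hv => (hmem v).2 (Or.inl (Or.inl (Or.inr hv)))
  have h1' := product_formula Δ hΔ P fun v hv => (hmem v).2 (Or.inl (Or.inr hv))
  have h2 : ∀ i, Height.logHeight (q i) = ∑ v ∈ P, Real.log (⨆ j, av v (q i j)) +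
      ∑ σ : K →+* ℂ, Real.log (⨆ j, ‖σ (q i j)‖) := fun i =>
    RDF.link _ (hq i) P fun v hv => (hmem v).2
      (Or.inl (Or.inl (Or.inl (Or.inl (Set.mem_iUnion.2 ⟨i, hv⟩)))))
  have h2' : Height.logHeight z = ∑ v ∈ P, Real.log (⨆ p, av v (z p)) +
      ∑ σ : K →+* ℂ, Real.log (⨆ p, ‖σ (z p)‖) :=
    RDF.link _ hz P fun v hv => (hmem v).2 (Or.inl (Or.inl (Or.inl (Or.inr hv))))
  have h3 : ∑ v ∈ P, Real.log (av v δ) ≤ ∑ v ∈ P, (∑ i, Real.log (⨆ j, av v (q i j)) +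
      W₁ * Real.log (⨆ p, av v (z p)) - W₂ * Real.log (av v Δ) - if v ∈ S then E v else 0) :=
    Finset.sum_le_sum fun v _ => hfin v
  have h4 : ∑ σ : K →+* ℂ, Real.log ‖σ δ‖ ≤ ∑ σ : K →+* ℂ,
      (c + ∑ i, Real.log (⨆ j, ‖σ (q i j)‖) + W₁ * Real.log (⨆ p, ‖σ (z p)‖) -
        W₂ * Real.log ‖σ Δ‖) := Finset.sum_le_sum fun σ _ => harch σ
  have h5 : ∑ v ∈ P, (if v ∈ S then E v else 0) = ∑ v ∈ S, E v := by
    rw [Finset.sum_ite_mem, Finset.inter_eq_right.2 hSP]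
  have h6 : ∑ i, Height.logHeight (q i) = ∑ v ∈ P, ∑ i, Real.log (⨆ j, av v (q i j)) +
        ∑ σ : K →+* ℂ, ∑ i, Real.log (⨆ j, ‖σ (q i j)‖) := by
    rw [Finset.sum_comm, Finset.sum_comm (s := (Finset.univ : Finset (K →+* ℂ))),
      ← Finset.sum_add_distrib]
    exact Finset.sum_congr rfl fun i _ => h2 i
  have h7 : (Fintype.card (K →+* ℂ) : ℝ) = Module.finrank ℚ K := by
    rw [NumberField.Embeddings.card K ℂ]
  rw [Finset.sum_sub_distrib, Finset.sum_sub_distrib, Finset.sum_add_distrib, h5,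
    ← Finset.mul_sum, ← Finset.mul_sum] at h3
  rw [Finset.sum_sub_distrib, Finset.sum_add_distrib, Finset.sum_add_distrib, Finset.sum_const,
    Finset.card_univ, nsmul_eq_mul, h7, ← Finset.mul_sum, ← Finset.mul_sum] at h4
  have h8 : W₂ * (∑ v ∈ P, Real.log (av v Δ) + ∑ σ : K →+* ℂ, Real.log ‖σ Δ‖) = 0 := by
    rw [h1', mul_zero]
  rw [h6, h2']
  linarith

end Pool.Agent.PND
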