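import Pool.Agent.PND.Basic
import Pool.Agent.RDF.Link

set_option autoImplicit false

/-!
# Heights of preperiodic points
-/

namespace Pool.Agent.PND

open NumberField IsDedekindDomain Pool.Agent.GPoly Pool.Agent.RDF

namespace HtPre

/-- the local inequality in logarithms -/
theorem log_local {L : Type} [Field L] (abv : AbsoluteValue L ℝ) {N d s : ℕ}
    {Δ : L} (hΔ : Δ ≠ 0) {p q : Fin (N + 1) → L} (hp : p ≠ 0) (hq : q ≠ 0) {B c : ℝ} (hB : 0 < B)
    (hc : 0 < c) (h : abv Δ * nv abv p ^ d ≤ c * B ^ s * nv abv q) :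
    Real.log (abv Δ) + d * Real.log (nv abv p) ≤
      Real.log c + s * Real.log B + Real.log (nv abv q) := by
  have hR' : 0 < abv Δ := abv.pos hΔ
  have hp' := nv_pos abv hp
  have hq' := nv_pos abv hq
  have h1 := Real.log_le_log (mul_pos hR' (pow_pos hp' d)) h
  rw [Real.log_mul hR'.ne' (pow_pos hp' d).ne', Real.log_pow,
    Real.log_mul (mul_pos hc (pow_pos hB _)).ne' hq'.ne', Real.log_mul hc.ne' (pow_pos hB _).ne',
    Real.log_pow] at h1
  exact h1

theorem cof_ne {K : Type} [Field K] {N d : ℕ} {F : Fin (N + 1) → MvPolynomial (Fin (N + 1)) K}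
    (hF : ∀ i, (F i).IsHomogeneous d) {p : Fin (N + 1) → K} (h : phi F p ≠ 0) : cof d F ≠ 0 := by
  intro h0
  apply h
  funext i
  have hz : F i = 0 := by
    ext α
    rw [MvPolynomial.coeff_zero]
    by_contra hα
    have h1 : α.degree = d := by
      have h2 := hF i hα
      rw [← h2, Finsupp.degree_eq_weight_one]
      rfl
    have h3 : ∀ j, α j < d + 1 := by
      intro j
      have h4 : α j ≤ α.degree := Finsupp.le_degree j α
      omega
    have h5 := congrFun h0 (i, fun j => ⟨α j, h3 j⟩)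
    apply hα
    rw [cof] at h5
    have h6 : (Finsupp.equivFunOnFinite.symm fun j => (((i, fun j => ⟨α j, h3 j⟩) :
        Fin (N + 1) × (Fin (N + 1) → Fin (d + 1))).2 j : ℕ)) = α := by
      ext j
      rfl
    rw [h6] at h5
    exact h5
  rw [phi, hz, map_zero]
  rfl

theorem nc_pos {K : Type} [Field K] (abv : AbsoluteValue K ℝ) {N d : ℕ}
    {F : Fin (N + 1) → MvPolynomial (Fin (N + 1)) K} (h : cof d F ≠ 0) : 0 < nc abv d F := by
  obtain ⟨i, hi⟩ := Function.ne_iff.mp h
  exact (abv.pos hi).trans_le (Finite.le_ciSup (fun p => abv (cof d F p)) i)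

/-- the height of the image -/
theorem height_step {K : Type} [Field K] [NumberField K] {N d s : ℕ} (c : ℝ)
    (hc : 1 ≤ c) (F : Fin (N + 1) → MvPolynomial (Fin (N + 1)) K)
    (hF : ∀ i, (F i).IsHomogeneous d) (hnz : ∀ z, phi F z = 0 → z = 0) (Δ : K) (hΔ : Δ ≠ 0)
    (hna : ∀ abv : AbsoluteValue K ℝ, IsNonarchimedean abv → ∀ x : Fin (N + 1) → K,
      abv Δ * nv abv x ^ d ≤ nc abv d F ^ s * nv abv (phi F x))
    (har : ∀ abv : AbsoluteValue K ℝ, ∀ x : Fin (N + 1) → K,
      abv Δ * nv abv x ^ d ≤ c * nc abv d F ^ s * nv abv (phi F x))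
    (p : Fin (N + 1) → K) (hp : p ≠ 0) :
    d * Height.logHeight p ≤ s * Height.logHeight (cof d F) +
      Height.logHeight (phi F p) + Module.finrank ℚ K * Real.log c := by
  classical
  have hq : phi F p ≠ 0 := phi_ne_zero hnz hp
  have hco := cof_ne hF hq
  have f1 := link_finite (K := K) _ hp
  have f2 := link_finite (K := K) _ hq
  have f3 := link_finite (K := K) _ hco
  have f4 := av_support_finite (K := K) _ hΔ
  obtain ⟨P, hP1, hP2, hP3, hP4⟩ : ∃ P : Finset (HeightOneSpectrum (𝓞 K)),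
      (∀ v, (⨆ i, av v (p i)) ≠ 1 → v ∈ P) ∧
      (∀ v, (⨆ i, av v (phi F p i)) ≠ 1 → v ∈ P) ∧
      (∀ v, (⨆ i, av v (cof d F i)) ≠ 1 → v ∈ P) ∧
      (∀ v, av v Δ ≠ 1 → v ∈ P) := by
    refine ⟨f1.toFinset ∪ f2.toFinset ∪ f3.toFinset ∪ f4.toFinset, ?_, ?_, ?_, ?_⟩ <;>
    · intro v hv
      simp only [Finset.mem_union, Set.Finite.mem_toFinset]
      tauto
  have e1 := link _ hp P hP1
  have e2 := link _ hq P hP2
  have e3 := link _ hco P hP3
  have e4 := product_formula _ hΔ P hP4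
  have l1 : ∀ v : HeightOneSpectrum (𝓞 K),
      Real.log (av v Δ) + d * Real.log (⨆ i, av v (p i)) ≤
      s * Real.log (⨆ i, av v (cof d F i)) + Real.log (⨆ i, av v (phi F p i)) := by
    intro v
    have h2 := log_local (av v) (d := d) (s := s) hΔ hp hq (nc_pos (av v) hco) one_pos
      (by rw [one_mul]; exact hna (av v) (av_nonarch v) p)
    rw [Real.log_one, zero_add] at h2
    exact h2
  have l2 : ∀ σ : K →+* ℂ,
      Real.log ‖σ Δ‖ + d * Real.log (⨆ i, ‖σ (p i)‖) ≤
      Real.log c + s * Real.log (⨆ i, ‖σ (cof d F i)‖) + Real.log (⨆ i, ‖σ (phi F p i)‖) := by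
    intro σ
    exact log_local (NumberField.place σ) (d := d) (s := s) hΔ hp hq
      (nc_pos (NumberField.place σ) hco) (zero_lt_one.trans_le hc) (har (NumberField.place σ) p)
  have s1 := Finset.sum_le_sum fun v (_ : v ∈ P) => l1 v
  have s2 := Finset.sum_le_sum fun σ (_ : σ ∈ (Finset.univ : Finset (K →+* ℂ))) => l2 σ
  simp only [Finset.sum_add_distrib, ← Finset.mul_sum] at s1 s2
  have hcard : ∑ _σ : K →+* ℂ, Real.log c = Module.finrank ℚ K * Real.log c := by
    rw [Finset.sum_const, nsmul_eq_mul, Finset.card_univ, NumberField.Embeddings.card]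
  rw [hcard] at s2
  rw [e1, e2, e3]
  linarith

theorem exists_smul {K : Type} [Field K] {N : ℕ} {p q : Fin (N + 1) → K} (hp : p ≠ 0)
    (hq : q ≠ 0) (h : Par p q) : ∃ c : K, c ≠ 0 ∧ q = c • p := by
  obtain ⟨i, hi⟩ := Function.ne_iff.mp hp
  have hi' : p i ≠ 0 := hi
  have h4 : q = (q i / p i) • p := by
    funext j
    have h1 := h i j
    rw [Pi.smul_apply, smul_eq_mul, div_mul_eq_mul_div, eq_div_iff hi', mul_comm (q j), h1,
      mul_comm]
  refine ⟨q i / p i, ?_, h4⟩
  intro h5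
  rw [h5, zero_smul] at h4
  exact hq h4

end HtPre

open HtPre

/-- The height of a preperiodic point. -/
theorem height_preper {K : Type} [Field K] [NumberField K] {N d s : ℕ} (hd : 2 ≤ d) (c : ℝ)
    (hc : 1 ≤ c) (F : Fin (N + 1) → MvPolynomial (Fin (N + 1)) K)
    (hF : ∀ i, (F i).IsHomogeneous d) (hnz : ∀ z, phi F z = 0 → z = 0) (Δ : K) (hΔ : Δ ≠ 0)
    (hna : ∀ abv : AbsoluteValue K ℝ, IsNonarchimedean abv → ∀ x : Fin (N + 1) → K,
      abv Δ * nv abv x ^ d ≤ nc abv d F ^ s * nv abv (phi F x))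
    (har : ∀ abv : AbsoluteValue K ℝ, ∀ x : Fin (N + 1) → K,
      abv Δ * nv abv x ^ d ≤ c * nc abv d F ^ s * nv abv (phi F x))
    (x : Fin (N + 1) → K) (hx : Preper F x) (l : ℕ) :
    ((d : ℝ) - 1) * Height.logHeight ((phi F)^[l] x) ≤
      s * Height.logHeight (cof d F) + Module.finrank ℚ K * Real.log c := by
  obtain ⟨hx0, a, b, hab, hw⟩ := hx
  have hd' : (2 : ℝ) ≤ d := by exact_mod_cast hd
  have hne : ∀ k, (phi F)^[k] x ≠ 0 := fun k => iter_ne_zero hnz hx0 k
  set h : ℕ → ℝ := fun k => Height.logHeight ((phi F)^[k] x) with hh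
  have hper : ∀ j, h (b + j) = h (a + j) := by
    intro j
    obtain ⟨c, hc, e⟩ := exists_smul (hne a) (hne b) hw
    have e1 : (phi F)^[b + j] x = c ^ d ^ j • (phi F)^[a + j] x := by
      rw [add_comm b j, Function.iterate_add_apply, e, iter_smul hF, ← Function.iterate_add_apply,
        add_comm j a]
    simp only [hh, e1]
    exact Height.logHeight_smul_eq_logHeight _ (pow_ne_zero _ hc)
  obtain ⟨k₀, hk₀, hmax⟩ := Finset.exists_max_image (Finset.range b) h ⟨a, Finset.mem_range.mpr hab⟩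
  have hM : ∀ k, h k ≤ h k₀ := by
    intro k
    induction k using Nat.strong_induction_on with
    | _ k ih =>
      by_cases hk : k < b
      · exact hmax k (Finset.mem_range.mpr hk)
      · have e : k = b + (k - b) := by omega
        rw [e, hper]
        exact ih _ (by omega)
  have h1 := height_step c hc F hF hnz Δ hΔ hna har _ (hne k₀)
  rw [← Function.iterate_succ_apply' (phi F)] at h1
  have h2 := hM (k₀ + 1)
  have h6 : (d : ℝ) * h k₀ ≤ s * Height.logHeight (cof d F) + h (k₀ + 1) +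
      Module.finrank ℚ K * Real.log c := h1
  have h8 : ((d : ℝ) - 1) * h l ≤ ((d : ℝ) - 1) * h k₀ :=
    mul_le_mul_of_nonneg_left (hM l) (by linarith)
  show ((d : ℝ) - 1) * h l ≤ _
  linarith

end Pool.Agent.PND
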