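import Pool.Agent.PND.Basic
import Pool.Agent.RDF.LocI

set_option autoImplicit false

/-!
# The `K`-rational points at a defective prime
-/

namespace Pool.Agent.PND

open NumberField IsDedekindDomain Pool.Agent.GPoly

variable {K : Type} [Field K] [NumberField K] {N d : ℕ}
  (F : Fin (N + 1) → MvPolynomial (Fin (N + 1)) (𝓞 K)) (v : HeightOneSpectrum (𝓞 K))

/-- A primitive vector over `K` is proportional to a vector of integers, not zero modulo `v`. -/
theorem exists_int (x : Fin (N + 1) → K) (hx : nv (av v) x = 1) :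
    ∃ (c : 𝓞 K) (x' : Fin (N + 1) → 𝓞 K), c ∉ v.asIdeal ∧ (∃ i, x' i ∉ v.asIdeal) ∧
      ∀ i, algebraMap (𝓞 K) K c * x i = algebraMap (𝓞 K) K (x' i) := by
  classical
  have hxi : ∀ i, av v (x i) ≤ 1 := fun i => hx ▸ le_nv (av v) x i
  choose c y hc hy using fun i => RDF.exists_denom v (x i) (hxi i)
  have hcp : ∏ i, c i ∉ v.asIdeal := by
    intro h
    obtain ⟨i, -, hi⟩ := (v.isPrime.prod_mem_iff).mp h
    exact hc i hi
  have hmul : ∀ i, algebraMap (𝓞 K) K (∏ i, c i) * x i =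
      algebraMap (𝓞 K) K ((∏ j ∈ Finset.univ.erase i, c j) * y i) := by
    intro i
    rw [← Finset.mul_prod_erase Finset.univ c (Finset.mem_univ i), map_mul, map_mul, ← hy i]
    ring
  refine ⟨∏ i, c i, fun i => (∏ j ∈ Finset.univ.erase i, c j) * y i, hcp, ?_, hmul⟩
  obtain ⟨i, hi⟩ := exists_nv (av v) x
  refine ⟨i, ?_⟩
  rw [← av_int_eq_one, ← hmul i, map_mul, hi, hx, mul_one]
  exact (av_int_eq_one v _).mpr hcp

theorem mk_phi (x : Fin (N + 1) → 𝓞 K) (k : ℕ) :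
    (fun i => Ideal.Quotient.mk v.asIdeal ((phi F)^[k] x i)) =
      (phi (mp (Ideal.Quotient.mk v.asIdeal) F))^[k]
        (fun i => Ideal.Quotient.mk v.asIdeal (x i)) :=
  iter_map _ _ _ _

theorem av_coeff_le (i : Fin (N + 1)) (α : Fin (N + 1) →₀ ℕ) :
    av v (MvPolynomial.coeff α (mp (algebraMap (𝓞 K) K) F i)) ≤ 1 := by
  rw [mp, MvPolynomial.coeff_map]
  exact av_int_le_one v _

/-- The iterates of proportional vectors. -/
theorem nv_iter_int (hF : ∀ i, (F i).IsHomogeneous d) (c : 𝓞 K) (hc : c ∉ v.asIdeal)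
    (x : Fin (N + 1) → K) (x' : Fin (N + 1) → 𝓞 K)
    (h : ∀ i, algebraMap (𝓞 K) K c * x i = algebraMap (𝓞 K) K (x' i)) (k : ℕ) :
    nv (av v) ((phi (mp (algebraMap (𝓞 K) K) F))^[k] x) =
      nv (av v) (fun i => algebraMap (𝓞 K) K ((phi F)^[k] x' i)) := by
  have h1 : algebraMap (𝓞 K) K c • x = fun i => algebraMap (𝓞 K) K (x' i) := by
    funext i
    exact h i
  have h2 := iter_smul (mp_homog (algebraMap (𝓞 K) K) hF) (algebraMap (𝓞 K) K c) x k
  rw [h1, ← iter_map] at h2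
  rw [h2, nv_smul, map_pow, (av_int_eq_one v c).mpr hc, one_pow, one_mul]

theorem nv_int_eq_one (y : Fin (N + 1) → 𝓞 K) :
    nv (av v) (fun i => algebraMap (𝓞 K) K (y i)) = 1 ↔
      (fun i => Ideal.Quotient.mk v.asIdeal (y i)) ≠ 0 := by
  constructor
  · intro h h0
    obtain ⟨i, hi⟩ := exists_nv (av v) (fun i => algebraMap (𝓞 K) K (y i))
    have h1 : y i ∈ v.asIdeal := Ideal.Quotient.eq_zero_iff_mem.mp (congrFun h0 i)
    have h2 := (av_int_lt_one v _).mpr h1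
    rw [hi, h] at h2
    exact lt_irrefl _ h2
  · intro h
    obtain ⟨i, hi⟩ := Function.ne_iff.mp h
    have h1 : y i ∉ v.asIdeal := fun h1 => hi (Ideal.Quotient.eq_zero_iff_mem.mpr h1)
    refine le_antisymm (nv_le _ fun j => av_int_le_one v _) ?_
    rw [← (av_int_eq_one v _).mpr h1]
    exact le_nv (av v) (fun i => algebraMap (𝓞 K) K (y i)) i

/-- One step. -/
theorem kpts_step (hF : ∀ i, (F i).IsHomogeneous d)
    (h2 : ∀ x : Fin (N + 1) → 𝓞 K, (∃ i, x i ∉ v.asIdeal) → ∃ i, phi F x i ∉ v.asIdeal ^ 2)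
    (x : Fin (N + 1) → K) (hx : nv (av v) x = 1) :
    Real.exp (-lq v) ≤ nv (av v) (phi (mp (algebraMap (𝓞 K) K) F) x) := by
  obtain ⟨c, x', hc, hx', h⟩ := exists_int v x hx
  have h3 := nv_iter_int F v hF c hc x x' h 1
  rw [Function.iterate_one, Function.iterate_one] at h3
  rw [h3]
  obtain ⟨i, hi⟩ := h2 x' hx'
  refine le_trans ?_ (le_nv (av v) (fun i => algebraMap (𝓞 K) K (phi F x' i)) i)
  by_contra hlt
  push Not at hlt
  apply hi
  rw [av_int_le_pow]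
  -- the value group is discrete
  have hne : algebraMap (𝓞 K) K (phi F x' i) ≠ 0 ∨ algebraMap (𝓞 K) K (phi F x' i) = 0 :=
    (em _).symm
  rcases hne with hne | hne
  · obtain ⟨n, hn⟩ := av_disc v _ hne
    rw [hn] at hlt ⊢
    rw [Real.exp_lt_exp] at hlt
    rw [Real.exp_le_exp]
    have hl := lq_pos v
    have h4 : (1 : ℝ) < n := by nlinarith
    have h5 : (1 : ℤ) < n := by exact_mod_cast h4
    have h6 : (2 : ℝ) ≤ n := by exact_mod_cast (by omega : (2 : ℤ) ≤ n)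
    push_cast
    nlinarith
  · rw [hne, map_zero]
    exact (Real.exp_pos _).le

/-- The size of the iterates of the `K`-rational points. -/
theorem kpts_ge (hd : 2 ≤ d) (hF : ∀ i, (F i).IsHomogeneous d)
    (h2 : ∀ x : Fin (N + 1) → 𝓞 K, (∃ i, x i ∉ v.asIdeal) → ∃ i, phi F x i ∉ v.asIdeal ^ 2)
    (x : Fin (N + 1) → K) (hx : nv (av v) x = 1) (m : ℕ) :
    Real.exp (-(lq v * (((d : ℝ) ^ m - 1) / (d - 1)))) ≤
      nv (av v) ((phi (mp (algebraMap (𝓞 K) K) F))^[m] x) := by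
  have hd' : (2 : ℝ) ≤ d := by exact_mod_cast hd
  have hd1 : (0 : ℝ) < (d : ℝ) - 1 := by linarith
  induction m with
  | zero => simp [hx]
  | succ m ih =>
    rw [Function.iterate_succ_apply']
    set y := (phi (mp (algebraMap (𝓞 K) K) F))^[m] x with hy
    obtain ⟨i, hi⟩ := exists_nv (av v) y
    have hpos : 0 < nv (av v) y := (Real.exp_pos _).trans_le ih
    have hyi : y i ≠ 0 := (av v).pos_iff.mp (hi ▸ hpos)
    have h3 : nv (av v) ((y i)⁻¹ • y) = 1 := by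
      rw [nv_smul, map_inv₀, hi, inv_mul_cancel₀ hpos.ne']
    have h4 := kpts_step F v hF h2 _ h3
    have h5 : y = y i • ((y i)⁻¹ • y) := by
      rw [smul_smul, mul_inv_cancel₀ hyi, one_smul]
    rw [h5, phi_smul (mp_homog _ hF), nv_smul, map_pow, hi]
    have h6 : Real.exp (-(lq v * (((d : ℝ) ^ (m + 1) - 1) / (d - 1)))) =
        Real.exp (-(lq v * (((d : ℝ) ^ m - 1) / (d - 1)))) ^ d * Real.exp (-lq v) := by
      rw [← Real.exp_nat_mul, ← Real.exp_add]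
      congr 1
      field_simp
      ring
    rw [h6]
    exact mul_le_mul (pow_le_pow_left₀ (Real.exp_pos _).le ih d) h4 (Real.exp_pos _).le
      (pow_nonneg (nv_nonneg _ _) d)

/-- If `Φ ^ k (x)` is still primitive. -/
theorem kpts_ge' (hd : 2 ≤ d) (hF : ∀ i, (F i).IsHomogeneous d)
    (h2 : ∀ x : Fin (N + 1) → 𝓞 K, (∃ i, x i ∉ v.asIdeal) → ∃ i, phi F x i ∉ v.asIdeal ^ 2)
    (k : ℕ) (x : Fin (N + 1) → K)
    (hxk : nv (av v) ((phi (mp (algebraMap (𝓞 K) K) F))^[k] x) = 1) (m : ℕ) (hkm : k ≤ m) :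
    Real.exp (-(lq v * (((d : ℝ) ^ (m - k) - 1) / (d - 1)))) ≤
      nv (av v) ((phi (mp (algebraMap (𝓞 K) K) F))^[m] x) := by
  have h := kpts_ge F v hd hF h2 _ hxk (m - k)
  rwa [← Function.iterate_add_apply, Nat.sub_add_cancel hkm] at h

/-- If `Φ ^ k (x)` is not primitive, `x` reduces to one of the zeros `z` of `Φ ^ k` modulo `v`. -/
theorem kpts_zero (hF : ∀ i, (F i).IsHomogeneous d) (k : ℕ)
    (Z : Finset (Fin (N + 1) → 𝓞 K ⧸ v.asIdeal))
    (hZ : ∀ x : Fin (N + 1) → 𝓞 K ⧸ v.asIdeal, x ≠ 0 →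
      (phi (mp (Ideal.Quotient.mk v.asIdeal) F))^[k] x = 0 → ∃ z ∈ Z, z ≠ 0 ∧ Par x z)
    (x : Fin (N + 1) → K) (hx : nv (av v) x = 1)
    (hxk : nv (av v) ((phi (mp (algebraMap (𝓞 K) K) F))^[k] x) ≠ 1) :
    ∃ z ∈ Z, z ≠ 0 ∧ ∀ z' : Fin (N + 1) → 𝓞 K, (∀ i, Ideal.Quotient.mk v.asIdeal (z' i) = z i) →
      ∀ i j, av v (x i * algebraMap (𝓞 K) K (z' j) - x j * algebraMap (𝓞 K) K (z' i)) ≤
        Real.exp (-lq v) := by
  obtain ⟨c, x', hc, ⟨i₀, hi₀⟩, h⟩ := exists_int v x hx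
  rw [nv_iter_int F v hF c hc x x' h k] at hxk
  have h1 : (fun i => Ideal.Quotient.mk v.asIdeal ((phi F)^[k] x' i)) = 0 := by
    by_contra h0
    exact hxk ((nv_int_eq_one v _).mpr h0)
  rw [mk_phi] at h1
  have h0 : (fun i => Ideal.Quotient.mk v.asIdeal (x' i)) ≠ 0 := fun h0 =>
    hi₀ (Ideal.Quotient.eq_zero_iff_mem.mp (congrFun h0 i₀))
  obtain ⟨z, hz, hz0, hpar⟩ := hZ _ h0 h1
  refine ⟨z, hz, hz0, fun z' hz' i j => ?_⟩
  have h3 : x' i * z' j - x' j * z' i ∈ v.asIdeal ^ 1 := by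
    rw [pow_one, ← Ideal.Quotient.eq_zero_iff_mem, map_sub, map_mul, map_mul, hz', hz']
    exact sub_eq_zero.mpr (hpar i j)
  rw [av_int_le_pow] at h3
  have hc1 : av v (algebraMap (𝓞 K) K c) = 1 := (av_int_eq_one v c).mpr hc
  calc av v (x i * algebraMap (𝓞 K) K (z' j) - x j * algebraMap (𝓞 K) K (z' i))
      = av v (algebraMap (𝓞 K) K c) *
        av v (x i * algebraMap (𝓞 K) K (z' j) - x j * algebraMap (𝓞 K) K (z' i)) := by
        rw [hc1, one_mul]
    _ = av v (algebraMap (𝓞 K) K (x' i * z' j - x' j * z' i)) := by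
        rw [← map_mul]
        congr 1
        rw [map_sub, map_mul, map_mul, ← h i, ← h j]
        ring
    _ ≤ Real.exp (-lq v) := by
        refine h3.trans (le_of_eq ?_)
        congr 1
        push_cast
        ring

/-- no rational zero at all -/
theorem kpts_eq (hF : ∀ i, (F i).IsHomogeneous d)
    (h1 : ∀ x : Fin (N + 1) → 𝓞 K ⧸ v.asIdeal, x ≠ 0 →
      phi (mp (Ideal.Quotient.mk v.asIdeal) F) x ≠ 0)
    (x : Fin (N + 1) → K) (hx : nv (av v) x = 1) (m : ℕ) :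
    nv (av v) ((phi (mp (algebraMap (𝓞 K) K) F))^[m] x) = 1 := by
  obtain ⟨c, x', hc, ⟨i₀, hi₀⟩, h⟩ := exists_int v x hx
  rw [nv_iter_int F v hF c hc x x' h m, nv_int_eq_one, mk_phi]
  have h0 : (fun i => Ideal.Quotient.mk v.asIdeal (x' i)) ≠ 0 := fun h0 =>
    hi₀ (Ideal.Quotient.eq_zero_iff_mem.mp (congrFun h0 i₀))
  induction m with
  | zero => exact h0
  | succ m ih =>
    rw [Function.iterate_succ_apply']
    exact h1 _ ih

end Pool.Agent.PND
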