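import Pool.Agent.PND.Basic
import Pool.Agent.RDF.AuxQ

set_option autoImplicit false

/-!
# The auxiliary point and the points near it
-/

namespace Pool.Agent.PND

open NumberField IsDedekindDomain Polynomial Pool.Agent.GPoly Pool.Agent.RDF

/-- The values at a root of a lift of an irreducible polynomial over the residue field. -/
theorem pts_root {K : Type} [Field K] [NumberField K] (v : HeightOneSpectrum (𝓞 K)) {k : Type*}
    [Field k] (q : 𝓞 K →+* k) (hq : Function.Surjective q) (hker : ∀ a, q a = 0 → a ∈ v.asIdeal)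
    (h : k[X]) (hirr : Irreducible h) {Ω : Type*} [Field Ω] [IsAlgClosed Ω]
    (B : AbsoluteValue Ω ℝ) (hna : IsNonarchimedean B) (ι : K →+* Ω)
    (hB : ∀ x, B (ι x) = av v x) :
    ∃ θ : Ω, B θ ≤ 1 ∧
      (∀ A : (𝓞 K)[X], h ∣ A.map q →
        B (A.eval₂ (ι.comp (algebraMap (𝓞 K) K)) θ) ≤ Real.exp (-lq v)) ∧
      ∀ A : (𝓞 K)[X], ¬ h ∣ A.map q → B (A.eval₂ (ι.comp (algebraMap (𝓞 K) K)) θ) = 1 := by
  classical
  set f : 𝓞 K →+* Ω := ι.comp (algebraMap (𝓞 K) K) with hf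
  have hBf : ∀ a : 𝓞 K, B (f a) ≤ 1 := fun a => by
    rw [hf, RingHom.comp_apply, hB]
    exact av_int_le_one v a
  have hcf : ∀ (p : (𝓞 K)[X]) i, B ((p.map f).coeff i) ≤ 1 := fun p i => by
    rw [coeff_map]
    exact hBf _
  set hn : k[X] := C (h.leadingCoeff)⁻¹ * h with hhn
  have hlc : h.leadingCoeff ≠ 0 := leadingCoeff_ne_zero.mpr hirr.ne_zero
  have hnm : hn.Monic := by
    rw [Monic, hhn, leadingCoeff_mul, leadingCoeff_C, inv_mul_cancel₀ hlc]
  have hass : Associated hn h :=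
    associated_of_dvd_dvd ⟨C h.leadingCoeff, by
      rw [hhn, mul_comm, ← mul_assoc, ← C_mul, mul_inv_cancel₀ hlc, C_1, one_mul]⟩
      (Dvd.intro_left _ rfl)
  have hnd : hn.natDegree = h.natDegree :=
    natDegree_eq_of_degree_eq (degree_eq_degree_of_associated hass)
  obtain ⟨H, hH, hHd, hHm⟩ := Polynomial.lifts_and_degree_eq_and_monic
    (Polynomial.mem_lifts_of_surjective hq hn) hnm
  have hHn : H.natDegree = h.natDegree := (natDegree_eq_of_degree_eq hHd).trans hnd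
  have hpos : 0 < h.natDegree := hirr.natDegree_pos
  have hmf : (H.map f).Monic := hHm.map f
  obtain ⟨θ, hθ⟩ := IsAlgClosed.exists_root (H.map f) (by
    intro h0
    rw [degree_eq_natDegree hmf.ne_zero, hHm.natDegree_map] at h0
    have : H.natDegree = 0 := by exact_mod_cast h0
    omega)
  have hθ' : (H.map f).eval θ = 0 := hθ
  have hθ1 : B θ ≤ 1 := aux_root_le B hna _ hmf (hcf H) θ hθ'
  have hle : ∀ A : (𝓞 K)[X], B (A.eval₂ f θ) ≤ 1 := fun A => by
    rw [← eval_map]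
    exact aux_eval_le B hna _ _ zero_le_one (hcf A) _ hθ1
  have h1 : ∀ A : (𝓞 K)[X], h ∣ A.map q → B (A.eval₂ f θ) ≤ Real.exp (-lq v) := by
    intro A hA
    obtain ⟨wb, hwb⟩ := hass.dvd.trans hA
    obtain ⟨w, hw⟩ := Polynomial.map_surjective _ hq wb
    have hco : ∀ i, (A - w * H).coeff i ∈ v.asIdeal := by
      intro i
      have h1 : (A - w * H).map q = 0 := by
        rw [Polynomial.map_sub, Polynomial.map_mul, hw, hH, hwb, mul_comm wb, sub_self]
      have h2 := congrArg (fun p => p.coeff i) h1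
      simp only [coeff_map, coeff_zero] at h2
      exact hker _ h2
    have e : A.eval₂ f θ = ((A - w * H).map f).eval θ + (w.map f).eval θ * (H.map f).eval θ := by
      rw [← eval_map, ← eval_mul, ← Polynomial.map_mul, ← eval_add, ← Polynomial.map_add,
        sub_add_cancel]
    rw [e, hθ', mul_zero, add_zero]
    refine aux_eval_le B hna _ _ (Real.exp_pos _).le (fun i => ?_) _ hθ1
    rw [coeff_map, hf, RingHom.comp_apply, hB]
    have h3 := (av_int_le_pow v ((A - w * H).coeff i) 1).1 (by rw [pow_one]; exact hco i)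
    rwa [Nat.cast_one, one_mul] at h3
  have hlq := lq_pos v
  have hr1 : Real.exp (-lq v) < 1 := by
    rw [Real.exp_lt_one_iff]
    linarith
  refine ⟨θ, hθ1, h1, fun A hA => ?_⟩
  obtain ⟨a, b, hab⟩ := (hirr.coprime_iff_not_dvd).2 hA
  obtain ⟨w, hw⟩ := Polynomial.map_surjective _ hq b
  have h2 : B ((w * A - 1).eval₂ f θ) ≤ Real.exp (-lq v) := by
    refine h1 _ ⟨-a, ?_⟩
    rw [Polynomial.map_sub, Polynomial.map_mul, hw, Polynomial.map_one]
    linear_combination hab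
  have h3 : B (w.eval₂ f θ * A.eval₂ f θ) = 1 := by
    have e : w.eval₂ f θ * A.eval₂ f θ = 1 + (w * A - 1).eval₂ f θ := by
      rw [eval₂_sub, eval₂_mul, eval₂_one]
      ring
    have h4 := aux_add_eq B hna (x := (1 : Ω)) (y := (w * A - 1).eval₂ f θ)
      (by rw [map_one]; exact lt_of_le_of_lt h2 hr1)
    rw [e, h4, map_one]
  rw [map_mul] at h3
  refine le_antisymm (hle A) ?_
  calc (1 : ℝ) = B (w.eval₂ f θ) * B (A.eval₂ f θ) := h3.symm
    _ ≤ 1 * B (A.eval₂ f θ) := mul_le_mul_of_nonneg_right (hle w) (B.nonneg _)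
    _ = _ := one_mul _

/-- The elements of size at most `r`, an ideal of the ring of the elements of size at most `1`. -/
def rIdeal {Ω : Type*} [Field Ω] (B : AbsoluteValue Ω ℝ) (hna : IsNonarchimedean B) (r : ℝ)
    (hr : 0 ≤ r) : Ideal (aux_ball B hna) where
  carrier := {x | B (x : Ω) ≤ r}
  add_mem' := fun {x y} hx hy => by
    show B ((x : Ω) + (y : Ω)) ≤ r
    exact (hna _ _).trans (max_le hx hy)
  zero_mem' := by
    show B (0 : Ω) ≤ r
    rw [map_zero]
    exact hr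
  smul_mem' := fun c x hx => by
    show B ((c : Ω) * (x : Ω)) ≤ r
    rw [map_mul]
    calc B (c : Ω) * B (x : Ω) ≤ 1 * r := mul_le_mul c.2 hx (B.nonneg _) zero_le_one
      _ = r := one_mul r

/-- The iterates at two points which are congruent. -/
theorem iter_near {K : Type} [Field K] [NumberField K] {N : ℕ}
    (F : Fin (N + 1) → MvPolynomial (Fin (N + 1)) (𝓞 K)) {Ω : Type*} [Field Ω]
    (B : AbsoluteValue Ω ℝ) (hna : IsNonarchimedean B) (f : 𝓞 K →+* Ω) (hf : ∀ a, B (f a) ≤ 1)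
    (r : ℝ) (hr : 0 ≤ r) (y z : Fin (N + 1) → Ω) (hy : ∀ i, B (y i) ≤ 1)
    (hz : ∀ i, B (z i) ≤ 1) (hyz : ∀ i, B (z i - y i) ≤ r) (j : ℕ) (i : Fin (N + 1)) :
    B ((phi (mp f F))^[j] z i - (phi (mp f F))^[j] y i) ≤ r := by
  set f' : 𝓞 K →+* aux_ball B hna := f.codRestrict (aux_ball B hna) hf with hf'
  have hc : (aux_ball B hna).subtype.comp f' = f := RingHom.ext fun a => rfl
  have hmp : mp (aux_ball B hna).subtype (mp f' F) = mp f F := by
    funext i
    show MvPolynomial.map _ (MvPolynomial.map _ _) = _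
    rw [MvPolynomial.map_map, hc]
    rfl
  set y' : Fin (N + 1) → aux_ball B hna := fun i => ⟨y i, hy i⟩ with hy'
  set z' : Fin (N + 1) → aux_ball B hna := fun i => ⟨z i, hz i⟩ with hz'
  have e1 := iter_map (aux_ball B hna).subtype (mp f' F) y' j
  have e2 := iter_map (aux_ball B hna).subtype (mp f' F) z' j
  rw [hmp] at e1 e2
  have e1' : (phi (mp f F))^[j] y i = (((phi (mp f' F))^[j] y' i : aux_ball B hna) : Ω) :=
    (congrFun e1 i).symm
  have e2' : (phi (mp f F))^[j] z i = (((phi (mp f' F))^[j] z' i : aux_ball B hna) : Ω) :=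
    (congrFun e2 i).symm
  have hmk : (fun i => Ideal.Quotient.mk (rIdeal B hna r hr) (z' i)) =
      fun i => Ideal.Quotient.mk (rIdeal B hna r hr) (y' i) := by
    funext i
    rw [Ideal.Quotient.eq]
    exact hyz i
  have e3 := iter_map (Ideal.Quotient.mk (rIdeal B hna r hr)) (mp f' F) y' j
  have e4 := iter_map (Ideal.Quotient.mk (rIdeal B hna r hr)) (mp f' F) z' j
  rw [hmk, ← e3] at e4
  have e5 := congrFun e4 i
  rw [Ideal.Quotient.eq] at e5
  rw [e1', e2']
  exact e5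

/-- The auxiliary point in an algebraically closed field, and everything near it. -/
theorem exists_pts {K : Type} [Field K] [NumberField K] {N d : ℕ} (v : HeightOneSpectrum (𝓞 K))
    (F : Fin (N + 1) → MvPolynomial (Fin (N + 1)) (𝓞 K)) (hF : ∀ i, (F i).IsHomogeneous d)
    (h : Polynomial (𝓞 K ⧸ v.asIdeal)) (hirr : Irreducible h)
    (g : Fin (N + 1) → Polynomial (𝓞 K ⧸ v.asIdeal)) (i0 : Fin (N + 1)) (hi0 : ¬ h ∣ g i0)
    (j : ℕ)
    (hj : ∀ i, h ∣ (phi (mp (Polynomial.C.comp (Ideal.Quotient.mk v.asIdeal)) F))^[j] g i) :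
    ∃ (Ω : Type) (_ : Field Ω) (_ : IsAlgClosed Ω) (abv : AbsoluteValue Ω ℝ) (ι : K →+* Ω)
      (y : Fin (N + 1) → Ω) (ϖ : Ω), IsNonarchimedean abv ∧ (∀ x, abv (ι x) = av v x) ∧
      (∀ n : ℕ, ∃ t : Fin n → Ω, (∀ i, abv (t i) ≤ 1) ∧ ∀ i j, i ≠ j → abv (t i - t j) = 1) ∧
      abv ϖ = Real.exp (-lq v) ∧ y i0 = 1 ∧ (∀ i, abv (y i) ≤ 1) ∧
      (∀ z : Fin (N + 1) → Ω, (∀ i, abv (z i - y i) ≤ Real.exp (-lq v)) →
        nv abv ((phi (mp (ι.comp (algebraMap (𝓞 K) K)) F))^[j] z) ≤ Real.exp (-lq v)) ∧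
      ∀ ℓ : Fin (N + 1) → 𝓞 K,
        ¬ h ∣ ∑ i, Polynomial.C (Ideal.Quotient.mk v.asIdeal (ℓ i)) * g i →
        ∀ z : Fin (N + 1) → Ω, (∀ i, abv (z i - y i) ≤ Real.exp (-lq v)) →
          abv (∑ i, ι (algebraMap (𝓞 K) K (ℓ i)) * z i) = 1 := by
  classical
  obtain ⟨Ω, _, _, ι, B, hna, hB⟩ := aux_ext v
  obtain ⟨π, hπ⟩ := aux_unif v
  have hlq := lq_pos v
  have hr1 : Real.exp (-lq v) < 1 := by
    rw [Real.exp_lt_one_iff]
    linarith
  have hr0 : 0 ≤ Real.exp (-lq v) := (Real.exp_pos _).le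
  let _ : Field (𝓞 K ⧸ v.asIdeal) := Ideal.Quotient.field v.asIdeal
  have hsurj : Function.Surjective (Ideal.Quotient.mk v.asIdeal) := Ideal.Quotient.mk_surjective
  obtain ⟨θ, hθ, hval, hone⟩ := pts_root v (Ideal.Quotient.mk v.asIdeal) hsurj
    (fun a ha => Ideal.Quotient.eq_zero_iff_mem.1 ha) h hirr B hna ι hB
  set f : 𝓞 K →+* Ω := ι.comp (algebraMap (𝓞 K) K) with hf
  have hBf : ∀ a : 𝓞 K, B (f a) ≤ 1 := fun a => by
    rw [hf, RingHom.comp_apply, hB]
    exact av_int_le_one v a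
  choose G hG using fun i => Polynomial.map_surjective (Ideal.Quotient.mk v.asIdeal) hsurj (g i)
  set u : Ω := (G i0).eval₂ f θ with hu
  have hu1 : B u = 1 := hone (G i0) (by rw [hG]; exact hi0)
  have hu0 : u ≠ 0 := fun h0 => by
    rw [h0, map_zero] at hu1
    exact zero_ne_one hu1
  have hui : B u⁻¹ = 1 := by rw [map_inv₀, hu1, inv_one]
  set y1 : Fin (N + 1) → Ω := fun i => (G i).eval₂ f θ with hy1
  set y : Fin (N + 1) → Ω := u⁻¹ • y1 with hy
  have hG1 : ∀ A : (𝓞 K)[X], B (A.eval₂ f θ) ≤ 1 := fun A => by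
    by_cases hA : h ∣ A.map (Ideal.Quotient.mk v.asIdeal)
    · exact (hval A hA).trans hr1.le
    · exact (hone A hA).le
  have hyi : ∀ i, y i = u⁻¹ * (G i).eval₂ f θ := fun i => rfl
  have hyle : ∀ i, B (y i) ≤ 1 := fun i => by
    rw [hyi, map_mul, hui, one_mul]
    exact hG1 _
  have hzle : ∀ z : Fin (N + 1) → Ω, (∀ i, B (z i - y i) ≤ Real.exp (-lq v)) →
      ∀ i, B (z i) ≤ 1 := fun z hz i => by
    have e : z i = (z i - y i) + y i := by ring
    rw [e]
    exact (hna _ _).trans (max_le ((hz i).trans hr1.le) (hyle i))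
  -- the iterate at `y`
  have hP1 : ∀ i, (phi (mp f F))^[j] y1 i =
      ((phi (mp C F))^[j] G i).eval₂ f θ := by
    intro i
    have e := congrFun (iter_map (Polynomial.eval₂RingHom f θ) (mp C F) G j) i
    have e' : mp (Polynomial.eval₂RingHom f θ) (mp (C : 𝓞 K →+* (𝓞 K)[X]) F) = mp f F := by
      funext i
      show MvPolynomial.map _ (MvPolynomial.map _ _) = _
      rw [MvPolynomial.map_map,
        show (Polynomial.eval₂RingHom f θ).comp (C : 𝓞 K →+* (𝓞 K)[X]) = f from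
          RingHom.ext fun a => by simp]
      rfl
    rw [e'] at e
    exact e.symm
  have hP2 : ∀ i, ((phi (mp (C : 𝓞 K →+* (𝓞 K)[X]) F))^[j] G i).map
      (Ideal.Quotient.mk v.asIdeal) =
      (phi (mp (Polynomial.C.comp (Ideal.Quotient.mk v.asIdeal)) F))^[j] g i := by
    intro i
    have e := congrFun (iter_map (Polynomial.mapRingHom (Ideal.Quotient.mk v.asIdeal))
      (mp (C : 𝓞 K →+* (𝓞 K)[X]) F) G j) i
    have e' : mp (Polynomial.mapRingHom (Ideal.Quotient.mk v.asIdeal))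
        (mp (C : 𝓞 K →+* (𝓞 K)[X]) F) =
        mp (Polynomial.C.comp (Ideal.Quotient.mk v.asIdeal)) F := by
      funext i
      show MvPolynomial.map _ (MvPolynomial.map _ _) = _
      rw [MvPolynomial.map_map,
        show (Polynomial.mapRingHom (Ideal.Quotient.mk v.asIdeal)).comp
          (C : 𝓞 K →+* (𝓞 K)[X]) = C.comp (Ideal.Quotient.mk v.asIdeal) from
          RingHom.ext fun a => by simp]
      rfl
    rw [e'] at e
    have e'' : (fun i => Polynomial.mapRingHom (Ideal.Quotient.mk v.asIdeal) (G i)) = g :=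
      funext fun i => hG i
    rw [e''] at e
    exact e
  have hPy : ∀ i, B ((phi (mp f F))^[j] y i) ≤ Real.exp (-lq v) := by
    intro i
    have hs := congrFun (iter_smul (F := mp f F) (d := d)
      (fun i => (hF i).map f) u⁻¹ y1 j) i
    rw [hy, hs, Pi.smul_apply, smul_eq_mul, map_mul, map_pow, hui, one_pow, one_mul, hP1]
    exact hval _ (by rw [hP2]; exact hj i)
  refine ⟨Ω, inferInstance, inferInstance, B, ι, y, f π, hna, hB, ?_, ?_, ?_, hyle, ?_, ?_⟩
  · intro n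
    obtain ⟨n', hn', hnp, hnv⟩ := aux_prime v n
    have hBn : B (n' : Ω) = 1 := by
      have h1 := hB (algebraMap (𝓞 K) K (n' : 𝓞 K))
      rw [(av_int_eq_one v _).2 hnv] at h1
      rw [← h1]
      congr 1
      simp
    have _j : NeZero ((n' : ℕ) : Ω) := ⟨fun h0 => by
      rw [h0, map_zero] at hBn
      exact zero_ne_one hBn⟩
    obtain ⟨η, hη⟩ := HasEnoughRootsOfUnity.exists_primitiveRoot Ω n'
    obtain ⟨hη1, hη2⟩ := aux_zeta B hna n' hnp.one_lt.le hBn η hη
    refine ⟨fun i => η ^ (i : ℕ), fun i => ?_, fun i j hij => ?_⟩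
    · show B (η ^ (i : ℕ)) ≤ 1
      rw [map_pow, hη1, one_pow]
    · exact hη2 _ _ (by omega) (by omega) (fun e => hij (Fin.ext e))
  · rw [hf, RingHom.comp_apply, hB, hπ]
  · rw [hyi]
    exact inv_mul_cancel₀ hu0
  · intro z hz
    refine nv_le B fun i => ?_
    have e : (phi (mp f F))^[j] z i =
        ((phi (mp f F))^[j] z i - (phi (mp f F))^[j] y i) + (phi (mp f F))^[j] y i := by ring
    rw [e]
    exact (hna _ _).trans (max_le
      (iter_near F B hna f hBf _ hr0 y z hyle (hzle z hz) hz j i) (hPy i))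
  · intro ℓ hℓ z hz
    have hA : B ((∑ i, C (ℓ i) * G i).eval₂ f θ) = 1 := by
      refine hone _ ?_
      rw [Polynomial.map_sum]
      simp only [Polynomial.map_mul, Polynomial.map_C, hG]
      exact hℓ
    have e : ∑ i, ι (algebraMap (𝓞 K) K (ℓ i)) * z i =
        u⁻¹ * (∑ i, C (ℓ i) * G i).eval₂ f θ + ∑ i, f (ℓ i) * (z i - y i) := by
      rw [eval₂_finsetSum, Finset.mul_sum, ← Finset.sum_add_distrib]
      refine Finset.sum_congr rfl fun i _ => ?_
      rw [eval₂_mul, eval₂_C, hyi]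
      show f (ℓ i) * z i = _
      ring
    have h1 : B (u⁻¹ * (∑ i, C (ℓ i) * G i).eval₂ f θ) = 1 := by
      rw [map_mul, hui, hA, one_mul]
    have h2 : B (∑ i, f (ℓ i) * (z i - y i)) ≤ Real.exp (-lq v) := by
      refine Vander_abv_sum_le B hna _ _ _ hr0 fun i _ => ?_
      rw [map_mul]
      calc B (f (ℓ i)) * B (z i - y i) ≤ 1 * Real.exp (-lq v) :=
            mul_le_mul (hBf _) (hz i) (B.nonneg _) zero_le_one
        _ = _ := one_mul _
    rw [e, aux_add_eq B hna (by rw [h1]; exact lt_of_le_of_lt h2 hr1), h1]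

end Pool.Agent.PND
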