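import Pool.Agent.PND.Exch
import Pool.Agent.PND.KPts
import Pool.Agent.PND.Pts
import Pool.Agent.PND.Forms

set_option autoImplicit false

/-!
# The gain at a defective prime
-/

namespace Pool.Agent.PND

open NumberField IsDedekindDomain Pool.Agent.GPoly

theorem geom_ge {d m j B : ℕ} (hd : 2 ≤ d) (hjm : j ≤ m) (σ : Fin (m + 1) → ℕ)
    (hB : ∀ k, σ k < B) (hs : ∑ k : Fin (m + 1), σ k * d ^ (k : ℕ) = d ^ m) :
    d ^ (m - j) ≤
      ∑ k : Fin (m + 1), σ k * (if j ≤ (k : ℕ) then d ^ ((k : ℕ) - j) else 0) + B := by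
  have h1 : ∀ k : Fin (m + 1), σ k * d ^ (k : ℕ) ≤
      d ^ j * (σ k * (if j ≤ (k : ℕ) then d ^ ((k : ℕ) - j) else 0)) +
        B * (if (k : ℕ) < j then d ^ (k : ℕ) else 0) := by
    intro k
    rcases le_or_gt j (k : ℕ) with h | h
    · rw [if_pos h, if_neg (by omega)]
      have h2 : d ^ (k : ℕ) = d ^ j * d ^ ((k : ℕ) - j) := by
        rw [← pow_add]
        congr 1
        omega
      rw [h2]
      apply le_of_eq
      ring
    · rw [if_neg (by omega), if_pos h]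
      have := Nat.mul_le_mul_right (d ^ (k : ℕ)) (hB k).le
      omega
  have h3 : ∑ k : Fin (m + 1), (if (k : ℕ) < j then d ^ (k : ℕ) else 0) ≤ d ^ j := by
    rw [Fin.sum_univ_eq_sum_range (fun k => if k < j then d ^ k else 0), ← Finset.sum_filter]
    exact (Nat.geomSum_lt hd (fun k hk => (Finset.mem_filter.1 hk).2)).le
  have h4 : d ^ m ≤ d ^ j *
      (∑ k : Fin (m + 1), σ k * (if j ≤ (k : ℕ) then d ^ ((k : ℕ) - j) else 0) + B) := by
    calc d ^ m = ∑ k : Fin (m + 1), σ k * d ^ (k : ℕ) := hs.symm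
      _ ≤ ∑ k : Fin (m + 1), (d ^ j * (σ k * (if j ≤ (k : ℕ) then d ^ ((k : ℕ) - j) else 0)) +
        B * (if (k : ℕ) < j then d ^ (k : ℕ) else 0)) := Finset.sum_le_sum fun k _ => h1 k
      _ = d ^ j * ∑ k : Fin (m + 1), σ k * (if j ≤ (k : ℕ) then d ^ ((k : ℕ) - j) else 0) +
          B * ∑ k : Fin (m + 1), (if (k : ℕ) < j then d ^ (k : ℕ) else 0) := by
        rw [Finset.sum_add_distrib, Finset.mul_sum, Finset.mul_sum]
      _ ≤ d ^ j * ∑ k : Fin (m + 1), σ k * (if j ≤ (k : ℕ) then d ^ ((k : ℕ) - j) else 0) +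
          B * d ^ j := by
        have := Nat.mul_le_mul_left B h3
        omega
      _ = _ := by ring
  have h5 : d ^ m = d ^ j * d ^ (m - j) := by
    rw [← pow_add]
    congr 1
    omega
  rw [h5] at h4
  exact Nat.le_of_mul_le_mul_left h4 (by positivity)

theorem PP_near_le {L : Type*} [Field L] (abv : AbsoluteValue L ℝ) (hna : IsNonarchimedean abv)
    {N d m B j : ℕ} (hd : 2 ≤ d) (hjm : j ≤ m) {F : Fin (N + 1) → MvPolynomial (Fin (N + 1)) L}
    (hF : ∀ i, (F i).IsHomogeneous d) (hc : ∀ i α, abv (MvPolynomial.coeff α (F i)) ≤ 1)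
    (a : Fin (m + 1) → Fin (N + 1) → ℕ) (ha : Adm d B (d ^ m) a) (z : Fin (N + 1) → L)
    (hz : nv abv z ≤ 1) (l : ℝ) (hl : 0 ≤ l) (hzj : nv abv ((phi F)^[j] z) ≤ Real.exp (-l)) :
    abv (MvPolynomial.eval z (PP F a)) ≤ Real.exp (-(l * ((d : ℝ) ^ (m - j) - B))) := by
  have h1 : ∀ k : Fin (m + 1), nv abv ((phi F)^[(k : ℕ)] z) ≤
      Real.exp (-(l * ((if j ≤ (k : ℕ) then d ^ ((k : ℕ) - j) else 0 : ℕ) : ℝ))) := by
    intro k
    rcases le_or_gt j (k : ℕ) with h | h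
    · rw [if_pos h]
      have h2 : (phi F)^[(k : ℕ)] z = (phi F)^[(k : ℕ) - j] ((phi F)^[j] z) := by
        rw [← Function.iterate_add_apply]
        congr 2
        omega
      rw [h2]
      refine (nv_iter_le abv hna hF hc _ _).trans ?_
      calc nv abv ((phi F)^[j] z) ^ d ^ ((k : ℕ) - j) ≤ Real.exp (-l) ^ d ^ ((k : ℕ) - j) :=
            pow_le_pow_left₀ (nv_nonneg _ _) hzj _
        _ = Real.exp (-(l * ((d ^ ((k : ℕ) - j) : ℕ) : ℝ))) := by
            rw [← Real.exp_nat_mul]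
            congr 1
            ring
    · rw [if_neg (by omega)]
      refine (nv_iter_le abv hna hF hc _ _).trans ?_
      simpa using pow_le_one₀ (nv_nonneg _ _) hz
  have h3 : abv (MvPolynomial.eval z (PP F a)) ≤ ∏ k : Fin (m + 1),
      Real.exp (-(l * ((if j ≤ (k : ℕ) then d ^ ((k : ℕ) - j) else 0 : ℕ) : ℝ))) ^
        (∑ i, a k i) := by
    rw [eval_PP, map_prod]
    refine Finset.prod_le_prod (fun k _ => abv.nonneg _) fun k _ => ?_
    rw [map_prod, ← Finset.prod_pow_eq_pow_sum]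
    refine Finset.prod_le_prod (fun i _ => abv.nonneg _) fun i _ => ?_
    rw [map_pow]
    exact pow_le_pow_left₀ (abv.nonneg _) ((le_nv abv _ i).trans (h1 k)) _
  refine h3.trans ?_
  have h4 := geom_ge hd hjm (fun k => ∑ i, a k i) ha.1 ha.2
  have h5 : ((d : ℝ) ^ (m - j)) ≤ ∑ k : Fin (m + 1), ((∑ i, a k i : ℕ) : ℝ) *
      ((if j ≤ (k : ℕ) then d ^ ((k : ℕ) - j) else 0 : ℕ) : ℝ) + B := by exact_mod_cast h4
  calc ∏ k : Fin (m + 1),
      Real.exp (-(l * ((if j ≤ (k : ℕ) then d ^ ((k : ℕ) - j) else 0 : ℕ) : ℝ))) ^ (∑ i, a k i)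
      = Real.exp (∑ k : Fin (m + 1), ((∑ i, a k i : ℕ) : ℝ) *
          (-(l * ((if j ≤ (k : ℕ) then d ^ ((k : ℕ) - j) else 0 : ℕ) : ℝ)))) := by
        rw [Real.exp_sum]
        refine Finset.prod_congr rfl fun k _ => ?_
        rw [Real.exp_nat_mul]
    _ ≤ Real.exp (-(l * ((d : ℝ) ^ (m - j) - B))) := by
        refine Real.exp_le_exp.2 ?_
        have h6 : ∑ k : Fin (m + 1), ((∑ i, a k i : ℕ) : ℝ) *
            (-(l * ((if j ≤ (k : ℕ) then d ^ ((k : ℕ) - j) else 0 : ℕ) : ℝ))) =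
            -(l * ∑ k : Fin (m + 1), ((∑ i, a k i : ℕ) : ℝ) *
              ((if j ≤ (k : ℕ) then d ^ ((k : ℕ) - j) else 0 : ℕ) : ℝ)) := by
          rw [Finset.mul_sum, ← Finset.sum_neg_distrib]
          refine Finset.sum_congr rfl fun k _ => ?_
          ring
        rw [h6]
        have h7 := mul_le_mul_of_nonneg_left (sub_le_iff_le_add.2 h5) hl
        linarith

/-! ### Numbers -/

theorem two_mul_le_pow {N d t : ℕ} (hd : 2 ≤ d) : 2 * (N * d ^ t) ≤ d ^ (N + 1 + t) := by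
  have h1 : N ≤ 2 ^ N := Nat.lt_two_pow_self.le
  have h2 : 2 ^ N ≤ d ^ N := Nat.pow_le_pow_left hd N
  calc 2 * (N * d ^ t) ≤ d * (d ^ N * d ^ t) :=
        Nat.mul_le_mul hd (Nat.mul_le_mul_right _ (h1.trans h2))
    _ = d ^ (N + 1 + t) := by ring

theorem sum_geom_mul {d : ℕ} (hd : 1 ≤ d) (m : ℕ) :
    (∑ i ∈ Finset.range m, d ^ i) * (d - 1) + 1 = d ^ m := by
  obtain ⟨e, rfl⟩ : ∃ e, d = e + 1 := ⟨d - 1, by omega⟩
  simpa using geom_sum_mul_add e m

theorem room {N d k m q t : ℕ} (hd : 2 ≤ d) (hm : m = k + N + 1 + t) (hq : q + 2 ≤ d) :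
    q * (∑ i ∈ Finset.range m, d ^ i) + N * (d ^ t - 1) ≤ d ^ m := by
  have h1 := sum_geom_mul (by omega : 1 ≤ d) m
  have h2 : d ^ (m - 1) ≤ ∑ i ∈ Finset.range m, d ^ i :=
    Finset.single_le_sum (f := fun i => d ^ i) (fun _ _ => Nat.zero_le _)
      (Finset.mem_range.2 (by omega))
  have h3 : N * d ^ t ≤ d ^ (m - 1) := by
    have h4 : N ≤ d ^ N := Nat.lt_two_pow_self.le.trans (Nat.pow_le_pow_left hd N)
    calc N * d ^ t ≤ d ^ N * d ^ t := Nat.mul_le_mul_right _ h4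
      _ = d ^ (N + t) := by rw [pow_add]
      _ ≤ d ^ (m - 1) := Nat.pow_le_pow_right (by omega) (by omega)
  have h5 : N * (d ^ t - 1) ≤ N * d ^ t := Nat.mul_le_mul_left _ (Nat.sub_le _ _)
  have h6 : (q + 1) * (∑ i ∈ Finset.range m, d ^ i) ≤
      (∑ i ∈ Finset.range m, d ^ i) * (d - 1) := by
    rw [mul_comm]
    exact Nat.mul_le_mul_left _ (by omega)
  have h7 : (q + 1) * (∑ i ∈ Finset.range m, d ^ i) =
      q * (∑ i ∈ Finset.range m, d ^ i) + ∑ i ∈ Finset.range m, d ^ i := by ring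
  omega

theorem real_geom {d : ℕ} (hd : 2 ≤ d) (m : ℕ) :
    ((∑ i ∈ Finset.range m, d ^ i : ℕ) : ℝ) = ((d : ℝ) ^ m - 1) / (d - 1) := by
  have h1 := sum_geom_mul (by omega : 1 ≤ d) m
  have h2 : ((∑ i ∈ Finset.range m, d ^ i : ℕ) : ℝ) * ((d : ℝ) - 1) + 1 = (d : ℝ) ^ m := by
    have h3 : ((d - 1 : ℕ) : ℝ) = (d : ℝ) - 1 := by
      rw [Nat.cast_sub (by omega)]
      simp
    rw [← h3]
    exact_mod_cast h1
  have h4 : (0 : ℝ) < (d : ℝ) - 1 := by
    have : (2 : ℝ) ≤ d := by exact_mod_cast hd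
    linarith
  rw [eq_div_iff h4.ne']
  linarith

/-- The final computation. -/
theorem num_final {N d k m t B : ℕ} (hd : 2 ≤ d) (hm : m = k + N + 1 + t) (ρ : ℝ)
    (hρ : ρ ≤ (d : ℝ) ^ (m - k) / 2) :
    1 / (4 * (d : ℝ) ^ (k + N * (k + N + 1))) * ((d : ℝ) ^ m) ^ (N + 1) -
        B * ((d : ℝ) ^ m) ^ N ≤
      ((d ^ t : ℕ) : ℝ) ^ N * ((d : ℝ) ^ (m - k) - B - ρ - N * (((d ^ t : ℕ) : ℝ) - 1) / 2) := by
  have hd0 : (0 : ℝ) < d := by
    have : (2 : ℝ) ≤ d := by exact_mod_cast hd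
    linarith
  have hd1 : (1 : ℝ) ≤ d := by
    have : (2 : ℝ) ≤ d := by exact_mod_cast hd
    linarith
  have h1 : 1 / (4 * (d : ℝ) ^ (k + N * (k + N + 1))) * ((d : ℝ) ^ m) ^ (N + 1) =
      ((d : ℝ) ^ t) ^ N * ((d : ℝ) ^ (m - k) / 4) := by
    have h2 : ((d : ℝ) ^ m) ^ (N + 1) =
        (d : ℝ) ^ (k + N * (k + N + 1)) * (((d : ℝ) ^ t) ^ N * (d : ℝ) ^ (m - k)) := by
      rw [← pow_mul, ← pow_mul, ← pow_add, ← pow_add]
      congr 1
      have h3 : m - k = N + 1 + t := by omega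
      rw [h3, hm]
      ring
    rw [h2]
    have h4 : (d : ℝ) ^ (k + N * (k + N + 1)) ≠ 0 := by positivity
    field_simp
  have h5 : 2 * (N * (d : ℝ) ^ t) ≤ (d : ℝ) ^ (m - k) := by
    have h6 : m - k = N + 1 + t := by omega
    rw [h6]
    exact_mod_cast two_mul_le_pow (N := N) (t := t) hd
  have h7 : ((d : ℝ) ^ t) ^ N ≤ ((d : ℝ) ^ m) ^ N :=
    pow_le_pow_left₀ (by positivity) (pow_le_pow_right₀ hd1 (by omega)) _
  have h8 : (0 : ℝ) ≤ ((d : ℝ) ^ t) ^ N := by positivity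
  have hB : (0 : ℝ) ≤ B := Nat.cast_nonneg _
  have hN : (0 : ℝ) ≤ N := Nat.cast_nonneg _
  rw [h1]
  push_cast
  have h9 : (d : ℝ) ^ (m - k) / 4 - B ≤
      (d : ℝ) ^ (m - k) - B - ρ - N * ((d : ℝ) ^ t - 1) / 2 := by
    nlinarith
  have h10 := mul_le_mul_of_nonneg_left h9 h8
  have h11 := mul_le_mul_of_nonneg_left h7 hB
  linarith

/-! ### The points over `K` -/

theorem phi_zero {R : Type*} [CommRing R] {N d : ℕ} (hd : d ≠ 0)
    {F : Fin (N + 1) → MvPolynomial (Fin (N + 1)) R} (hF : ∀ i, (F i).IsHomogeneous d) :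
    phi F 0 = 0 := by
  have h := phi_smul hF 0 0
  rwa [zero_smul, zero_pow hd, zero_smul] at h

/-- The weight of the test forms. -/
noncomputable def rho {K : Type} [Field K] [NumberField K] (d k m : ℕ)
    (v : HeightOneSpectrum (𝓞 K)) : ℝ :=
  if d = 2 then 0 else lq v * (((d : ℝ) ^ (m - k) - 1) / (d - 1))

theorem rho_nonneg {K : Type} [Field K] [NumberField K] {d k m : ℕ} (hd : 2 ≤ d)
    (v : HeightOneSpectrum (𝓞 K)) : 0 ≤ rho d k m v := by
  rw [rho]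
  split_ifs with h
  · exact le_rfl
  · have h1 : (2 : ℝ) ≤ d := by exact_mod_cast hd
    have h2 : (1 : ℝ) ≤ (d : ℝ) ^ (m - k) := one_le_pow₀ (by linarith)
    exact mul_nonneg (lq_pos v).le (div_nonneg (by linarith) (by linarith))

theorem rho_le {K : Type} [Field K] [NumberField K] {d k m : ℕ} (hd : 2 ≤ d)
    (v : HeightOneSpectrum (𝓞 K)) : rho d k m v ≤ lq v * ((d : ℝ) ^ (m - k) / 2) := by
  have h1 : (2 : ℝ) ≤ d := by exact_mod_cast hd
  have h2 : (1 : ℝ) ≤ (d : ℝ) ^ (m - k) := one_le_pow₀ (by linarith)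
  rw [rho]
  split_ifs with h
  · exact mul_nonneg (lq_pos v).le (by linarith)
  · have h3 : 3 ≤ d := by omega
    have h4 : (3 : ℝ) ≤ d := by exact_mod_cast h3
    refine mul_le_mul_of_nonneg_left ?_ (lq_pos v).le
    rw [div_le_div_iff₀ (by linarith) (by norm_num)]
    nlinarith

theorem kpt_bound {K : Type} [Field K] [NumberField K] {N d k m n1 q : ℕ} (hd : 2 ≤ d)
    (hk : 1 ≤ k) (hkm : k ≤ m) (F : Fin (N + 1) → MvPolynomial (Fin (N + 1)) (𝓞 K))
    (hF : ∀ i, (F i).IsHomogeneous d) (v : HeightOneSpectrum (𝓞 K))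
    (h2 : ∀ x : Fin (N + 1) → 𝓞 K, (∃ i, x i ∉ v.asIdeal) → ∃ i, phi F x i ∉ v.asIdeal ^ 2)
    (Z : Finset (Fin (N + 1) → 𝓞 K ⧸ v.asIdeal)) (hZc : Z.card + 2 ≤ d)
    (hZ : ∀ x : Fin (N + 1) → 𝓞 K ⧸ v.asIdeal, x ≠ 0 →
      (phi (mp (Ideal.Quotient.mk v.asIdeal) F))^[k] x = 0 → ∃ z ∈ Z, z ≠ 0 ∧ Par x z)
    (ℓ : Fin q → Fin (N + 1) → 𝓞 K)
    (hℓ : ∀ z ∈ Z, z ≠ 0 → ∃ (s : Fin q) (z' : Fin (N + 1) → 𝓞 K) (i₁ i₂ : Fin (N + 1)),
      (∀ i, Ideal.Quotient.mk v.asIdeal (z' i) = z i) ∧ ∀ w : Fin (N + 1) → K,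
        ∑ i, algebraMap (𝓞 K) K (ℓ s i) * w i =
          algebraMap (𝓞 K) K (z' i₂) * w i₁ - algebraMap (𝓞 K) K (z' i₁) * w i₂)
    (hn1 : (n1 : ℝ) = ((d : ℝ) ^ m - 1) / (d - 1)) (x : Fin (N + 1) → K)
    (hx : nv (av v) x = 1) :
    ∏ s, av v (∑ i, algebraMap (𝓞 K) K (ℓ s i) * x i) ^ n1 ≤
      Real.exp (rho d k m v) * nv (av v) ((phi (mp (algebraMap (𝓞 K) K) F))^[m] x) := by
  classical
  have hle1 : ∀ s, av v (∑ i, algebraMap (𝓞 K) K (ℓ s i) * x i) ≤ 1 := by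
    intro s
    refine sum_le_of_na (av v) (av_nonarch v) _ _ 1 zero_le_one fun i _ => ?_
    rw [map_mul]
    exact mul_le_one₀ (av_int_le_one v _) ((av v).nonneg _) (hx ▸ le_nv (av v) x i)
  have hf0 : ∀ s, 0 ≤ av v (∑ i, algebraMap (𝓞 K) K (ℓ s i) * x i) ^ n1 :=
    fun s => pow_nonneg ((av v).nonneg _) _
  have hf1 : ∀ s, av v (∑ i, algebraMap (𝓞 K) K (ℓ s i) * x i) ^ n1 ≤ 1 :=
    fun s => pow_le_one₀ ((av v).nonneg _) (hle1 s)
  have hprod1 : ∏ s, av v (∑ i, algebraMap (𝓞 K) K (ℓ s i) * x i) ^ n1 ≤ 1 :=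
    Finset.prod_le_one (fun s _ => hf0 s) (fun s _ => hf1 s)
  by_cases hd2 : d = 2
  · have hcard : Z = ∅ := Finset.card_eq_zero.1 (by omega)
    have h1 : ∀ x : Fin (N + 1) → 𝓞 K ⧸ v.asIdeal, x ≠ 0 →
        phi (mp (Ideal.Quotient.mk v.asIdeal) F) x ≠ 0 := by
      intro x hx h0
      obtain ⟨k', rfl⟩ : ∃ k', k = k' + 1 := ⟨k - 1, by omega⟩
      obtain ⟨z, hz, -⟩ := hZ x hx (by
        rw [Function.iterate_succ_apply, h0]
        exact Function.iterate_fixed (phi_zero (by omega) (mp_homog _ hF)) k')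
      rw [hcard] at hz
      simp at hz
    rw [kpts_eq F v hF h1 x hx m, mul_one, rho, if_pos hd2, Real.exp_zero]
    exact hprod1
  · have hrho : rho d k m v = lq v * (((d : ℝ) ^ (m - k) - 1) / (d - 1)) := by
      rw [rho, if_neg hd2]
    by_cases hxk : nv (av v) ((phi (mp (algebraMap (𝓞 K) K) F))^[k] x) = 1
    · have h3 := kpts_ge' F v hd hF h2 k x hxk m hkm
      rw [← hrho, Real.exp_neg] at h3
      refine hprod1.trans ?_
      have h4 := mul_le_mul_of_nonneg_left h3 (Real.exp_pos (rho d k m v)).le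
      rwa [mul_inv_cancel₀ (Real.exp_pos _).ne'] at h4
    · obtain ⟨z, hz, hz0, hzx⟩ := kpts_zero F v hF k Z hZ x hx hxk
      obtain ⟨s₀, z', i₁, i₂, hz', hw⟩ := hℓ z hz hz0
      have h3 : av v (∑ i, algebraMap (𝓞 K) K (ℓ s₀ i) * x i) ≤ Real.exp (-lq v) := by
        rw [hw x]
        have := hzx z' hz' i₁ i₂
        rwa [mul_comm (x i₁), mul_comm (x i₂)] at this
      have h4 : ∏ s, av v (∑ i, algebraMap (𝓞 K) K (ℓ s i) * x i) ^ n1 ≤
          Real.exp (-lq v) ^ n1 := by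
        rw [← Finset.mul_prod_erase Finset.univ _ (Finset.mem_univ s₀)]
        calc _ ≤ av v (∑ i, algebraMap (𝓞 K) K (ℓ s₀ i) * x i) ^ n1 * 1 :=
              mul_le_mul_of_nonneg_left (Finset.prod_le_one (fun s _ => hf0 s)
                (fun s _ => hf1 s)) (hf0 s₀)
          _ ≤ _ := by
              rw [mul_one]
              exact pow_le_pow_left₀ ((av v).nonneg _) h3 _
      have h5 := kpts_ge F v hd hF h2 x hx m
      have h6 : Real.exp (-lq v) ^ n1 = Real.exp (-(lq v * (((d : ℝ) ^ m - 1) / (d - 1)))) := by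
        rw [← Real.exp_nat_mul, hn1]
        congr 1
        ring
      rw [h6] at h4
      refine (h4.trans h5).trans ?_
      have h7 : 1 ≤ Real.exp (rho d k m v) := Real.one_le_exp (rho_nonneg hd v)
      have h8 := nv_nonneg (av v) ((phi (mp (algebraMap (𝓞 K) K) F))^[m] x)
      nlinarith

/-! ### The gain -/

theorem eval_map_comp {R S : Type*} [CommRing R] [CommRing S] {N : ℕ} (f : R →+* S)
    (P : MvPolynomial (Fin (N + 1)) R) (x : Fin (N + 1) → R) :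
    MvPolynomial.eval (fun i => f (x i)) (MvPolynomial.map f P) = f (MvPolynomial.eval x P) := by
  simp only [MvPolynomial.eval_map]
  rw [← MvPolynomial.eval₂_id, MvPolynomial.eval₂_comp_left]
  simp only [RingHom.comp_id]
  rfl

theorem form_sum {A B : Type*} [CommRing A] [CommRing B] {N : ℕ} (f : A →+* B)
    (z : Fin (N + 1) → A) (i₁ i₂ : Fin (N + 1)) (w : Fin (N + 1) → B) :
    ∑ i, f ((if i = i₁ then z i₂ else 0) - (if i = i₂ then z i₁ else 0)) * w i =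
      f (z i₂) * w i₁ - f (z i₁) * w i₂ := by
  simp only [map_sub, sub_mul, Finset.sum_sub_distrib]
  congr 1
  · rw [Finset.sum_eq_single i₁ (fun i _ hi => by rw [if_neg hi, map_zero, zero_mul])
      (fun h => absurd (Finset.mem_univ _) h), if_pos rfl]
  · rw [Finset.sum_eq_single i₂ (fun i _ hi => by rw [if_neg hi, map_zero, zero_mul])
      (fun h => absurd (Finset.mem_univ _) h), if_pos rfl]

theorem local_gain {N d k B m : ℕ} (hN : 1 ≤ N) (hd : 2 ≤ d) (hm : k + N + 1 ≤ m) {K : Type}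
    [Field K] [NumberField K] (F : Fin (N + 1) → MvPolynomial (Fin (N + 1)) (𝓞 K))
    (hF : ∀ i, (F i).IsHomogeneous d)
    (hnz : ∀ z, phi (mp (algebraMap (𝓞 K) K) F) z = 0 → z = 0) (v : HeightOneSpectrum (𝓞 K))
    (hdef : Defective d k F v) (R : ℕ) (a : Fin R → Fin (m + 1) → Fin (N + 1) → ℕ)
    (ha : ∀ i, Adm d B (d ^ m) (a i))
    (hspan : ∀ (Ω : Type) [Field Ω] (f : K →+* Ω) (Q : MvPolynomial (Fin (N + 1)) Ω),
      Q.IsHomogeneous (d ^ m) → ∃ c : Fin R → Ω,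
        Q = ∑ i, c i • MvPolynomial.map f (PP (mp (algebraMap (𝓞 K) K) F) (a i)))
    (x : Fin R → Fin (N + 1) → K) (hx : ∀ i, x i ≠ 0)
    (hdet : (Matrix.of fun i j =>
      MvPolynomial.eval (x j) (PP (mp (algebraMap (𝓞 K) K) F) (a i))).det ≠ 0)
    (r : Fin R → ℝ) (hr : ∀ i, 0 ≤ r i)
    (hrow : ∀ i (z : Fin (N + 1) → K), z ≠ 0 →
      av v (MvPolynomial.eval z (PP (mp (algebraMap (𝓞 K) K) F) (a i))) ≤
        Real.exp (r i) * nv (av v) ((phi (mp (algebraMap (𝓞 K) K) F))^[m] z)) :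
    Real.log (av v (Matrix.of fun i j =>
      MvPolynomial.eval (x j) (PP (mp (algebraMap (𝓞 K) K) F) (a i))).det) ≤
      ∑ i, Real.log (nv (av v) ((phi (mp (algebraMap (𝓞 K) K) F))^[m] (x i))) + ∑ i, r i -
      lq v * (1 / (4 * (d : ℝ) ^ (k + N * (k + N + 1))) * ((d : ℝ) ^ m) ^ (N + 1) -
        B * ((d : ℝ) ^ m) ^ N) := by
  classical
  obtain ⟨h2, ⟨Z, hZc, hZ⟩, h, g, hirr, ⟨i0, hi0⟩, hgk, hsep⟩ := hdef
  have hk : 1 ≤ k := by
    by_contra hk0
    have hk1 : k = 0 := by omega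
    subst hk1
    exact hi0 (hgk i0)
  have hkm : k ≤ m := by omega
  obtain ⟨Ω, hΩ, -, abv, ι, y, ϖ, hna, hι, ht, hϖ, hy0, hy1, hnear, hform⟩ :=
    exists_pts v F hF h hirr g i0 hi0 k hgk
  have hlq := (lq_pos v).le
  -- the linear forms
  have hlin : ∀ z : Fin (N + 1) → 𝓞 K ⧸ v.asIdeal, z ≠ 0 →
      ∃ (ℓ z' : Fin (N + 1) → 𝓞 K) (i₁ i₂ : Fin (N + 1)),
      (∀ i, Ideal.Quotient.mk v.asIdeal (z' i) = z i) ∧
      (∀ w : Fin (N + 1) → K, ∑ i, algebraMap (𝓞 K) K (ℓ i) * w i =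
          algebraMap (𝓞 K) K (z' i₂) * w i₁ - algebraMap (𝓞 K) K (z' i₁) * w i₂) ∧
      ¬ h ∣ ∑ i, Polynomial.C (Ideal.Quotient.mk v.asIdeal (ℓ i)) * g i := by
    intro z hz
    obtain ⟨i₁, i₂, hi⟩ := hsep z hz
    choose z' hz' using fun i => Ideal.Quotient.mk_surjective (z i)
    refine ⟨fun i => (if i = i₁ then z' i₂ else 0) - (if i = i₂ then z' i₁ else 0), z', i₁, i₂,
      hz', fun w => form_sum _ z' i₁ i₂ w, ?_⟩
    have h3 := form_sum (Polynomial.C.comp (Ideal.Quotient.mk v.asIdeal)) z' i₁ i₂ g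
    simp only [RingHom.comp_apply] at h3
    rw [h3, hz', hz', mul_comm _ (g i₁), mul_comm _ (g i₂)]
    exact hi
  choose! lin lf j₁ j₂ hl1 hl2 hl3 using hlin
  obtain ⟨q, hq, ℓ, hℓ, hℓ'⟩ : ∃ q : ℕ, q + 2 ≤ d ∧ ∃ ℓ : Fin q → Fin (N + 1) → 𝓞 K,
      (∀ z ∈ Z, z ≠ 0 → ∃ s, ℓ s = lin z) ∧
      ∀ s, ¬ h ∣ ∑ i, Polynomial.C (Ideal.Quotient.mk v.asIdeal (ℓ s i)) * g i := by
    refine ⟨(Z.filter (· ≠ 0)).card, le_trans (by gcongr; exact Finset.filter_subset _ _) hZc,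
      fun s => lin ((Z.filter (· ≠ 0)).equivFin.symm s).1, fun z hz hz0 => ?_, fun s => ?_⟩
    · exact ⟨(Z.filter (· ≠ 0)).equivFin ⟨z, Finset.mem_filter.2 ⟨hz, hz0⟩⟩, by simp⟩
    · exact hl3 _ (Finset.mem_filter.1 ((Z.filter (· ≠ 0)).equivFin.symm s).2).2
  set n1 : ℕ := ∑ i ∈ Finset.range m, d ^ i with hn1
  obtain ⟨t, hmt⟩ : ∃ t, m = k + N + 1 + t := ⟨m - (k + N + 1), by omega⟩
  obtain ⟨θ, hθ1, hθ2⟩ := ht (d ^ t)
  obtain ⟨f, Y, hfh, hY, hdetY, hfx⟩ := exists_forms abv hna (N := N) (b := d ^ t) (n := d ^ m)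
    (n1 := n1) (q := q) (room hd hmt hq) i0 y hy0 hy1 ϖ (lq v) hlq hϖ θ hθ1 hθ2
    (fun s i => ι (algebraMap (𝓞 K) K (ℓ s i))) (fun s z hz => hform (ℓ s) (hℓ' s) z hz)
  -- the test forms at the points over `K`
  have hfK : ∀ β (w : Fin (N + 1) → K), w ≠ 0 →
      abv (MvPolynomial.eval (fun i => ι (w i)) (f β)) ≤
        Real.exp (rho d k m v) * nv (av v) ((phi (mp (algebraMap (𝓞 K) K) F))^[m] w) := by
    have hprim : ∀ β (w : Fin (N + 1) → K), nv (av v) w = 1 →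
        abv (MvPolynomial.eval (fun i => ι (w i)) (f β)) ≤
        Real.exp (rho d k m v) * nv (av v) ((phi (mp (algebraMap (𝓞 K) K) F))^[m] w) := by
      intro β w hw
      have h3 : nv abv (fun i => ι (w i)) = 1 := by
        rw [← hw]
        simp only [nv, hι]
      refine (hfx β _ h3).trans ?_
      have h4 := kpt_bound (n1 := n1) (q := q) hd hk hkm F hF v h2 Z hZc hZ ℓ
        (fun z hz hz0 => by
          obtain ⟨s, hs⟩ := hℓ z hz hz0
          exact ⟨s, lf z, j₁ z, j₂ z, hl1 z hz0, fun w => by rw [hs]; exact hl2 z hz0 w⟩)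
        (real_geom hd m) w hw
      refine le_trans (le_of_eq ?_) h4
      refine Finset.prod_congr rfl fun s _ => ?_
      have h5 : ∑ i, ι (algebraMap (𝓞 K) K (ℓ s i)) * ι (w i) =
          ι (∑ i, algebraMap (𝓞 K) K (ℓ s i) * w i) := by
        rw [map_sum]
        exact Finset.sum_congr rfl fun i _ => (map_mul ι _ _).symm
      rw [← hι, ← h5]
    intro β w hw
    obtain ⟨i₁, hi₁⟩ := exists_nv (av v) w
    have hc0 : w i₁ ≠ 0 := by
      intro h0
      rw [h0, map_zero] at hi₁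
      exact absurd hi₁ (nv_pos (av v) hw).ne
    set w' : Fin (N + 1) → K := (w i₁)⁻¹ • w with hw'
    have hww : w = w i₁ • w' := by
      rw [hw', smul_smul, mul_inv_cancel₀ hc0, one_smul]
    have hw1 : nv (av v) w' = 1 := by
      rw [hw', nv_smul, map_inv₀, ← hi₁]
      exact inv_mul_cancel₀ ((av v).ne_zero hc0)
    have h3 := hprim β w' hw1
    have h4 : (fun i => ι (w i)) = ι (w i₁) • (fun i => ι (w' i)) := by
      funext i
      conv_lhs => rw [hww]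
      simp
    have h5 : nv (av v) ((phi (mp (algebraMap (𝓞 K) K) F))^[m] w) =
        av v (w i₁) ^ d ^ m * nv (av v) ((phi (mp (algebraMap (𝓞 K) K) F))^[m] w') := by
      conv_lhs => rw [hww]
      rw [iter_smul (mp_homog _ hF), nv_smul, map_pow]
    rw [h4, eval_smul_homog (hfh β), map_mul, map_pow, hι, h5]
    calc av v (w i₁) ^ d ^ m * abv (MvPolynomial.eval (fun i => ι (w' i)) (f β))
        ≤ av v (w i₁) ^ d ^ m * (Real.exp (rho d k m v) *
          nv (av v) ((phi (mp (algebraMap (𝓞 K) K) F))^[m] w')) :=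
          mul_le_mul_of_nonneg_left h3 (pow_nonneg ((av v).nonneg _) _)
      _ = _ := by ring
  -- the matrices
  have hupos : ∀ j, 0 < nv (av v) ((phi (mp (algebraMap (𝓞 K) K) F))^[m] (x j)) := fun j =>
    nv_pos _ (iter_ne_zero hnz (hx j) m)
  choose c hc using fun β => hspan Ω ι (f β) (hfh β)
  set X : Matrix (Fin R) (Fin R) Ω := Matrix.of fun i j =>
    ι (MvPolynomial.eval (x j) (PP (mp (algebraMap (𝓞 K) K) F) (a i))) with hXdef
  set Py : Matrix (Fin R) (Fin N → Fin (d ^ t)) Ω := Matrix.of fun i γ =>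
    MvPolynomial.eval (Y γ) (MvPolynomial.map ι (PP (mp (algebraMap (𝓞 K) K) F) (a i)))
    with hPdef
  set Cm : Matrix (Fin N → Fin (d ^ t)) (Fin R) Ω := Matrix.of fun β i => c β i with hCdef
  have hCX : ∀ β j, (Cm * X) β j = MvPolynomial.eval (fun i => ι (x j i)) (f β) := by
    intro β j
    conv_rhs => rw [hc β]
    rw [Matrix.mul_apply, map_sum]
    refine Finset.sum_congr rfl fun i _ => ?_
    rw [MvPolynomial.smul_eval, eval_map_comp]
    rfl
  have hCP : Cm * Py = Matrix.of fun β γ => MvPolynomial.eval (Y γ) (f β) := by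
    ext β γ
    rw [Matrix.mul_apply, Matrix.of_apply]
    conv_rhs => rw [hc β]
    rw [map_sum]
    refine Finset.sum_congr rfl fun i _ => ?_
    rw [MvPolynomial.smul_eval]
    rfl
  have hXdet : X.det = ι (Matrix.of fun i j =>
      MvPolynomial.eval (x j) (PP (mp (algebraMap (𝓞 K) K) F) (a i))).det := by
    rw [RingHom.map_det]
    rfl
  have hex := exchange abv hna X Py Cm r
    (fun j => Real.log (nv (av v) ((phi (mp (algebraMap (𝓞 K) K) F))^[m] (x j))))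
    (-(lq v * ((d : ℝ) ^ (m - k) - B))) (rho d k m v) hr (by
      intro i j
      rw [Real.exp_add, Real.exp_log (hupos j)]
      show abv (ι _) ≤ _
      rw [hι]
      exact hrow i (x j) (hx j)) (by
      intro i γ
      show abv (MvPolynomial.eval (Y γ) (MvPolynomial.map ι _)) ≤ _
      rw [map_PP]
      refine PP_near_le abv hna hd hkm (mp_homog _ (mp_homog _ hF)) (fun i α => ?_) (a i) (ha i)
        (Y γ) ?_ (lq v) hlq ?_
      · simp only [mp, MvPolynomial.coeff_map, hι]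
        exact av_int_le_one v _
      · refine nv_le abv fun i => ?_
        have h3 : Y γ i = (Y γ i - y i) + y i := by ring
        rw [h3]
        refine (hna _ _).trans (max_le ((hY γ i).trans ?_) (hy1 i))
        rw [Real.exp_le_one_iff]
        linarith
      · have h3 : mp ι (mp (algebraMap (𝓞 K) K) F) = mp (ι.comp (algebraMap (𝓞 K) K)) F := by
          funext i
          simp only [mp, MvPolynomial.map_map]
        rw [h3]
        exact hnear (Y γ) (hY γ)) (by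
      intro β j
      rw [hCX, Real.exp_add, Real.exp_log (hupos j)]
      exact hfK β (x j) (hx j))
  rw [hXdet, hι, hCP, hdetY] at hex
  have hdpos : 0 < av v (Matrix.of fun i j =>
      MvPolynomial.eval (x j) (PP (mp (algebraMap (𝓞 K) K) F) (a i))).det := (av v).pos hdet
  have hlog := Real.log_le_log (mul_pos hdpos (Real.exp_pos _)) hex
  rw [Real.log_mul hdpos.ne' (Real.exp_pos _).ne', Real.log_exp, Real.log_exp,
    Fintype.card_fun, Fintype.card_fin, Fintype.card_fin] at hlog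
  have hfin := num_final (N := N) (B := B) hd hmt (rho d k m v / lq v) (by
    rw [div_le_iff₀ (lq_pos v), mul_comm]
    exact rho_le hd v)
  have hfin2 := mul_le_mul_of_nonneg_left hfin hlq
  have h5 : lq v * (((d ^ t : ℕ) : ℝ) ^ N * ((d : ℝ) ^ (m - k) - B - rho d k m v / lq v -
      N * (((d ^ t : ℕ) : ℝ) - 1) / 2)) =
      -(((d ^ t : ℕ) : ℝ) ^ N * (-(lq v * ((d : ℝ) ^ (m - k) - B)) + rho d k m v)) -
      lq v * (N * ((d ^ t : ℕ) : ℝ) ^ N * (((d ^ t : ℕ) : ℝ) - 1) / 2) := by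
    have := (lq_pos v).ne'
    field_simp
    ring
  rw [h5] at hfin2
  push_cast at hlog hfin2 ⊢
  linarith

end Pool.Agent.PND
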