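import Pool.Agent.PND.Defs

set_option autoImplicit false

/-!
# No common zero over an algebraically closed field, hence none over an extension
-/

namespace Pool.Agent.PND

open NumberField IsDedekindDomain Pool.Agent.GPoly

/-- No common zero over an algebraically closed field, hence none over an extension. -/
theorem noZero_ext {k k' : Type*} [Field k] [IsAlgClosed k] [Field k'] (f : k →+* k') {T : Type*}
    {N : ℕ} (g : T → MvPolynomial (Fin (N + 1)) k)
    (hg : ∀ z : Fin (N + 1) → k, (∀ t, MvPolynomial.eval z (g t) = 0) → z = 0)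
    (z : Fin (N + 1) → k') (hz : ∀ t, MvPolynomial.eval z (MvPolynomial.map f (g t)) = 0) :
    z = 0 := by
  funext i
  have h1 : (MvPolynomial.X i : MvPolynomial (Fin (N + 1)) k) ∈
      (Ideal.span (Set.range g)).radical := by
    rw [← MvPolynomial.vanishingIdeal_zeroLocus_eq_radical (K := k), MvPolynomial.zeroLocus_span]
    intro x hx
    rw [Set.mem_ofPred_eq] at hx
    have h2 : x = 0 := hg x fun t => by
      have h3 := hx (g t) ⟨t, rfl⟩
      rwa [MvPolynomial.aeval_eq_eval] at h3
    rw [h2, MvPolynomial.aeval_X]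
    rfl
  obtain ⟨m, hm⟩ := h1
  have h2 : ∀ P ∈ Ideal.span (Set.range g), MvPolynomial.eval₂ f z P = 0 := by
    intro P hP
    have h3 : Ideal.span (Set.range g) ≤ RingHom.ker (MvPolynomial.eval₂Hom f z) := by
      rw [Ideal.span_le]
      rintro _ ⟨t, rfl⟩
      have h4 := hz t
      rw [MvPolynomial.eval_map] at h4
      exact h4
    exact h3 hP
  have h3 := h2 _ hm
  rw [MvPolynomial.eval₂_pow, MvPolynomial.eval₂_X] at h3
  exact eq_zero_of_pow_eq_zero h3

/-- The same for a number field and its algebraic closure. -/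
theorem noZero_embed {K : Type} [Field K] [NumberField K] (σ : K →+* ℂ) {N : ℕ}
    (F : Fin (N + 1) → MvPolynomial (Fin (N + 1)) K)
    (hF : ∀ z : Fin (N + 1) → AlgebraicClosure K,
      phi (mp (algebraMap K (AlgebraicClosure K)) F) z = 0 → z = 0)
    (z : Fin (N + 1) → ℂ) (hz : phi (mp σ F) z = 0) : z = 0 := by
  let _ : Algebra K ℂ := σ.toAlgebra
  let τ : AlgebraicClosure K →ₐ[K] ℂ := IsAlgClosed.lift
  have hτ : (τ : AlgebraicClosure K →+* ℂ).comp (algebraMap K (AlgebraicClosure K)) = σ := by
    ext x
    exact τ.commutes x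
  refine noZero_ext (τ : AlgebraicClosure K →+* ℂ) (mp (algebraMap K (AlgebraicClosure K)) F)
    (fun w hw => hF w (funext hw)) z fun t => ?_
  have h1 := congrFun hz t
  unfold mp
  rw [MvPolynomial.map_map, hτ]
  exact h1

end Pool.Agent.PND
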