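import Pool.Agent.PND.Basic

set_option autoImplicit false

/-!
# The bound for the products of iterates at a point
-/

namespace Pool.Agent.PND

open NumberField IsDedekindDomain Pool.Agent.GPoly

theorem one_le_sigma {N d m B : ℕ} (hd : 2 ≤ d) (a : Fin (m + 1) → Fin (N + 1) → ℕ)
    (ha : Adm d B (d ^ m) a) : 1 ≤ ∑ k, ∑ i, a k i ∧ ∑ k, ∑ i, a k i ≤ B * (m + 1) := by
  obtain ⟨h1, h2⟩ := ha
  constructor
  · by_contra h
    have h0 : ∑ k, ∑ i, a k i = 0 := by omega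
    have h3 : ∑ k : Fin (m + 1), (∑ i, a k i) * d ^ (k : ℕ) = 0 :=
      Finset.sum_eq_zero fun k hk => by
        rw [(Finset.sum_eq_zero_iff.1 h0) k hk, zero_mul]
    rw [h2] at h3
    have : 0 < d ^ m := Nat.pow_pos (by omega)
    omega
  · calc ∑ k, ∑ i, a k i ≤ ∑ _k : Fin (m + 1), B := Finset.sum_le_sum fun k _ => (h1 k).le
      _ = B * (m + 1) := by
        rw [Finset.sum_const, Finset.card_univ, Fintype.card_fin, smul_eq_mul, mul_comm]

/-- The bound for a product `P_a` by the last iterate. -/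
theorem row_le {L : Type*} [Field L] (abv : AbsoluteValue L ℝ) {N d m B : ℕ} (hd : 2 ≤ d)
    (F : Fin (N + 1) → MvPolynomial (Fin (N + 1)) L) (η : ℝ)
    (hη : ∀ x, nv abv x ^ d ≤ Real.exp η * nv abv (phi F x))
    (a : Fin (m + 1) → Fin (N + 1) → ℕ) (ha : Adm d B (d ^ m) a) (x : Fin (N + 1) → L)
    (hx : x ≠ 0) :
    abv (MvPolynomial.eval x (PP F a)) ≤
      Real.exp (η * (((∑ k, ∑ i, a k i : ℕ) : ℝ) - 1) / (d - 1)) *
        nv abv ((phi F)^[m] x) := by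
  have hd' : (2 : ℝ) ≤ d := by exact_mod_cast hd
  have hd1 : (0 : ℝ) < d - 1 := by linarith
  have hpos : ∀ k, 0 < nv abv ((phi F)^[k] x) := by
    intro k
    induction k with
    | zero => exact nv_pos abv hx
    | succ k ih =>
      have h1 := hη ((phi F)^[k] x)
      rw [← Function.iterate_succ_apply' (phi F) k x] at h1
      have h2 : 0 < Real.exp η * nv abv ((phi F)^[k + 1] x) := lt_of_lt_of_le (pow_pos ih d) h1
      exact (pos_iff_pos_of_mul_pos h2).1 (Real.exp_pos η)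
  obtain ⟨U, hU⟩ : ∃ U : ℕ → ℝ, ∀ k, U k = Real.log (nv abv ((phi F)^[k] x)) :=
    ⟨_, fun _ => rfl⟩
  have hstep : ∀ k, d * U k ≤ η + U (k + 1) := by
    intro k
    have h1 := hη ((phi F)^[k] x)
    rw [← Function.iterate_succ_apply' (phi F) k x] at h1
    have h2 := Real.log_le_log (pow_pos (hpos k) d) h1
    rwa [Real.log_pow, Real.log_mul (Real.exp_pos η).ne' (hpos (k + 1)).ne', Real.log_exp, ← hU,
      ← hU] at h2
  have hk : ∀ j k : ℕ, (d : ℝ) ^ j * U k ≤ U (k + j) + η * (((d : ℝ) ^ j - 1) / (d - 1)) := by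
    intro j
    induction j with
    | zero =>
      intro k
      simp
    | succ j ih =>
      intro k
      have h1 := mul_le_mul_of_nonneg_left (ih k) (by linarith : (0 : ℝ) ≤ d)
      have h2 := hstep (k + j)
      have h3 : (d : ℝ) * (η * (((d : ℝ) ^ j - 1) / (d - 1))) + η =
          η * (((d : ℝ) ^ (j + 1) - 1) / (d - 1)) := by
        field_simp
        ring
      rw [← add_assoc, pow_succ]
      rw [mul_add] at h1
      have h4 : (d : ℝ) ^ j * d * U k = d * ((d : ℝ) ^ j * U k) := by ring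
      rw [h4]
      rw [pow_succ] at h3
      linarith
  have hT : (0 : ℝ) < (d : ℝ) ^ m := by positivity
  have hterm : ∀ k : Fin (m + 1), (d : ℝ) ^ m * (((∑ i, a k i : ℕ) : ℝ) * U k) ≤
      ((((∑ i, a k i) * d ^ (k : ℕ) : ℕ)) : ℝ) * U m +
        η * ((((∑ i, a k i : ℕ) : ℝ) * (d : ℝ) ^ m -
          (((∑ i, a k i) * d ^ (k : ℕ) : ℕ) : ℝ)) / (d - 1)) := by
    intro k
    have hkm : (k : ℕ) ≤ m := by omega
    have h1 := hk (m - k) k
    rw [Nat.add_sub_cancel' hkm] at h1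
    have h2 : (0 : ℝ) ≤ (((∑ i, a k i) * d ^ (k : ℕ) : ℕ) : ℝ) := Nat.cast_nonneg _
    have h3 := mul_le_mul_of_nonneg_left h1 h2
    have h4 : (d : ℝ) ^ (k : ℕ) * (d : ℝ) ^ (m - (k : ℕ)) = (d : ℝ) ^ m := by
      rw [← pow_add, Nat.add_sub_cancel' hkm]
    refine le_trans (le_of_eq ?_) (h3.trans (le_of_eq ?_))
    · rw [← h4, Nat.cast_mul, Nat.cast_pow]
      ring
    · rw [mul_add]
      congr 1
      rw [← h4, Nat.cast_mul, Nat.cast_pow]
      field_simp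
  have hsum := Finset.sum_le_sum (fun k (_ : k ∈ Finset.univ) => hterm k)
  have hS2 : ∑ k : Fin (m + 1), (((∑ i, a k i) * d ^ (k : ℕ) : ℕ) : ℝ) = (d : ℝ) ^ m := by
    rw [← Nat.cast_sum, ha.2, Nat.cast_pow]
  rw [← Finset.mul_sum, Finset.sum_add_distrib, ← Finset.sum_mul, hS2, ← Finset.mul_sum,
    ← Finset.sum_div, Finset.sum_sub_distrib, ← Finset.sum_mul, hS2] at hsum
  have hσ : ∑ k : Fin (m + 1), ((∑ i, a k i : ℕ) : ℝ) = ((∑ k, ∑ i, a k i : ℕ) : ℝ) := by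
    rw [Nat.cast_sum]
  rw [hσ] at hsum
  have hfin : ∑ k : Fin (m + 1), ((∑ i, a k i : ℕ) : ℝ) * U k ≤
      U m + η * (((∑ k, ∑ i, a k i : ℕ) : ℝ) - 1) / (d - 1) := by
    have h1 : (d : ℝ) ^ m * U m + η * ((((∑ k, ∑ i, a k i : ℕ) : ℝ) * (d : ℝ) ^ m -
        (d : ℝ) ^ m) / (d - 1)) =
        (d : ℝ) ^ m * (U m + η * (((∑ k, ∑ i, a k i : ℕ) : ℝ) - 1) / (d - 1)) := by
      field_simp
    rw [h1] at hsum
    exact le_of_mul_le_mul_left hsum hT
  have hval : abv (MvPolynomial.eval x (PP F a)) ≤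
      ∏ k : Fin (m + 1), Real.exp (((∑ i, a k i : ℕ) : ℝ) * U k) := by
    rw [eval_PP, map_prod]
    refine Finset.prod_le_prod (fun _ _ => abv.nonneg _) fun k _ => ?_
    rw [map_prod]
    have h1 : Real.exp (((∑ i, a k i : ℕ) : ℝ) * U k) =
        ∏ i, nv abv ((phi F)^[(k : ℕ)] x) ^ a k i := by
      rw [Finset.prod_pow_eq_pow_sum, hU, Real.exp_nat_mul, Real.exp_log (hpos k)]
    rw [h1]
    refine Finset.prod_le_prod (fun _ _ => abv.nonneg _) fun i _ => ?_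
    rw [map_pow]
    exact pow_le_pow_left₀ (abv.nonneg _) (le_nv abv _ i) _
  refine hval.trans ?_
  rw [← Real.exp_sum]
  have h2 : Real.exp (η * (((∑ k, ∑ i, a k i : ℕ) : ℝ) - 1) / (d - 1)) *
      nv abv ((phi F)^[m] x) =
      Real.exp (U m + η * (((∑ k, ∑ i, a k i : ℕ) : ℝ) - 1) / (d - 1)) := by
    rw [Real.exp_add, hU m, Real.exp_log (hpos m), mul_comm]
  rw [h2]
  exact Real.exp_le_exp.2 hfin

end Pool.Agent.PND
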