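import Pool.Agent.PND.Basic

set_option autoImplicit false

/-!
# The products `P_a` span the forms of degree `n`
-/

namespace Pool.Agent.PND

open NumberField IsDedekindDomain Pool.Agent.GPoly

namespace SpanAux

/-- The component of degree `E` of a product with a form of degree `e ≤ E`. -/
theorem comp_mul {R : Type*} [CommRing R] {σ : Type*} {e E : ℕ} (hle : e ≤ E)
    (h g : MvPolynomial σ R) (hg : g.IsHomogeneous e) :
    MvPolynomial.homogeneousComponent E (h * g) =
      MvPolynomial.homogeneousComponent (E - e) h * g := by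
  classical
  let _ : GradedAlgebra (MvPolynomial.homogeneousSubmodule σ R) := MvPolynomial.gradedAlgebra
  have hd : ∀ (P : MvPolynomial σ R) (n : ℕ), MvPolynomial.homogeneousComponent n P =
      (DirectSum.decompose (MvPolynomial.homogeneousSubmodule σ R) P n : MvPolynomial σ R) := by
    intro P n
    exact (MvPolynomial.decomposition.decompose'_apply P n).symm
  rw [hd, hd]
  exact DirectSum.coe_decompose_mul_of_right_mem_of_le _ hg hle

variable {K : Type*} [Field K] {N : ℕ}

/-- Products of a monomial of degree less than `B` and of powers of the `F_i`. -/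
def gens (F : Fin (N + 1) → MvPolynomial (Fin (N + 1)) K) (d B n : ℕ) :
    Set (MvPolynomial (Fin (N + 1)) K) :=
  {P | ∃ (γ : Fin (N + 1) →₀ ℕ) (b : Fin (N + 1) → ℕ), γ.degree < B ∧
    γ.degree + d * ∑ i, b i = n ∧ P = MvPolynomial.monomial γ 1 * ∏ i, F i ^ b i}

theorem homog_mem_of_monomial {n : ℕ} {W : Submodule K (MvPolynomial (Fin (N + 1)) K)}
    (hW : ∀ α : Fin (N + 1) →₀ ℕ, α.degree = n → MvPolynomial.monomial α (1 : K) ∈ W)
    (Q : MvPolynomial (Fin (N + 1)) K) (hQ : Q.IsHomogeneous n) : Q ∈ W := by
  rw [MvPolynomial.as_sum Q]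
  refine Submodule.sum_mem _ fun γ hγ => ?_
  have h8 : MvPolynomial.monomial γ (MvPolynomial.coeff γ Q) =
      MvPolynomial.coeff γ Q • MvPolynomial.monomial γ (1 : K) := by
    rw [MvPolynomial.smul_monomial, smul_eq_mul, mul_one]
  rw [h8]
  refine W.smul_mem _ (hW _ ?_)
  have h2 := hQ (MvPolynomial.mem_support_iff.1 hγ)
  rw [← h2, Finsupp.degree_eq_weight_one]
  rfl

theorem gens_mul {d B n : ℕ} {F : Fin (N + 1) → MvPolynomial (Fin (N + 1)) K} (j : Fin (N + 1))
    {P : MvPolynomial (Fin (N + 1)) K} (hP : P ∈ Submodule.span K (gens F d B n)) :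
    P * F j ∈ Submodule.span K (gens F d B (n + d)) := by
  classical
  induction hP using Submodule.span_induction with
  | mem x hx =>
    obtain ⟨γ, b, h1, h2, rfl⟩ := hx
    refine Submodule.subset_span ⟨γ, Function.update b j (b j + 1), h1, ?_, ?_⟩
    · have h3 : ∑ i, Function.update b j (b j + 1) i = ∑ i, b i + 1 := by
        rw [Finset.sum_update_of_mem (Finset.mem_univ j), ← Finset.add_sum_erase _ _
          (Finset.mem_univ j), Finset.sdiff_singleton_eq_erase]
        ring
      rw [h3, ← h2]
      ring
    · have h3 : ∏ i, F i ^ Function.update b j (b j + 1) i = (∏ i, F i ^ b i) * F j := by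
        rw [← Finset.mul_prod_erase _ _ (Finset.mem_univ j),
          ← Finset.mul_prod_erase (Finset.univ) (fun i => F i ^ b i) (Finset.mem_univ j)]
        rw [Function.update_self, pow_succ]
        have h4 : ∏ x ∈ Finset.univ.erase j, F x ^ Function.update b j (b j + 1) x =
            ∏ x ∈ Finset.univ.erase j, F x ^ b x :=
          Finset.prod_congr rfl fun x hx => by
            rw [Function.update_of_ne (Finset.ne_of_mem_erase hx)]
        rw [h4]
        ring
      rw [h3, mul_assoc]
  | zero => rw [zero_mul]; exact Submodule.zero_mem _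
  | add x y _ _ hx hy => rw [add_mul]; exact Submodule.add_mem _ hx hy
  | smul a x _ hx => rw [smul_mul_assoc]; exact Submodule.smul_mem _ a hx

/-- Reduction modulo the `F_i`. -/
theorem mem_gens {d B : ℕ} (hd : 1 ≤ d) (hB : d ≤ B)
    {F : Fin (N + 1) → MvPolynomial (Fin (N + 1)) K} (hF : ∀ i, (F i).IsHomogeneous d)
    (hmon : ∀ α : Fin (N + 1) →₀ ℕ, α.degree = B →
      MvPolynomial.monomial α (1 : K) ∈ Ideal.span (Set.range F)) (n : ℕ) :
    ∀ Q : MvPolynomial (Fin (N + 1)) K, Q.IsHomogeneous n →
      Q ∈ Submodule.span K (gens F d B n) := by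
  classical
  induction n using Nat.strong_induction_on with
  | _ n ih =>
    intro Q hQ
    refine homog_mem_of_monomial (fun α hα => ?_) Q hQ
    rcases Nat.lt_or_ge n B with hlt | hge
    · refine Submodule.subset_span ⟨α, 0, by omega, by simp [hα], by simp⟩
    · obtain ⟨β, hβα, hβ⟩ := Finsupp.exists_le_degree_eq α B (by omega)
      obtain ⟨c, hc⟩ := (Ideal.mem_span_range_iff_exists_fun).1 (hmon β hβ)
      have h2 : (MvPolynomial.monomial β (1 : K)) =
          ∑ t, MvPolynomial.homogeneousComponent (B - d) (c t) * F t := by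
        have h3 : (MvPolynomial.monomial β (1 : K)) =
            ∑ t, MvPolynomial.homogeneousComponent B (c t * F t) := by
          rw [← map_sum, hc]
          exact (MvPolynomial.homogeneousComponent_eq_self
            (MvPolynomial.isHomogeneous_monomial 1 hβ)).symm
        rw [h3]
        exact Finset.sum_congr rfl fun t _ => comp_mul hB _ _ (hF t)
      have h7 : (α - β).degree + β.degree = α.degree := by
        rw [← map_add, tsub_add_cancel_of_le hβα]
      have h3 : MvPolynomial.monomial α (1 : K) = ∑ t,
          (MvPolynomial.monomial (α - β) 1 *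
            MvPolynomial.homogeneousComponent (B - d) (c t)) * F t := by
        have h4 : MvPolynomial.monomial α (1 : K) =
            MvPolynomial.monomial (α - β) 1 * MvPolynomial.monomial β 1 := by
          rw [MvPolynomial.monomial_mul, tsub_add_cancel_of_le hβα, mul_one]
        rw [h4, h2, Finset.mul_sum]
        exact Finset.sum_congr rfl fun t _ => by ring
      rw [h3]
      refine Submodule.sum_mem _ fun t _ => ?_
      have h5 := ih (n - d) (by omega) (MvPolynomial.monomial (α - β) 1 *
            MvPolynomial.homogeneousComponent (B - d) (c t)) (by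
        have h6 := (MvPolynomial.isHomogeneous_monomial (1 : K) (rfl : (α - β).degree = _)).mul
          (MvPolynomial.homogeneousComponent_isHomogeneous (B - d) (c t))
        have h8 : (α - β).degree + (B - d) = n - d := by omega
        rwa [h8] at h6)
      have h6 := gens_mul t h5
      rwa [Nat.sub_add_cancel (by omega)] at h6

/-- Iterates commute. -/
theorem bind_itP (F : Fin (N + 1) → MvPolynomial (Fin (N + 1)) K) (k : ℕ) (i : Fin (N + 1)) :
    MvPolynomial.bind₁ F (itP F k i) = itP F (k + 1) i := by
  induction k generalizing i with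
  | zero =>
    simp only [itP, MvPolynomial.bind₁_X_right]
    rw [show (MvPolynomial.bind₁ (MvPolynomial.X : Fin (N + 1) → MvPolynomial (Fin (N + 1)) K)) =
      AlgHom.id K _ from MvPolynomial.algHom_ext (fun i => by simp)]
    rfl
  | succ k ih =>
    rw [itP, MvPolynomial.bind₁_bind₁]
    have h1 : (fun j => MvPolynomial.bind₁ F (itP F k j)) = itP F (k + 1) := funext ih
    rw [h1]
    rfl

end SpanAux

/-- The products `P_a` span the forms of degree `n`. -/
theorem span_PP {K : Type*} [Field K] {N d B : ℕ} (hd : 2 ≤ d) (hB : d ≤ B)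
    {F : Fin (N + 1) → MvPolynomial (Fin (N + 1)) K} (hF : ∀ i, (F i).IsHomogeneous d)
    (hmon : ∀ α : Fin (N + 1) →₀ ℕ, α.degree = B →
      MvPolynomial.monomial α (1 : K) ∈ Ideal.span (Set.range F))
    (l n : ℕ) (hn : n < d ^ l) (Q : MvPolynomial (Fin (N + 1)) K) (hQ : Q.IsHomogeneous n) :
    Q ∈ Submodule.span K {P | ∃ a : Fin l → Fin (N + 1) → ℕ, Adm d B n a ∧ P = PP F a} := by
  classical
  induction l generalizing n Q with
  | zero =>
    have hn0 : n = 0 := by simpa using hn
    subst hn0
    have h1 : Q = MvPolynomial.C (MvPolynomial.coeff 0 Q) := by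
      rw [← MvPolynomial.totalDegree_eq_zero_iff_eq_C]
      exact Nat.le_zero.1 hQ.totalDegree_le
    rw [h1, MvPolynomial.C_eq_smul_one]
    refine Submodule.smul_mem _ _ (Submodule.subset_span ⟨Fin.elim0, ⟨fun k => k.elim0, ?_⟩, ?_⟩)
    · simp
    · simp [PP]
  | succ l ih =>
    have h1 := SpanAux.mem_gens (by omega) hB hF hmon n Q hQ
    refine (Submodule.span_le.2 ?_) h1
    rintro _ ⟨γ, b, h2, h3, rfl⟩
    have hb : ∑ i, b i < d ^ l := by
      have h4 : d * ∑ i, b i < d * d ^ l := by
        rw [← pow_succ']
        omega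
      exact Nat.lt_of_mul_lt_mul_left h4
    -- the form in the new variables
    have h4 : (∏ i, MvPolynomial.X i ^ b i : MvPolynomial (Fin (N + 1)) K).IsHomogeneous
        (∑ i, b i) :=
      MvPolynomial.IsHomogeneous.prod _ _ _ fun i _ => MvPolynomial.isHomogeneous_X_pow i (b i)
    have h5 := ih (∑ i, b i) hb _ h4
    have h6 : (∏ i, F i ^ b i) = MvPolynomial.bind₁ F (∏ i, MvPolynomial.X i ^ b i) := by
      rw [map_prod]
      exact Finset.prod_congr rfl fun i _ => by rw [map_pow, MvPolynomial.bind₁_X_right]
    -- the map `P ↦ X ^ γ P(F)`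
    let T : MvPolynomial (Fin (N + 1)) K →ₗ[K] MvPolynomial (Fin (N + 1)) K :=
      (LinearMap.mulLeft K (MvPolynomial.monomial γ 1)).comp (MvPolynomial.bind₁ F).toLinearMap
    have hT : ∀ P, T P = MvPolynomial.monomial γ 1 * MvPolynomial.bind₁ F P := fun P => rfl
    rw [h6, ← hT]
    have h7 : Submodule.map T (Submodule.span K {P | ∃ a : Fin l → Fin (N + 1) → ℕ,
        Adm d B (∑ i, b i) a ∧ P = PP F a}) ≤
        Submodule.span K {P | ∃ a : Fin (l + 1) → Fin (N + 1) → ℕ, Adm d B n a ∧ P = PP F a} := by
      rw [Submodule.map_span_le]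
      rintro _ ⟨a, ha, rfl⟩
      refine Submodule.subset_span ⟨Fin.cons (fun i => γ i) a, ⟨fun k => ?_, ?_⟩, ?_⟩
      · refine Fin.cases ?_ (fun k => ?_) k
        · rw [Fin.cons_zero, ← Finsupp.degree_eq_sum]
          exact h2
        · rw [Fin.cons_succ]
          exact ha.1 k
      · rw [Fin.sum_univ_succ]
        simp only [Fin.cons_zero, Fin.cons_succ, Fin.val_zero, pow_zero, mul_one, Fin.val_succ,
          pow_succ]
        rw [← Finsupp.degree_eq_sum, ← h3, ← ha.2, Finset.mul_sum]
        congr 1
        exact Finset.sum_congr rfl fun k _ => by ring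
      · rw [hT, PP, PP, Fin.prod_univ_succ]
        simp only [Fin.cons_zero, Fin.cons_succ, Fin.val_zero, Fin.val_succ, map_prod, map_pow,
          SpanAux.bind_itP]
        congr 1
        rw [MvPolynomial.monomial_eq, map_one, one_mul, Finsupp.prod_fintype]
        · rfl
        · intro i
          exact pow_zero _
    exact h7 (Submodule.mem_map_of_mem h5)

end Pool.Agent.PND
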