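import Pool.Agent.PND.Cramer
import Pool.Agent.PND.Span
import Pool.Agent.PND.Basis
import Pool.Agent.PND.NullExt
import Pool.Agent.PND.Row
import Pool.Agent.PND.Exch
import Pool.Agent.PND.Loc
import Pool.Agent.PND.Glob
import Pool.Agent.PND.HtPre

set_option autoImplicit false

/-!
# The preperiodic points lie on a hypersurface of bounded degree
-/

namespace Pool.Agent.PND

open NumberField IsDedekindDomain Pool.Agent.GPoly

theorem sqfree_log {K : Type} [Field K] [NumberField K] (J : Ideal (𝓞 K)) (hJ : Squarefree J)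
    (S : Finset (HeightOneSpectrum (𝓞 K))) (hS : ∀ v, v ∈ S ↔ v.asIdeal ∣ J) :
    Real.log (Ideal.absNorm J) = ∑ v ∈ S, lq v := by
  classical
  have hJ0 : J ≠ 0 := hJ.ne_zero
  have h1 : J = ∏ v ∈ S, v.asIdeal := by
    have h2 := (UniqueFactorizationMonoid.squarefree_iff_nodup_normalizedFactors hJ0).mp hJ
    have h3 := Ideal.prod_normalizedFactors_eq_self hJ0
    have h4 : S.image (fun v => v.asIdeal) =
        (UniqueFactorizationMonoid.normalizedFactors J).toFinset := by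
      ext p
      rw [Finset.mem_image, Multiset.mem_toFinset, Ideal.mem_normalizedFactors_iff hJ0]
      constructor
      · rintro ⟨v, hv, rfl⟩
        exact ⟨v.isPrime, Ideal.dvd_iff_le.mp ((hS v).mp hv)⟩
      · rintro ⟨hp, hle⟩
        refine ⟨⟨p, hp, ?_⟩, (hS _).mpr (Ideal.dvd_iff_le.mpr hle), rfl⟩
        rintro rfl
        exact hJ0 (le_bot_iff.mp hle)
    conv_lhs => rw [← h3]
    rw [← Finset.prod_image (f := fun p : Ideal (𝓞 K) => p) (g := fun v => v.asIdeal)
      (fun v _ w _ h => HeightOneSpectrum.ext h), h4, Finset.prod_eq_multiset_prod,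
      Multiset.toFinset_val, Multiset.dedup_eq_self.mpr h2, Multiset.map_id']
  conv_lhs => rw [h1]
  rw [map_prod, Nat.cast_prod, Real.log_prod]
  · rfl
  · intro v _
    have := Ideal.absNorm_eq_zero_iff.not.mpr v.ne_bot
    exact_mod_cast this

theorem exists_m (κ A d : ℝ) (hκ : 0 < κ) (hA : 0 ≤ A) (hd : 2 ≤ d) (m₀ : ℕ) :
    ∃ m : ℕ, m₀ ≤ m ∧ A * (m + 1) < κ * d ^ m := by
  obtain ⟨n, hn⟩ := exists_nat_gt (A * (m₀ + 1) / κ)
  refine ⟨m₀ + (2 * n + 4), by omega, ?_⟩
  have h1 : A * (m₀ + 1) < n * κ := by rwa [div_lt_iff₀ hκ] at hn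
  have h2 : ((n : ℝ) + 1) ≤ 2 ^ n := by
    have : n + 1 ≤ 2 ^ n := Nat.lt_two_pow_self
    exact_mod_cast this
  have h3 : (2 : ℝ) ^ (2 * n + 4) ≤ d ^ (2 * n + 4) := pow_le_pow_left₀ (by norm_num) hd _
  have h4 : (2 : ℝ) ^ (2 * n + 4) = 16 * ((2 : ℝ) ^ n) ^ 2 := by
    rw [pow_add, pow_mul']
    ring
  have h5 : ((n : ℝ) + 1) ^ 2 ≤ ((2 : ℝ) ^ n) ^ 2 := pow_le_pow_left₀ (by positivity) h2 2
  have hn0 : (0 : ℝ) ≤ n := Nat.cast_nonneg n
  have hm0 : (0 : ℝ) ≤ m₀ := Nat.cast_nonneg m₀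
  have h6 : (n : ℝ) * (2 * n + 5) ≤ d ^ (2 * n + 4) := by nlinarith
  have h7 : d ^ (2 * n + 4) ≤ d ^ (m₀ + (2 * n + 4)) :=
    pow_le_pow_right₀ (by linarith) (by omega)
  push_cast
  calc A * (m₀ + (2 * n + 4) + 1) ≤ (A * (m₀ + 1)) * (2 * n + 5) := by
        nlinarith [mul_nonneg hA (mul_nonneg hm0 hn0), mul_nonneg hA hm0]
    _ < n * κ * (2 * n + 5) := mul_lt_mul_of_pos_right h1 (by positivity)
    _ = κ * (n * (2 * n + 5)) := by ring
    _ ≤ κ * d ^ (m₀ + (2 * n + 4)) := mul_le_mul_of_nonneg_left (h6.trans h7) hκ.le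

/-- The local inequality in exponential form. -/
theorem exp_eta {L : Type*} [Field L] (abv : AbsoluteValue L ℝ) {N d s : ℕ}
    (F : Fin (N + 1) → MvPolynomial (Fin (N + 1)) L) (Δ : L) (hΔ : Δ ≠ 0) (C : ℝ) (hC : 0 < C)
    (hn : 0 < nc abv d F)
    (h : ∀ x : Fin (N + 1) → L, abv Δ * nv abv x ^ d ≤ C * nc abv d F ^ s * nv abv (phi F x))
    (x : Fin (N + 1) → L) :
    nv abv x ^ d ≤
      Real.exp (-Real.log (abv Δ) + s * Real.log (nc abv d F) + Real.log C) *
        nv abv (phi F x) := by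
  have hΔ' : 0 < abv Δ := abv.pos hΔ
  rw [Real.exp_add, Real.exp_add, Real.exp_neg, Real.exp_log hΔ', Real.exp_log hC,
    Real.exp_nat_mul, Real.exp_log hn]
  have h1 := h x
  rw [show (abv Δ)⁻¹ * nc abv d F ^ s * C * nv abv (phi F x) =
    (C * nc abv d F ^ s * nv abv (phi F x)) / abv Δ by field_simp, le_div_iff₀ hΔ']
  linarith

theorem nc_pos' {L : Type*} [Field L] (abv : AbsoluteValue L ℝ) {N d : ℕ}
    {F : Fin (N + 1) → MvPolynomial (Fin (N + 1)) L} (h : cof d F ≠ 0) : 0 < nc abv d F := by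
  obtain ⟨i, hi⟩ := Function.ne_iff.mp h
  exact (abv.pos hi).trans_le (Finite.le_ciSup (fun p => abv (cof d F p)) i)

/-- The determinant bound from the bound of the rows. -/
theorem det_bound {L : Type*} [Field L] (abv : AbsoluteValue L ℝ) {N d m B R : ℕ} (hd : 2 ≤ d)
    (F : Fin (N + 1) → MvPolynomial (Fin (N + 1)) L) (hnz : ∀ z, phi F z = 0 → z = 0) (η : ℝ)
    (hη : ∀ x, nv abv x ^ d ≤ Real.exp η * nv abv (phi F x))
    (a : Fin R → Fin (m + 1) → Fin (N + 1) → ℕ) (ha : ∀ i, Adm d B (d ^ m) (a i))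
    (x : Fin R → Fin (N + 1) → L) (hx : ∀ i, x i ≠ 0)
    (hdet : (Matrix.of fun i j => MvPolynomial.eval (x j) (PP F (a i))).det ≠ 0) :
    Real.log (abv (Matrix.of fun i j => MvPolynomial.eval (x j) (PP F (a i))).det) ≤
      Real.log (R.factorial : ℝ) + ∑ i, Real.log (nv abv ((phi F)^[m] (x i))) +
        η * ∑ i, ((((∑ k, ∑ j, a i k j : ℕ) : ℝ) - 1) / (d - 1)) ∧
    (IsNonarchimedean abv →
      Real.log (abv (Matrix.of fun i j => MvPolynomial.eval (x j) (PP F (a i))).det) ≤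
      ∑ i, Real.log (nv abv ((phi F)^[m] (x i))) +
        η * ∑ i, ((((∑ k, ∑ j, a i k j : ℕ) : ℝ) - 1) / (d - 1))) := by
  have hent : ∀ i j, abv ((Matrix.of fun i j => MvPolynomial.eval (x j) (PP F (a i))) i j) ≤
      Real.exp (η * ((((∑ k, ∑ j, a i k j : ℕ) : ℝ) - 1) / (d - 1)) +
        Real.log (nv abv ((phi F)^[m] (x j)))) := by
    intro i j
    rw [Real.exp_add, Real.exp_log (nv_pos abv (iter_ne_zero hnz (hx j) m)), Matrix.of_apply]
    have h := row_le abv hd F η hη (a i) (ha i) (x j) (hx j)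
    rwa [mul_div_assoc] at h
  have hpos : 0 < abv (Matrix.of fun i j => MvPolynomial.eval (x j) (PP F (a i))).det :=
    abv.pos hdet
  constructor
  · have h := abv_det_le_sep_arch abv _ _ _ hent
    have h1 := Real.log_le_log hpos h
    rw [Fintype.card_fin, Real.log_mul (by exact_mod_cast Nat.factorial_ne_zero _)
      (Real.exp_pos _).ne', Real.log_exp, ← Finset.mul_sum] at h1
    linarith
  · intro hna
    have h := abv_det_le_sep abv hna _ _ _ hent
    have h1 := Real.log_le_log hpos h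
    rw [Real.log_exp, ← Finset.mul_sum] at h1
    linarith

/-- The global inequality. -/
theorem key_ineq {N d k m s B : ℕ} (hN : 1 ≤ N) (hd : 2 ≤ d) (hm : k + N + 1 ≤ m) (c : ℝ)
    (hc : 1 ≤ c) {K : Type} [Field K] [NumberField K]
    (F : Fin (N + 1) → MvPolynomial (Fin (N + 1)) (𝓞 K)) (hF : ∀ i, (F i).IsHomogeneous d)
    (hnz : ∀ z, phi (mp (algebraMap (𝓞 K) K) F) z = 0 → z = 0) (Δ : K) (hΔ : Δ ≠ 0)
    (hna : ∀ abv : AbsoluteValue K ℝ, IsNonarchimedean abv →
      abv Δ ≤ nc abv d (mp (algebraMap (𝓞 K) K) F) ^ (s + 1) ∧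
      ∀ x : Fin (N + 1) → K, abv Δ * nv abv x ^ d ≤
        nc abv d (mp (algebraMap (𝓞 K) K) F) ^ s *
          nv abv (phi (mp (algebraMap (𝓞 K) K) F) x))
    (har : ∀ abv : AbsoluteValue K ℝ, ∀ x : Fin (N + 1) → K, abv Δ * nv abv x ^ d ≤
        c * nc abv d (mp (algebraMap (𝓞 K) K) F) ^ s *
          nv abv (phi (mp (algebraMap (𝓞 K) K) F) x))
    (J : Ideal (𝓞 K)) (hJ : Squarefree J)
    (hdef : ∀ v : HeightOneSpectrum (𝓞 K), v.asIdeal ∣ J → Defective d k F v)
    (R : ℕ) (a : Fin R → Fin (m + 1) → Fin (N + 1) → ℕ) (ha : ∀ i, Adm d B (d ^ m) (a i))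
    (hspan : ∀ (Ω : Type) [Field Ω] (f : K →+* Ω) (Q : MvPolynomial (Fin (N + 1)) Ω),
      Q.IsHomogeneous (d ^ m) → ∃ c : Fin R → Ω,
        Q = ∑ i, c i • MvPolynomial.map f (PP (mp (algebraMap (𝓞 K) K) F) (a i)))
    (x : Fin R → Fin (N + 1) → K) (hx : ∀ i, Preper (mp (algebraMap (𝓞 K) K) F) (x i))
    (hdet : (Matrix.of fun i j =>
      MvPolynomial.eval (x j) (PP (mp (algebraMap (𝓞 K) K) F) (a i))).det ≠ 0) :
    (1 / (4 * (d : ℝ) ^ (k + N * (k + N + 1))) * ((d : ℝ) ^ m) ^ (N + 1) -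
        B * ((d : ℝ) ^ m) ^ N) * Real.log (Ideal.absNorm J) ≤
      Module.finrank ℚ K * (Real.log (R.factorial : ℝ) + R * (B * (m + 1)) * Real.log c) +
      R * (s * Height.logHeight (cof d (mp (algebraMap (𝓞 K) K) F)) +
        Module.finrank ℚ K * Real.log c) +
      s * (R * (B * (m + 1))) * Height.logHeight (cof d (mp (algebraMap (𝓞 K) K) F)) := by
  classical
  set FK := mp (algebraMap (𝓞 K) K) F with hFK
  have hFKd : ∀ i, (FK i).IsHomogeneous d := mp_homog _ hF
  have hinj : Function.Injective (algebraMap (𝓞 K) K) := RingOfIntegers.coe_injective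
  have hd' : (2 : ℝ) ≤ d := by exact_mod_cast hd
  have hx0 : ∀ i, x i ≠ 0 := fun i => (hx i).1
  have hone : (fun _ => 1 : Fin (N + 1) → K) ≠ 0 := fun h => one_ne_zero (congrFun h 0)
  have hcof : cof d FK ≠ 0 := HtPre.cof_ne hFKd (phi_ne_zero hnz hone)
  have hncpos : ∀ abv : AbsoluteValue K ℝ, 0 < nc abv d FK := fun abv => nc_pos' abv hcof
  -- the weights
  set W : ℝ := ∑ i, ((((∑ k, ∑ j, a i k j : ℕ) : ℝ) - 1) / (d - 1)) with hW
  have hW0 : ∀ i, 0 ≤ (((∑ k, ∑ j, a i k j : ℕ) : ℝ) - 1) / (d - 1) := by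
    intro i
    have h := (one_le_sigma hd (a i) (ha i)).1
    have h1 : (1 : ℝ) ≤ ((∑ k, ∑ j, a i k j : ℕ) : ℝ) := by exact_mod_cast h
    exact div_nonneg (by linarith) (by linarith)
  have hW1 : W ≤ R * (B * (m + 1)) := by
    have h1 : ∀ i ∈ (Finset.univ : Finset (Fin R)),
        (((∑ k, ∑ j, a i k j : ℕ) : ℝ) - 1) / (d - 1) ≤ B * (m + 1) := by
      intro i _
      have h := (one_le_sigma hd (a i) (ha i)).2
      have h2 : ((∑ k, ∑ j, a i k j : ℕ) : ℝ) ≤ B * (m + 1) := by exact_mod_cast h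
      rw [div_le_iff₀ (by linarith)]
      have h3 : (0 : ℝ) ≤ B * (m + 1) := by positivity
      nlinarith
    have h2 := Finset.sum_le_card_nsmul _ _ _ h1
    rw [Finset.card_univ, Fintype.card_fin, nsmul_eq_mul] at h2
    exact h2
  have hWn : 0 ≤ W := Finset.sum_nonneg fun i _ => hW0 i
  -- the primes dividing `J`
  have hfin : {v : HeightOneSpectrum (𝓞 K) | v.asIdeal ∣ J}.Finite :=
    Ideal.finite_factors hJ.ne_zero
  set S : Finset (HeightOneSpectrum (𝓞 K)) := hfin.toFinset with hSdef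
  have hS : ∀ v, v ∈ S ↔ v.asIdeal ∣ J := fun v => by
    rw [hSdef, Set.Finite.mem_toFinset]
    rfl
  set G : ℝ := 1 / (4 * (d : ℝ) ^ (k + N * (k + N + 1))) * ((d : ℝ) ^ m) ^ (N + 1) -
        B * ((d : ℝ) ^ m) ^ N with hG
  have hglob := glob (fun i => (phi FK)^[m] (x i)) (fun i => iter_ne_zero hnz (hx0 i) m)
    (cof d FK) hcof (s * W) W (by positivity) _ hdet Δ hΔ
    (Real.log (R.factorial : ℝ) + W * Real.log c) S (fun v => lq v * G)
    (by
      intro σ
      have h1 := (det_bound (NumberField.place σ) hd FK hnz _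
        (exp_eta (NumberField.place σ) FK Δ hΔ c (by linarith) (hncpos _)
          (har (NumberField.place σ))) a ha x hx0 hdet).1
      rw [← hW] at h1
      have h2 : Real.log ‖σ (Matrix.of fun i j => MvPolynomial.eval (x j) (PP FK (a i))).det‖ ≤
          Real.log (R.factorial : ℝ) +
          ∑ i, Real.log (⨆ j, ‖σ ((phi FK)^[m] (x i) j)‖) +
          (-Real.log ‖σ Δ‖ + s * Real.log (⨆ p, ‖σ (cof d FK p)‖) + Real.log c) * W := h1
      linarith)
    (by
      intro v
      have hnav := hna (av v) (av_nonarch v)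
      have hη := exp_eta (av v) FK Δ hΔ 1 one_pos (hncpos _) (by
        intro z
        rw [one_mul]
        exact hnav.2 z)
      rw [Real.log_one, add_zero] at hη
      by_cases hv : v ∈ S
      · rw [if_pos hv]
        have hnc1 : nc (av v) d FK ≤ 1 := by
          refine ciSup_le fun p => ?_
          have : cof d FK p = algebraMap (𝓞 K) K (cof d F p) := by
            simp [hFK, cof, mp, MvPolynomial.coeff_map]
          rw [this]
          exact av_int_le_one v _
        have hη0 : 0 ≤ -Real.log (av v Δ) + s * Real.log (nc (av v) d FK) := by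
          have h1 := Real.log_le_log ((av v).pos hΔ) hnav.1
          rw [Real.log_pow] at h1
          have h2 := Real.log_nonpos (hncpos (av v)).le hnc1
          push_cast at h1
          linarith
        have h1 := local_gain hN hd hm F hF hnz v (hdef v ((hS v).mp hv)) R a ha hspan x hx0 hdet
          (fun i => (-Real.log (av v Δ) + s * Real.log (nc (av v) d FK)) *
            ((((∑ k, ∑ j, a i k j : ℕ) : ℝ) - 1) / (d - 1)))
          (fun i => mul_nonneg hη0 (hW0 i))
          (fun i z hz => by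
            have h := row_le (av v) hd FK _ hη (a i) (ha i) z hz
            rwa [mul_div_assoc] at h)
        rw [← Finset.mul_sum, ← hW, ← hG] at h1
        have h2 : Real.log (av v (Matrix.of fun i j =>
            MvPolynomial.eval (x j) (PP FK (a i))).det) ≤
          ∑ i, Real.log (⨆ j, av v ((phi FK)^[m] (x i) j)) +
          (-Real.log (av v Δ) + s * Real.log (⨆ p, av v (cof d FK p))) * W - lq v * G := h1
        linarith
      · rw [if_neg hv, sub_zero]
        have h1 := (det_bound (av v) hd FK hnz _ hη a ha x hx0 hdet).2 (av_nonarch v)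
        rw [← hW] at h1
        have h2 : Real.log (av v (Matrix.of fun i j =>
            MvPolynomial.eval (x j) (PP FK (a i))).det) ≤
          ∑ i, Real.log (⨆ j, av v ((phi FK)^[m] (x i) j)) +
          (-Real.log (av v Δ) + s * Real.log (⨆ p, av v (cof d FK p))) * W := h1
        linarith)
  rw [← Finset.sum_mul, ← sqfree_log J hJ S hS, mul_comm] at hglob
  refine hglob.trans ?_
  have hlc : 0 ≤ Real.log c := Real.log_nonneg hc
  have hh : 0 ≤ Height.logHeight (cof d FK) := Height.logHeight_nonneg _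
  have hD : (0 : ℝ) ≤ Module.finrank ℚ K := Nat.cast_nonneg _
  have e1 : (Module.finrank ℚ K : ℝ) * (Real.log (R.factorial : ℝ) + W * Real.log c) ≤
      Module.finrank ℚ K * (Real.log (R.factorial : ℝ) + R * (B * (m + 1)) * Real.log c) :=
    mul_le_mul_of_nonneg_left (add_le_add le_rfl (mul_le_mul_of_nonneg_right hW1 hlc)) hD
  have e3 : (s * W) * Height.logHeight (cof d FK) ≤
      s * (R * (B * (m + 1))) * Height.logHeight (cof d FK) :=
    mul_le_mul_of_nonneg_right (mul_le_mul_of_nonneg_left hW1 (Nat.cast_nonneg _)) hh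
  have e2 : ∑ i, Height.logHeight ((phi FK)^[m] (x i)) ≤
      R * (s * Height.logHeight (cof d FK) + Module.finrank ℚ K * Real.log c) := by
    have h1 : ∀ i ∈ (Finset.univ : Finset (Fin R)), Height.logHeight ((phi FK)^[m] (x i)) ≤
        s * Height.logHeight (cof d FK) + Module.finrank ℚ K * Real.log c := by
      intro i _
      have h2 := height_preper hd c hc FK hFKd hnz Δ hΔ (fun abv h => (hna abv h).2) har (x i)
        (hx i) m
      have h3 : 0 ≤ Height.logHeight ((phi FK)^[m] (x i)) := Height.logHeight_nonneg _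
      nlinarith
    have h2 := Finset.sum_le_card_nsmul _ _ _ h1
    rw [Finset.card_univ, Fintype.card_fin, nsmul_eq_mul] at h2
    exact h2
  linarith

/-- The numerical contradiction. -/
theorem numeric {N m R : ℕ} {D d B s k : ℕ} (hd : 2 ≤ d) (κ A c h Λ DK : ℝ) (hc : 1 ≤ c)
    (hA : A = D * N * Real.log d / Real.log 2 + B * D * Real.log c / Real.log 2 + s * k +
      D * Real.log c / Real.log 2 + s * B * k)
    (hm : (B + A * 2 ^ N) * (m + 1) < κ * (d : ℝ) ^ m) (hΛ : Real.log 2 ≤ Λ) (hh0 : 0 ≤ h)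
    (hh : h ≤ k * Λ) (hDK0 : 0 ≤ DK) (hDK : DK ≤ D) (hR : R ≤ (d ^ m + 1) ^ N)
    (hineq : (κ * ((d : ℝ) ^ m) ^ (N + 1) - B * ((d : ℝ) ^ m) ^ N) * Λ ≤
      DK * (Real.log (R.factorial : ℝ) + R * (B * (m + 1)) * Real.log c) +
      R * (s * h + DK * Real.log c) + s * (R * (B * (m + 1))) * h) : False := by
  have hd' : (2 : ℝ) ≤ d := by exact_mod_cast hd
  have hl2 : 0 < Real.log 2 := Real.log_pos (by norm_num)
  have hΛ0 : 0 < Λ := by linarith
  have hlc : 0 ≤ Real.log c := Real.log_nonneg hc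
  have hld : 0 ≤ Real.log d := Real.log_nonneg (by linarith)
  have hD0 : (0 : ℝ) ≤ D := Nat.cast_nonneg D
  have hDΛ : (D : ℝ) ≤ D / Real.log 2 * Λ := by
    rw [div_mul_eq_mul_div, le_div_iff₀ hl2]
    exact mul_le_mul_of_nonneg_left hΛ hD0
  have hm0 : (0 : ℝ) ≤ m := Nat.cast_nonneg m
  have hR0 : (0 : ℝ) ≤ R := Nat.cast_nonneg R
  have hB0 : (0 : ℝ) ≤ B := Nat.cast_nonneg B
  have hs0 : (0 : ℝ) ≤ s := Nat.cast_nonneg s
  have hk0 : (0 : ℝ) ≤ k := Nat.cast_nonneg k
  have hN0 : (0 : ℝ) ≤ N := Nat.cast_nonneg N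
  have hA0 : 0 ≤ A := by
    rw [hA]
    positivity
  -- the factorial
  have hfac : Real.log (R.factorial : ℝ) ≤ R * (N * ((m + 1) * Real.log d)) := by
    have h1 : R.factorial ≤ (d ^ (m + 1)) ^ (N * R) := by
      have h2 : d ^ m + 1 ≤ d ^ (m + 1) := by
        rw [pow_succ]
        have : 1 ≤ d ^ m := Nat.one_le_pow _ _ (by omega)
        nlinarith
      calc R.factorial ≤ R ^ R := Nat.factorial_le_pow R
        _ ≤ ((d ^ m + 1) ^ N) ^ R := Nat.pow_le_pow_left hR R
        _ ≤ ((d ^ (m + 1)) ^ N) ^ R := Nat.pow_le_pow_left (Nat.pow_le_pow_left h2 N) R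
        _ = (d ^ (m + 1)) ^ (N * R) := by rw [← pow_mul]
    have h2 : (R.factorial : ℝ) ≤ ((d : ℝ) ^ (m + 1)) ^ (N * R) := by exact_mod_cast h1
    have h3 := Real.log_le_log (by exact_mod_cast Nat.factorial_pos R) h2
    rw [Real.log_pow, Real.log_pow] at h3
    push_cast at h3
    linarith
  have t1 : DK * Real.log (R.factorial : ℝ) ≤
      R * (m + 1) * (D * N * Real.log d / Real.log 2) * Λ := by
    calc DK * Real.log (R.factorial : ℝ) ≤ D * (R * (N * ((m + 1) * Real.log d))) :=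
          mul_le_mul hDK hfac (Real.log_nonneg (by exact_mod_cast Nat.factorial_pos R)) hD0
      _ = (R * (N * ((m + 1) * Real.log d))) * D := by ring
      _ ≤ (R * (N * ((m + 1) * Real.log d))) * (D / Real.log 2 * Λ) :=
          mul_le_mul_of_nonneg_left hDΛ (by positivity)
      _ = _ := by ring
  have t2 : DK * (R * (B * (m + 1)) * Real.log c) ≤
      R * (m + 1) * (B * D * Real.log c / Real.log 2) * Λ := by
    calc DK * (R * (B * (m + 1)) * Real.log c) ≤ D * (R * (B * (m + 1)) * Real.log c) :=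
          mul_le_mul_of_nonneg_right hDK (by positivity)
      _ = (R * (B * (m + 1)) * Real.log c) * D := by ring
      _ ≤ (R * (B * (m + 1)) * Real.log c) * (D / Real.log 2 * Λ) :=
          mul_le_mul_of_nonneg_left hDΛ (by positivity)
      _ = _ := by ring
  have t3 : R * (s * h) ≤ R * (m + 1) * (s * k) * Λ := by
    calc R * (s * h) ≤ R * (s * (k * Λ)) :=
          mul_le_mul_of_nonneg_left (mul_le_mul_of_nonneg_left hh hs0) hR0
      _ = (R * (s * k) * Λ) * 1 := by ring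
      _ ≤ (R * (s * k) * Λ) * (m + 1) := mul_le_mul_of_nonneg_left (by linarith) (by positivity)
      _ = _ := by ring
  have t4 : R * (DK * Real.log c) ≤ R * (m + 1) * (D * Real.log c / Real.log 2) * Λ := by
    calc R * (DK * Real.log c) ≤ R * (D * Real.log c) :=
          mul_le_mul_of_nonneg_left (mul_le_mul_of_nonneg_right hDK hlc) hR0
      _ = (R * Real.log c) * D := by ring
      _ ≤ (R * Real.log c) * (D / Real.log 2 * Λ) :=
          mul_le_mul_of_nonneg_left hDΛ (by positivity)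
      _ = (R * (D * Real.log c / Real.log 2) * Λ) * 1 := by ring
      _ ≤ (R * (D * Real.log c / Real.log 2) * Λ) * (m + 1) :=
          mul_le_mul_of_nonneg_left (by linarith) (by positivity)
      _ = _ := by ring
  have t5 : s * (R * (B * (m + 1))) * h ≤ R * (m + 1) * (s * B * k) * Λ := by
    calc s * (R * (B * (m + 1))) * h ≤ s * (R * (B * (m + 1))) * (k * Λ) :=
          mul_le_mul_of_nonneg_left hh (by positivity)
      _ = _ := by ring
  have hsum : (κ * ((d : ℝ) ^ m) ^ (N + 1) - B * ((d : ℝ) ^ m) ^ N) * Λ ≤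
      R * (m + 1) * A * Λ := by
    rw [hA]
    refine hineq.trans ?_
    have e1 : DK * (Real.log (R.factorial : ℝ) + R * (B * (m + 1)) * Real.log c) =
        DK * Real.log (R.factorial : ℝ) + DK * (R * (B * (m + 1)) * Real.log c) := by ring
    have e2 : R * (s * h + DK * Real.log c) = R * (s * h) + R * (DK * Real.log c) := by ring
    rw [e1, e2]
    refine (add_le_add (add_le_add (add_le_add t1 t2) (add_le_add t3 t4)) t5).trans
      (le_of_eq ?_)
    ring
  have hT : (0 : ℝ) < (d : ℝ) ^ m := by positivity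
  have hRb : (R : ℝ) ≤ 2 ^ N * ((d : ℝ) ^ m) ^ N := by
    have h1 : (R : ℝ) ≤ ((d : ℝ) ^ m + 1) ^ N := by exact_mod_cast hR
    have h2 : (1 : ℝ) ≤ (d : ℝ) ^ m := one_le_pow₀ (by linarith)
    calc (R : ℝ) ≤ ((d : ℝ) ^ m + 1) ^ N := h1
      _ ≤ (2 * (d : ℝ) ^ m) ^ N := pow_le_pow_left₀ (by positivity) (by linarith) N
      _ = _ := by rw [mul_pow]
  have h1 : κ * ((d : ℝ) ^ m) ^ (N + 1) - B * ((d : ℝ) ^ m) ^ N ≤ R * (m + 1) * A :=
    le_of_mul_le_mul_right hsum hΛ0
  have h2 : R * (m + 1) * A ≤ 2 ^ N * ((d : ℝ) ^ m) ^ N * ((m + 1) * A) := by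
    rw [mul_assoc]
    exact mul_le_mul_of_nonneg_right hRb (by positivity)
  have h3 : (κ * (d : ℝ) ^ m - B) * ((d : ℝ) ^ m) ^ N ≤
      (2 ^ N * ((m + 1) * A)) * ((d : ℝ) ^ m) ^ N := by
    rw [pow_succ] at h1
    linarith
  have h4 := le_of_mul_le_mul_right h3 (by positivity)
  nlinarith

/-- **Theorem P_N (I)**: the `K`-rational preperiodic points lie on a hypersurface of bounded
degree. -/
theorem main_I (D N d k : ℕ) (hN : 1 ≤ N) (hd : 2 ≤ d) : ∃ n : ℕ, 1 ≤ n ∧
    ∀ (K : Type) [Field K] [NumberField K], Module.finrank ℚ K ≤ D →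
    ∀ F : Fin (N + 1) → MvPolynomial (Fin (N + 1)) (𝓞 K), (∀ i, (F i).IsHomogeneous d) →
    (∀ z : Fin (N + 1) → AlgebraicClosure K,
      phi (mp (algebraMap (𝓞 K) (AlgebraicClosure K)) F) z = 0 → z = 0) →
    ∀ J : Ideal (𝓞 K), Squarefree J → J ≠ ⊤ →
    (∀ v : HeightOneSpectrum (𝓞 K), v.asIdeal ∣ J → Defective d k F v) →
    Height.mulHeight (cof d (mp (algebraMap (𝓞 K) K) F)) ≤ (Ideal.absNorm J : ℝ) ^ k →
    ∃ Q : MvPolynomial (Fin (N + 1)) K, Q ≠ 0 ∧ Q.IsHomogeneous n ∧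
      ∀ x : Fin (N + 1) → K, Preper (mp (algebraMap (𝓞 K) K) F) x → MvPolynomial.eval x Q = 0 := by
  obtain ⟨B, s, c, hdB, hc, hcr⟩ := exists_cramer N d (by omega)
  have hd' : (2 : ℝ) ≤ d := by exact_mod_cast hd
  obtain ⟨A, hA⟩ : ∃ A : ℝ, A = D * N * Real.log d / Real.log 2 +
    B * D * Real.log c / Real.log 2 + s * k + D * Real.log c / Real.log 2 + s * B * k := ⟨_, rfl⟩
  have hlc : 0 ≤ Real.log c := Real.log_nonneg hc
  have hld : 0 ≤ Real.log d := Real.log_nonneg (by linarith)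
  have hl2 : 0 < Real.log 2 := Real.log_pos (by norm_num)
  have hA0 : 0 ≤ A := by
    rw [hA]
    positivity
  obtain ⟨m, hm0, hm⟩ := exists_m (1 / (4 * (d : ℝ) ^ (k + N * (k + N + 1)))) (B + A * 2 ^ N) d
    (by positivity) (by positivity) hd' (k + N + 1)
  refine ⟨d ^ m, Nat.one_le_pow _ _ (by omega), ?_⟩
  intro K _ _ hDK F hF hbar J hJ hJtop hdef hH
  by_contra hcon
  set FK := mp (algebraMap (𝓞 K) K) F with hFK
  have hFKd : ∀ i, (FK i).IsHomogeneous d := mp_homog _ hF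
  have hmpbar : mp (algebraMap K (AlgebraicClosure K)) FK =
      mp (algebraMap (𝓞 K) (AlgebraicClosure K)) F := by
    funext i
    simp only [hFK, mp, MvPolynomial.map_map]
    rw [← IsScalarTower.algebraMap_eq]
  have hbar' : ∀ z : Fin (N + 1) → AlgebraicClosure K,
      phi (mp (algebraMap K (AlgebraicClosure K)) FK) z = 0 → z = 0 := by
    rw [hmpbar]
    exact hbar
  have hnz : ∀ z, phi FK z = 0 → z = 0 := by
    intro z hz
    have h1 := phi_map (algebraMap K (AlgebraicClosure K)) FK z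
    have h2 : (fun i => algebraMap K (AlgebraicClosure K) (z i)) = 0 := by
      apply hbar'
      rw [← h1, hz]
      funext i
      simp
    funext i
    have h3 := congrFun h2 i
    simpa using h3
  obtain ⟨σ⟩ : Nonempty (K →+* ℂ) := inferInstance
  obtain ⟨Δ, hΔ, hna, har, hmon⟩ := hcr K σ FK hFKd (noZero_embed σ FK hbar')
  obtain ⟨R, a, x, hR, hxS, hdet, hspan⟩ := exists_det
    (ι := {a : Fin (m + 1) → Fin (N + 1) → ℕ // Adm d B (d ^ m) a}) (fun a => PP FK a.1)
    (fun a => PP_homog hFKd a.1 a.2)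
    (fun Q hQ => by
      have h := span_PP hd hdB hFKd hmon (m + 1) (d ^ m)
        (Nat.pow_lt_pow_right (by omega) (by omega)) Q hQ
      refine Submodule.span_mono ?_ h
      rintro P ⟨a, ha, rfl⟩
      exact ⟨⟨a, ha⟩, rfl⟩)
    {x | Preper FK x}
    (fun Q hQ hQ0 => by
      by_contra hne
      exact hcon ⟨Q, hne, hQ, fun x hx => hQ0 x hx⟩)
  have hineq := key_ineq hN hd hm0 c hc F hF hnz Δ hΔ hna har J hJ hdef R (fun i => (a i).1)
    (fun i => (a i).2) hspan x hxS hdet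
  have hJ2 : (2 : ℝ) ≤ Ideal.absNorm J := by
    have h1 : Ideal.absNorm J ≠ 1 := fun h => hJtop (Ideal.absNorm_eq_one_iff.mp h)
    have h0 : Ideal.absNorm J ≠ 0 := fun h => hJ.ne_zero (Ideal.absNorm_eq_zero_iff.mp h)
    have : 2 ≤ Ideal.absNorm J := by omega
    exact_mod_cast this
  have hΛ : Real.log 2 ≤ Real.log (Ideal.absNorm J) := Real.log_le_log (by norm_num) hJ2
  have hh : Height.logHeight (cof d FK) ≤ k * Real.log (Ideal.absNorm J) := by
    have h1 := Real.log_le_log (Height.mulHeight_pos _) hH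
    rw [Real.log_pow] at h1
    exact h1
  exact numeric hd _ A c _ _ _ hc hA hm hΛ (Height.logHeight_nonneg _) hh (Nat.cast_nonneg _)
    (by exact_mod_cast hDK) hR hineq

end Pool.Agent.PND
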